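import Mathlib
import Pool.Agent.Lib.MP_d8b6c2_an.CField

/-!
# The inductive system: definitions

One compact space `XX` for all stages: a point is a tree; the node `v : List ℕ` carries a point of
`[0,1]` and spheres `S3` numbered by `ℕ`. `sh m x` is the subtree at the child `m` of the root.
The torus `GG` acts on the spheres. `N i` = number of genuine children at stage `i`, `D i` = number
of spheres used at the new root. `Ix N i` is the index set of the matrices at stage `i`.
-/

namespace Pool.Agent.MP_d8b6c2_an.C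

open Filter Topology Matrix
open scoped Matrix.Norms.L2Operator ComplexOrder

instance : CompactSpace S3 := by
  refine isCompact_iff_compactSpace.1 ?_
  refine Metric.isCompact_of_isClosed_isBounded ?_ ?_
  · exact isClosed_eq (by fun_prop) continuous_const
  · refine (Metric.isBounded_closedBall (x := (0 : Fin 2 → ℂ)) (r := 1)).subset ?_
    intro z hz
    have h1 : ∑ i, ‖z i‖ ^ 2 = 1 := hz
    rw [mem_closedBall_zero_iff, pi_norm_le_iff_of_nonneg zero_le_one]
    intro i
    have h2 : ‖z i‖ ^ 2 ≤ ∑ i, ‖z i‖ ^ 2 :=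
      Finset.single_le_sum (f := fun i => ‖z i‖ ^ 2) (fun j _ => sq_nonneg _) (Finset.mem_univ i)
    rw [h1] at h2
    nlinarith [norm_nonneg (z i)]

/-- the space -/
abbrev XX : Type := List ℕ → unitInterval × (ℕ → S3)

/-- the group -/
abbrev GG : Type := List ℕ → ℕ → Circle

/-- subtree at the child `m` of the root -/
def sh (m : ℕ) (x : XX) : XX := fun v => x (m :: v)

theorem continuous_sh (m : ℕ) : Continuous (sh m) :=
  continuous_pi fun v => continuous_apply (m :: v)

/-- the same for the group -/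
def shG (m : ℕ) (g : GG) : GG := fun v => g (m :: v)

/-- the action -/
def act (g : GG) (x : XX) : XX := fun v => ((x v).1, fun s => rotS (g v s) ((x v).2 s))

theorem sh_act (m : ℕ) (g : GG) (x : XX) : sh m (act g x) = act (shG m g) (sh m x) := rfl

variable (N D : ℕ → ℕ)

/-- index set of the matrices at stage `i` -/
def Ix : ℕ → Type
  | 0 => Unit
  | (i + 1) => Fin (N i + 1) × Ix i

instance Ix.fintype : (i : ℕ) → Fintype (Ix N i)
  | 0 => inferInstanceAs (Fintype Unit)
  | (i + 1) => by
    have := Ix.fintype i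
    exact inferInstanceAs (Fintype (Fin (N i + 1) × Ix N i))

instance Ix.decidableEq : (i : ℕ) → DecidableEq (Ix N i)
  | 0 => inferInstanceAs (DecidableEq Unit)
  | (i + 1) => by
    have := Ix.decidableEq i
    exact inferInstanceAs (DecidableEq (Fin (N i + 1) × Ix N i))

instance Ix.inhabited : (i : ℕ) → Inhabited (Ix N i)
  | 0 => inferInstanceAs (Inhabited Unit)
  | (i + 1) => by
    have := Ix.inhabited i
    exact inferInstanceAs (Inhabited (Fin (N i + 1) × Ix N i))

/-- first letter -/
def Ix.hd {N : ℕ → ℕ} {i : ℕ} (p : Ix N (i + 1)) : Fin (N i + 1) := Prod.fst p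

/-- the rest of the word -/
def Ix.tl {N : ℕ → ℕ} {i : ℕ} (p : Ix N (i + 1)) : Ix N i := Prod.snd p

/-- add a letter -/
def Ix.cons {N : ℕ → ℕ} {i : ℕ} (m : Fin (N i + 1)) (r : Ix N i) : Ix N (i + 1) := Prod.mk m r

@[simp] theorem Ix.hd_cons {N : ℕ → ℕ} {i : ℕ} (m : Fin (N i + 1)) (r : Ix N i) :
    (Ix.cons m r).hd = m := rfl

@[simp] theorem Ix.tl_cons {N : ℕ → ℕ} {i : ℕ} (m : Fin (N i + 1)) (r : Ix N i) :
    (Ix.cons m r).tl = r := rfl

@[simp] theorem Ix.cons_hd_tl {N : ℕ → ℕ} {i : ℕ} (p : Ix N (i + 1)) :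
    Ix.cons p.hd p.tl = p := rfl

theorem Ix.sum_succ {N : ℕ → ℕ} {i : ℕ} {M : Type*} [AddCommMonoid M] (F : Ix N (i + 1) → M) :
    ∑ p, F p = ∑ m : Fin (N i + 1), ∑ r : Ix N i, F (Ix.cons m r) :=
  Fintype.sum_prod_type (fun y : Fin (N i + 1) × Ix N i => F y)

theorem Ix.ext_iff' {N : ℕ → ℕ} {i : ℕ} (p q : Ix N (i + 1)) :
    p = q ↔ p.hd = q.hd ∧ p.tl = q.tl := by
  constructor
  · rintro rfl
    exact ⟨rfl, rfl⟩
  · rintro ⟨h1, h2⟩
    rw [← Ix.cons_hd_tl p, ← Ix.cons_hd_tl q, h1, h2]

/-- `n_i`, the size of the matrices at stage `i` -/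
def nn : ℕ → ℕ
  | 0 => 1
  | (i + 1) => (N i + 1) * nn i

theorem card_Ix (i : ℕ) : Fintype.card (Ix N i) = nn N i := by
  induction i with
  | zero => rfl
  | succ i ih =>
    have h : Fintype.card (Ix N (i + 1)) = Fintype.card (Fin (N i + 1) × Ix N i) := rfl
    rw [h, Fintype.card_prod, Fintype.card_fin, ih, nn]

/-- the character of the index `p` -/
noncomputable def chi : (i : ℕ) → Ix N i → GG → Circle
  | 0, _, _ => 1
  | (i + 1), p, g =>
    if (p.hd : ℕ) < N i then
      (∏ s ∈ Finset.range (D i), g [] s) ^ (p.hd : ℕ) * chi i p.tl (shG p.hd g)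
    else 1

/-- one step down: the genuine children, or the point `pt i` -/
noncomputable def nxt (pt : ℕ → XX) (i : ℕ) (m : Fin (N i + 1)) (x : XX) : XX :=
  if (m : ℕ) < N i then sh m x else pt i

theorem continuous_nxt (pt : ℕ → XX) (i : ℕ) (m : Fin (N i + 1)) :
    Continuous (nxt N pt i m) := by
  unfold nxt
  by_cases h : (m : ℕ) < N i
  · simp only [h, if_true]
    exact continuous_sh m
  · simp only [h, if_false]
    exact continuous_const

/-- matrix valued continuous functions -/
abbrev MX (K : Type) [Fintype K] [DecidableEq K] (i : ℕ) : Type :=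
  C(XX, Matrix (K × Ix N i) (K × Ix N i) ℂ)

/-- equivariance -/
def Eqv {K : Type} [Fintype K] [DecidableEq K] {i : ℕ} (a : MX N K i) : Prop :=
  ∀ (g : GG) (x : XX) (p q : K × Ix N i),
    a (act g x) p q = (starRingEnd ℂ) (chi N D i p.2 g : ℂ) * (chi N D i q.2 g : ℂ) * a x p q

/-- the C*-algebra `M_K(A_i)` of equivariant functions; `A_i` is the case `K = Unit` -/
noncomputable def EqA (K : Type) [Fintype K] [DecidableEq K] (i : ℕ) :
    StarSubalgebra ℂ (MX N K i) where
  carrier := {a | Eqv N D a}
  mul_mem' := by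
    intro a b ha hb g x p q
    have h : ∀ r : K × Ix N i, (chi N D i r.2 g : ℂ) * (starRingEnd ℂ) (chi N D i r.2 g : ℂ) = 1 := by
      intro r
      rw [Complex.mul_conj, Complex.normSq_eq_norm_sq, Circle.norm_coe]
      norm_num
    simp only [ContinuousMap.mul_apply, Matrix.mul_apply]
    rw [Finset.mul_sum]
    refine Finset.sum_congr rfl fun r _ => ?_
    rw [ha g x p r, hb g x r q]
    linear_combination (starRingEnd ℂ) (chi N D i p.2 g : ℂ) * (chi N D i q.2 g : ℂ) *
      a x p r * b x r q * h r
  add_mem' := by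
    intro a b ha hb g x p q
    simp only [ContinuousMap.add_apply, Matrix.add_apply]
    rw [ha g x p q, hb g x p q]
    ring
  algebraMap_mem' := by
    intro c g x p q
    have h0 : ∀ y : XX, (algebraMap ℂ (MX N K i) c) y = algebraMap ℂ (Matrix (K × Ix N i) (K × Ix N i) ℂ) c :=
      fun y => rfl
    rw [h0, h0, Matrix.algebraMap_matrix_apply]
    by_cases h : p = q
    · subst h
      simp only [if_true]
      have h1 : (starRingEnd ℂ) (chi N D i p.2 g : ℂ) * (chi N D i p.2 g : ℂ) = 1 := by
        rw [mul_comm, Complex.mul_conj, Complex.normSq_eq_norm_sq, Circle.norm_coe]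
        norm_num
      rw [h1, one_mul]
    · simp only [h, if_false, mul_zero]
  star_mem' := by
    intro a ha g x p q
    have h0 : ∀ y : XX, (star a) y p q = (starRingEnd ℂ) (a y q p) := fun y => rfl
    rw [h0, h0, ha g x q p]
    simp only [map_mul, Complex.conj_conj]
    ring

instance EqA.isClosed (K : Type) [Fintype K] [DecidableEq K] (i : ℕ) :
    IsClosed (EqA N D K i : Set (MX N K i)) := by
  have h : (EqA N D K i : Set (MX N K i)) = ⋂ (g : GG) (x : XX) (p : K × Ix N i) (q : K × Ix N i),
      {a : MX N K i | a (act g x) p q =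
        (starRingEnd ℂ) (chi N D i p.2 g : ℂ) * (chi N D i q.2 g : ℂ) * a x p q} := by
    ext a
    simp only [Set.mem_iInter, Set.mem_ofPred_eq]
    rfl
  rw [h]
  have hc : ∀ (x : XX) (p q : K × Ix N i), Continuous fun a : MX N K i => a x p q := by
    intro x p q
    have h1 : Continuous fun M : Matrix (K × Ix N i) (K × Ix N i) ℂ => M p q :=
      (continuous_apply q).comp (continuous_apply p)
    exact h1.comp (continuous_eval_const x)
  refine isClosed_iInter fun g => isClosed_iInter fun x => isClosed_iInter fun p =>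
    isClosed_iInter fun q => ?_
  exact isClosed_eq (hc _ p q) (continuous_const.mul (hc x p q))

end Pool.Agent.MP_d8b6c2_an.C
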