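import Mathlib
import Pool.Agent.Lib.MP_d8b6c2_an.C.Sys0

/-!
# Dense sequences of point evaluations
-/

namespace Pool.Agent.MP_d8b6c2_an.C

open Filter Topology

/-- for every stage `i` and every nonempty open set, one of the points `pt j`, `j ≥ i`, seen from
stage `i` through the child `0`, lies in the open set -/
def DensePts (pt : ℕ → XX) : Prop :=
  ∀ (i : ℕ) (O : Set XX), IsOpen O → O.Nonempty → ∃ j, i ≤ j ∧ (sh 0)^[j - i] (pt j) ∈ O

/-- a right inverse of `sh 0` -/
def unsh (y : XX) : XX := fun v => match v with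
  | [] => y []
  | (_ :: w) => y w

theorem sh_unsh (y : XX) : sh 0 (unsh y) = y := rfl

theorem sh_unsh_iter (n : ℕ) (y : XX) : (sh 0)^[n] (unsh^[n] y) = y := by
  induction n generalizing y with
  | zero => rfl
  | succ n ih =>
    rw [Function.iterate_succ_apply, Function.iterate_succ_apply', sh_unsh, ih]

instance : SecondCountableTopology S3 := TopologicalSpace.Subtype.secondCountableTopology _

instance : Nonempty S3 := by
  refine ⟨⟨![1, 0], ?_⟩⟩
  change ∑ i, ‖(![1, 0] : Fin 2 → ℂ) i‖ ^ 2 = 1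
  simp [Fin.sum_univ_two]

theorem exists_pt : ∃ pt : ℕ → XX, DensePts pt := by
  obtain ⟨y, hy⟩ := TopologicalSpace.exists_dense_seq XX
  refine ⟨fun j => unsh^[j - (Nat.unpair j).1] (y (Nat.unpair j).2), ?_⟩
  intro i O hO hne
  obtain ⟨k, hk⟩ := hy.exists_mem_open hO hne
  refine ⟨Nat.pair i k, Nat.left_le_pair i k, ?_⟩
  simp only [Nat.unpair_pair]
  rw [sh_unsh_iter]
  exact hk

end Pool.Agent.MP_d8b6c2_an.C
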