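import Mathlib

/-!
# The rank problem: definitions

`QT A`: normalised 2-quasitraces of a unital C*-algebra `A`, with the topology of pointwise
convergence on `A` and its convex structure. `Stabilization A B`: `B` is (a model of) `A ⊗ 𝒦`.
`IsRankAt st τ b r`: for a tracial state `τ` of `A`, extended to `A ⊗ 𝒦` as `τ ⊗ Tr`, the rank
`d_τ(b) = lim_n τ(b^(1/n))` equals `r`.
-/

namespace Pool.Agent.MP_d8b6c2_an

open Filter Topology
open scoped NNReal ENNReal ComplexOrder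

section quasitrace

variable {A : Type*} [Ring A] [StarRing A] [Algebra ℂ A]

/-- `τ` is a quasitrace: `0 ≤ τ(a* a) = τ(a a*)`, `τ(a + i b) = τ(a) + i τ(b)` for self-adjoint
`a`, `b`, and `τ` is linear on every commutative *-subalgebra. -/
structure IsQuasitrace (τ : A → ℂ) : Prop where
  nonneg : ∀ a, 0 ≤ τ (star a * a)
  comm : ∀ a, τ (star a * a) = τ (a * star a)
  add_I : ∀ a b, IsSelfAdjoint a → IsSelfAdjoint b →
    τ (a + Complex.I • b) = τ a + Complex.I * τ b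
  lin : ∀ S : Subalgebra ℂ A, (∀ x ∈ S, star x ∈ S) → (∀ x ∈ S, ∀ y ∈ S, x * y = y * x) →
    ∀ (c : ℂ), ∀ x ∈ S, ∀ y ∈ S, τ (c • x + y) = c * τ x + τ y

/-- `τ` is a 2-quasitrace: it extends to a quasitrace of `M_2(A)`. -/
def Is2Quasitrace (τ : A → ℂ) : Prop :=
  IsQuasitrace τ ∧ ∃ σ : Matrix (Fin 2) (Fin 2) A → ℂ, IsQuasitrace σ ∧
    ∀ a, σ (Matrix.single 0 0 a) = τ a

/-- `τ` is a tracial state -/
structure IsTracialState (τ : A → ℂ) : Prop where
  add : ∀ a b, τ (a + b) = τ a + τ b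
  smul : ∀ (c : ℂ) a, τ (c • a) = c * τ a
  comm : ∀ a b, τ (a * b) = τ (b * a)
  nonneg : ∀ a, 0 ≤ τ (star a * a)
  one : τ 1 = 1

variable (A) in
/-- normalised 2-quasitraces, with the topology of pointwise convergence -/
abbrev QT : Type _ := {τ : A → ℂ // Is2Quasitrace τ ∧ τ 1 = 1}

/-- `f` is affine on `QT A` -/
def AffineOnQT (f : QT A → ℝ≥0∞) : Prop :=
  ∀ (τ₀ τ₁ τ₂ : QT A) (s : ℝ), 0 ≤ s → s ≤ 1 →
    (∀ a, τ₂.1 a = (1 - s : ℝ) * τ₀.1 a + (s : ℝ) * τ₁.1 a) →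
    f τ₂ = ENNReal.ofReal (1 - s) * f τ₀ + ENNReal.ofReal s * f τ₁

end quasitrace

/-- `B` is a model of `A ⊗ 𝒦`: `u i j a` is `a ⊗ e_{ij}` -/
structure Stabilization (A : Type*) [CStarAlgebra A] (B : Type*) [NonUnitalCStarAlgebra B] where
  u : ℕ → ℕ → A →ₗ[ℂ] B
  u_mul : ∀ i j k l a b, u i j a * u k l b = if j = k then u i l (a * b) else 0
  u_star : ∀ i j a, star (u i j a) = u j i (star a)
  u_inj : Function.Injective (u 0 0)
  dense : Dense (Submodule.span ℂ (⋃ i, ⋃ j, Set.range (u i j)) : Set B)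

section rank

variable {A : Type*} [CStarAlgebra A] {B : Type*} [NonUnitalCStarAlgebra B]

open Classical in
/-- the matrix entry of `b`: `u i i 1 * b * u j j 1 = u i j (entry i j b)` -/
noncomputable def Stabilization.entry (st : Stabilization A B) (i j : ℕ) (b : B) : A :=
  if h : ∃ a, st.u i j a = st.u i i 1 * b * st.u j j 1 then h.choose else 0

/-- the canonical extension `τ ⊗ Tr` of a tracial state, on positive elements -/
noncomputable def Stabilization.trExt (st : Stabilization A B) (τ : A → ℂ) (b : B) : ℝ≥0∞ :=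
  ∑' i, ENNReal.ofReal (τ (st.entry i i b)).re

/-- `d_τ(b) = lim_n τ(b^(1/n))` is equal to `r` -/
def IsRankAt [PartialOrder B] [StarOrderedRing B] (st : Stabilization A B) (τ : A → ℂ) (b : B)
    (r : ℝ≥0∞) : Prop :=
  Tendsto (fun n : ℕ => st.trExt τ (b ^ (((n : ℝ≥0) + 1)⁻¹))) atTop (𝓝 r)

end rank

end Pool.Agent.MP_d8b6c2_an
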