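import Mathlib

/-!
# Completion of an algebra with a C*-seminorm
-/

namespace Pool.Agent.MP_d8b6c2_an.C

open UniformSpace

section

variable {R : Type} [SeminormedRing R] [StarRing R] [NormedAlgebra ℂ R] [StarModule ℂ R]

omit [NormedAlgebra ℂ R] [StarModule ℂ R] in
theorem norm_star_of (h1 : ∀ x : R, ‖star x * x‖ = ‖x‖ * ‖x‖) (x : R) : ‖star x‖ = ‖x‖ := by
  have key : ∀ y : R, ‖y‖ ≤ ‖star y‖ := by
    intro y
    by_cases h0 : ‖y‖ = 0
    · rw [h0]; exact norm_nonneg _
    · have hpos : 0 < ‖y‖ := lt_of_le_of_ne (norm_nonneg _) (Ne.symm h0)
      have := norm_mul_le (star y) y
      rw [h1] at this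
      exact le_of_mul_le_mul_right this hpos
  refine le_antisymm ?_ (key x)
  have := key (star x)
  rwa [star_star] at this

theorem exists_compl (h1 : ∀ x : R, ‖star x * x‖ = ‖x‖ * ‖x‖) :
    ∃ (A : Type) (_ : CStarAlgebra A) (j : R →⋆ₐ[ℂ] A), (∀ x, ‖j x‖ = ‖x‖) ∧ DenseRange j := by
  have hs := norm_star_of h1
  have hisom : Isometry (star : R → R) := by
    refine AddMonoidHomClass.isometry_of_norm (starAddEquiv : R ≃+ R) ?_
    intro x
    exact hs x
  have huc : UniformContinuous (star : R → R) := hisom.uniformContinuous
  let st : Completion R → Completion R := Completion.map (star : R → R)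
  have st_coe : ∀ x : R, st (x : Completion R) = ((star x : R) : Completion R) :=
    fun x => Completion.map_coe huc x
  have st_cont : Continuous st := Completion.continuous_map
  let iStar : Star (Completion R) := ⟨st⟩
  have star_def : ∀ x : Completion R, star x = st x := fun _ => rfl
  have hinv : ∀ x : Completion R, star (star x) = x := by
    intro x
    refine Completion.induction_on x ?_ ?_
    · exact isClosed_eq (st_cont.comp st_cont) continuous_id
    · intro a
      simp only [star_def, st_coe, star_star]
  have hmul : ∀ x y : Completion R, star (x * y) = star y * star x := by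
    intro x y
    refine Completion.induction_on₂ x y ?_ ?_
    · exact isClosed_eq (st_cont.comp continuous_mul)
        ((st_cont.comp continuous_snd).mul (st_cont.comp continuous_fst))
    · intro a b
      simp only [star_def, st_coe, ← Completion.coe_mul, star_mul]
  have hadd : ∀ x y : Completion R, star (x + y) = star x + star y := by
    intro x y
    refine Completion.induction_on₂ x y ?_ ?_
    · exact isClosed_eq (st_cont.comp continuous_add)
        ((st_cont.comp continuous_fst).add (st_cont.comp continuous_snd))
    · intro a b
      simp only [star_def, st_coe, ← Completion.coe_add, star_add]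
  let iSR : StarRing (Completion R) :=
    { star := star
      star_involutive := hinv
      star_mul := hmul
      star_add := hadd }
  have hsm : ∀ (c : ℂ) (x : Completion R), star (c • x) = star c • star x := by
    intro c x
    refine Completion.induction_on x ?_ ?_
    · exact isClosed_eq (st_cont.comp (continuous_const_smul c)) ((continuous_const_smul (star c)).comp st_cont)
    · intro a
      simp only [star_def, st_coe, ← Completion.coe_smul, star_smul]
  have hC : ∀ x : Completion R, ‖star x * x‖ = ‖x‖ * ‖x‖ := by
    intro x
    refine Completion.induction_on x ?_ ?_
    · exact isClosed_eq ((st_cont.mul continuous_id).norm)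
        (continuous_norm.mul continuous_norm)
    · intro a
      simp only [star_def, st_coe, ← Completion.coe_mul, Completion.norm_coe, h1]
  let iNA : NormedAlgebra ℂ (Completion R) :=
    { (inferInstance : Algebra ℂ (Completion R)) with
      norm_smul_le := fun c x => by
        refine Completion.induction_on x ?_ ?_
        · exact isClosed_le ((continuous_const_smul c).norm) (continuous_const.mul continuous_norm)
        · intro a
          rw [← Completion.coe_smul, Completion.norm_coe, Completion.norm_coe]
          exact norm_smul_le c a }
  let iC : CStarAlgebra (Completion R) :=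
    { (inferInstance : NormedRing (Completion R)), iSR, iNA with
      complete := (inferInstance : CompleteSpace (Completion R)).complete
      norm_mul_self_le := fun x => (hC x).ge
      star_smul := hsm }
  refine ⟨Completion R, iC, ?_, ?_, ?_⟩
  · exact
    { toFun := fun x => (x : Completion R)
      map_one' := Completion.coe_one R
      map_mul' := fun x y => Completion.coe_mul x y
      map_zero' := Completion.coe_zero
      map_add' := fun x y => Completion.coe_add x y
      commutes' := fun c => rfl
      map_star' := fun x => (st_coe x).symm }
  · intro x
    exact Completion.norm_coe x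
  · exact Completion.denseRange_coe

end

end Pool.Agent.MP_d8b6c2_an.C
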