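import Mathlib
import Pool.Agent.Lib.MP_d8b6c2_an.C.Lim0

/-!
# Inductive limits of unital C*-algebras along injective unital *-homomorphisms
-/

namespace Pool.Agent.MP_d8b6c2_an.C

open Filter

section

variable {𝒜 : ℕ → Type} [∀ i, CStarAlgebra (𝒜 i)] (φ : ∀ i, 𝒜 i →⋆ₐ[ℂ] 𝒜 (i + 1))

/-- eventually coherent sequences -/
def Coh (a : ∀ i, 𝒜 i) : Prop := ∀ᶠ i in atTop, a (i + 1) = φ i (a i)

/-- the *-algebra of eventually coherent sequences -/
def preAlg : StarSubalgebra ℂ (∀ i, 𝒜 i) where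
  carrier := {a | Coh φ a}
  mul_mem' := by
    intro a b ha hb
    filter_upwards [ha, hb] with i h1 h2
    simp only [Pi.mul_apply, map_mul, h1, h2]
  add_mem' := by
    intro a b ha hb
    filter_upwards [ha, hb] with i h1 h2
    simp only [Pi.add_apply, map_add, h1, h2]
  algebraMap_mem' := by
    intro c
    refine Eventually.of_forall fun i => ?_
    simp only [Pi.algebraMap_apply]
    rw [AlgHomClass.commutes]
  star_mem' := by
    intro a ha
    filter_upwards [ha] with i h1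
    simp only [Pi.star_apply, map_star, h1]

/-- type synonym without topology -/
def Pre : Type := preAlg φ

noncomputable instance : Ring (Pre φ) := inferInstanceAs (Ring (preAlg φ))
noncomputable instance : StarRing (Pre φ) := inferInstanceAs (StarRing (preAlg φ))
noncomputable instance : Algebra ℂ (Pre φ) := inferInstanceAs (Algebra ℂ (preAlg φ))
noncomputable instance : StarModule ℂ (Pre φ) := inferInstanceAs (StarModule ℂ (preAlg φ))

/-- the `i`-th component -/
def Pre.c (a : Pre φ) (i : ℕ) : 𝒜 i := a.1 i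

variable (hφ : ∀ i, Function.Injective (φ i))

include hφ in
theorem Pre.exists_norm (a : Pre φ) : ∃ r : ℝ, ∀ᶠ i in atTop, ‖a.c φ i‖ = r := by
  obtain ⟨i₀, h⟩ := eventually_atTop.1 a.2
  refine ⟨‖a.c φ i₀‖, eventually_atTop.2 ⟨i₀, ?_⟩⟩
  intro i hi
  induction i, hi using Nat.le_induction with
  | base => rfl
  | succ k hk ih =>
    have h1 : a.c φ (k + 1) = φ k (a.c φ k) := h k hk
    rw [h1, NonUnitalStarAlgHom.norm_map (φ k) (hφ k), ih]

/-- the seminorm -/
noncomputable def Pre.nrm (a : Pre φ) : ℝ := (Pre.exists_norm φ hφ a).choose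

theorem Pre.nrm_spec (a : Pre φ) : ∀ᶠ i in atTop, ‖a.c φ i‖ = Pre.nrm φ hφ a :=
  (Pre.exists_norm φ hφ a).choose_spec

/-- the seminorm, bundled -/
noncomputable def Pre.rs : RingSeminorm (Pre φ) where
  toFun := Pre.nrm φ hφ
  map_zero' := by
    obtain ⟨i, h⟩ := (Pre.nrm_spec φ hφ (0 : Pre φ)).exists
    rw [← h]
    exact norm_zero
  add_le' := by
    intro a b
    obtain ⟨i, h1, h2, h3⟩ := ((Pre.nrm_spec φ hφ a).and ((Pre.nrm_spec φ hφ b).and
      (Pre.nrm_spec φ hφ (a + b)))).exists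
    rw [← h1, ← h2, ← h3]
    exact norm_add_le _ _
  neg' := by
    intro a
    obtain ⟨i, h1, h2⟩ := ((Pre.nrm_spec φ hφ a).and (Pre.nrm_spec φ hφ (-a))).exists
    rw [← h1, ← h2]
    exact norm_neg (a.c φ i)
  mul_le' := by
    intro a b
    obtain ⟨i, h1, h2, h3⟩ := ((Pre.nrm_spec φ hφ a).and ((Pre.nrm_spec φ hφ b).and
      (Pre.nrm_spec φ hφ (a * b)))).exists
    rw [← h1, ← h2, ← h3]
    exact norm_mul_le (a.c φ i) (b.c φ i)

/-- the sequence starting with `a` at `i` -/
noncomputable def sq (i : ℕ) (a : 𝒜 i) : (k : ℕ) → 𝒜 k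
  | 0 => if h : i = 0 then h ▸ a else 0
  | (k + 1) => if h : i = k + 1 then h ▸ a else φ k (sq i a k)

theorem sq_self (i : ℕ) (a : 𝒜 i) : sq φ i a i = a := by
  cases i with
  | zero => simp [sq]
  | succ k => simp [sq]

theorem sq_succ (i : ℕ) (a : 𝒜 i) (k : ℕ) (h : i ≤ k) :
    sq φ i a (k + 1) = φ k (sq φ i a k) := by
  have : i ≠ k + 1 := by omega
  simp [sq, this]

/-- the sequence as an element of `Pre` -/
noncomputable def sqp (i : ℕ) (a : 𝒜 i) : Pre φ :=
  ⟨sq φ i a, eventually_atTop.2 ⟨i, fun k hk => sq_succ φ i a k hk⟩⟩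

theorem sq_mul (i : ℕ) (a b : 𝒜 i) (k : ℕ) (h : i ≤ k) :
    sq φ i (a * b) k = sq φ i a k * sq φ i b k := by
  induction k, h using Nat.le_induction with
  | base => simp only [sq_self]
  | succ k hk ih => rw [sq_succ _ _ _ _ hk, sq_succ _ _ _ _ hk, sq_succ _ _ _ _ hk, ih, map_mul]

theorem sq_add (i : ℕ) (a b : 𝒜 i) (k : ℕ) (h : i ≤ k) :
    sq φ i (a + b) k = sq φ i a k + sq φ i b k := by
  induction k, h using Nat.le_induction with
  | base => simp only [sq_self]
  | succ k hk ih => rw [sq_succ _ _ _ _ hk, sq_succ _ _ _ _ hk, sq_succ _ _ _ _ hk, ih, map_add]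

theorem sq_star (i : ℕ) (a : 𝒜 i) (k : ℕ) (h : i ≤ k) :
    sq φ i (star a) k = star (sq φ i a k) := by
  induction k, h using Nat.le_induction with
  | base => simp only [sq_self]
  | succ k hk ih => rw [sq_succ _ _ _ _ hk, sq_succ _ _ _ _ hk, ih, map_star]

theorem sq_algebraMap (i : ℕ) (c : ℂ) (k : ℕ) (h : i ≤ k) :
    sq φ i (algebraMap ℂ (𝒜 i) c) k = algebraMap ℂ (𝒜 k) c := by
  induction k, h using Nat.le_induction with
  | base => simp only [sq_self]
  | succ k hk ih => rw [sq_succ _ _ _ _ hk, ih, AlgHomClass.commutes]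

theorem sq_next (i : ℕ) (a : 𝒜 i) (k : ℕ) (h : i + 1 ≤ k) :
    sq φ (i + 1) (φ i a) k = sq φ i a k := by
  induction k, h using Nat.le_induction with
  | base => rw [sq_self, sq_succ _ _ _ _ le_rfl, sq_self]
  | succ k hk ih => rw [sq_succ _ _ _ _ hk, sq_succ _ _ _ _ (by omega), ih]

include hφ in
theorem exists_limit :
    ∃ (A : Type) (_ : CStarAlgebra A) (ι : ∀ i, 𝒜 i →⋆ₐ[ℂ] A),
      (∀ i a, ι (i + 1) (φ i a) = ι i a) ∧ (∀ i, Function.Injective (ι i)) ∧
      Dense (⋃ i, Set.range (ι i)) := by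
  letI iS : SeminormedRing (Pre φ) := (Pre.rs φ hφ).toSeminormedRing
  have hn : ∀ x : Pre φ, ∀ᶠ i in atTop, ‖x.c φ i‖ = ‖x‖ := fun x => Pre.nrm_spec φ hφ x
  letI iA : NormedAlgebra ℂ (Pre φ) :=
    { (inferInstance : Algebra ℂ (Pre φ)) with
      norm_smul_le := by
        intro c x
        obtain ⟨i, h1, h2⟩ := ((hn x).and (hn (c • x))).exists
        rw [← h1, ← h2]
        exact norm_smul_le c (x.c φ i) }
  have h1 : ∀ x : Pre φ, ‖star x * x‖ = ‖x‖ * ‖x‖ := by
    intro x
    obtain ⟨i, h1, h2⟩ := ((hn x).and (hn (star x * x))).exists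
    rw [← h1, ← h2]
    exact CStarRing.norm_star_mul_self (x := x.c φ i)
  obtain ⟨A, iCA, j, hj, hd⟩ := exists_compl h1
  have hje : ∀ x y : Pre φ, (∀ᶠ k in atTop, x.c φ k = y.c φ k) → j x = j y := by
    intro x y h
    rw [← sub_eq_zero, ← norm_eq_zero, ← map_sub, hj]
    obtain ⟨i, h3, h4⟩ := ((hn (x - y)).and h).exists
    rw [← h3]
    have : (x - y).c φ i = x.c φ i - y.c φ i := rfl
    rw [this, h4, sub_self, norm_zero]
  let ι : ∀ i, 𝒜 i →⋆ₐ[ℂ] A := fun i =>
    { toFun := fun a => j (sqp φ i a)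
      map_one' := by
        rw [← map_one j]
        refine hje _ _ (eventually_atTop.2 ⟨i, fun k hk => ?_⟩)
        have := sq_algebraMap φ i 1 k hk
        rw [map_one, map_one] at this
        exact this
      map_mul' := fun a b => by
        rw [← map_mul j]
        exact hje _ _ (eventually_atTop.2 ⟨i, fun k hk => sq_mul φ i a b k hk⟩)
      map_zero' := by
        rw [← map_zero j]
        refine hje _ _ (eventually_atTop.2 ⟨i, fun k hk => ?_⟩)
        have := sq_algebraMap φ i 0 k hk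
        rw [map_zero, map_zero] at this
        exact this
      map_add' := fun a b => by
        rw [← map_add j]
        exact hje _ _ (eventually_atTop.2 ⟨i, fun k hk => sq_add φ i a b k hk⟩)
      commutes' := fun c => by
        rw [← AlgHomClass.commutes j]
        exact hje _ _ (eventually_atTop.2 ⟨i, fun k hk => sq_algebraMap φ i c k hk⟩)
      map_star' := fun a => by
        rw [← map_star j]
        exact hje _ _ (eventually_atTop.2 ⟨i, fun k hk => sq_star φ i a k hk⟩) }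
  refine ⟨A, iCA, ι, ?_, ?_, ?_⟩
  · intro i a
    exact hje _ _ (eventually_atTop.2 ⟨i + 1, fun k hk => sq_next φ i a k hk⟩)
  · intro i
    refine (injective_iff_map_eq_zero (ι i)).2 ?_
    intro a ha
    have h2 : ‖j (sqp φ i a)‖ = 0 := by
      have : j (sqp φ i a) = 0 := ha
      rw [this, norm_zero]
    rw [hj] at h2
    obtain ⟨k, h3, hk⟩ := ((hn (sqp φ i a)).and (eventually_ge_atTop i)).exists
    rw [h2] at h3
    have h4 : sq φ i a k = 0 := norm_eq_zero.1 h3
    clear h3
    induction k, hk using Nat.le_induction with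
    | base => rwa [sq_self] at h4
    | succ k hk ih =>
      rw [sq_succ _ _ _ _ hk] at h4
      exact ih ((injective_iff_map_eq_zero (φ k)).1 (hφ k) _ h4)
  · refine hd.mono ?_
    rintro _ ⟨x, rfl⟩
    obtain ⟨i, h⟩ := eventually_atTop.1 x.2
    refine Set.mem_iUnion.2 ⟨i, ⟨x.c φ i, ?_⟩⟩
    refine hje _ _ (eventually_atTop.2 ⟨i, fun k hk => ?_⟩)
    induction k, hk using Nat.le_induction with
    | base => exact sq_self φ i _
    | succ k hk ih =>
      have h5 : x.c φ (k + 1) = φ k (x.c φ k) := h k hk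
      have h6 : (sqp φ i (x.c φ i)).c φ (k + 1) = φ k ((sqp φ i (x.c φ i)).c φ k) :=
        sq_succ φ i _ k hk
      rw [h5, h6, ih]

end

end Pool.Agent.MP_d8b6c2_an.C
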