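import Mathlib
import Pool.Agent.Lib.MP_d8b6c2_an.C.Sys0

/-!
# The connecting maps
-/

namespace Pool.Agent.MP_d8b6c2_an.C

open Filter Topology Matrix
open scoped Matrix.Norms.L2Operator ComplexOrder

variable (N D : ℕ → ℕ) (pt : ℕ → XX) (K : Type) [Fintype K] [DecidableEq K]

noncomputable instance EqA.cstar (i : ℕ) : CStarAlgebra (EqA N D K i) :=
  StarSubalgebra.cstarAlgebra (EqA N D K i)

theorem chi_succ_lt (i : ℕ) (p : Ix N (i + 1)) (g : GG) (h : (p.hd : ℕ) < N i) :
    chi N D (i + 1) p g =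
      (∏ s ∈ Finset.range (D i), g [] s) ^ (p.hd : ℕ) * chi N D i p.tl (shG p.hd g) := by
  simp only [chi, h, if_true]

theorem chi_succ_ge (i : ℕ) (p : Ix N (i + 1)) (g : GG) (h : ¬ (p.hd : ℕ) < N i) :
    chi N D (i + 1) p g = 1 := by
  simp only [chi, h, if_false]

/-- block diagonal sum of the values at the points `nxt m x` -/
noncomputable def phiF {K : Type} {i : ℕ}
    (b : XX → Matrix (K × Ix N i) (K × Ix N i) ℂ) (x : XX) :
    Matrix (K × Ix N (i + 1)) (K × Ix N (i + 1)) ℂ :=
  Matrix.of fun p q =>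
    if p.2.hd = q.2.hd then b (nxt N pt i p.2.hd x) (p.1, p.2.tl) (q.1, q.2.tl) else 0

variable {N pt K}

omit [Fintype K] [DecidableEq K] in
theorem phiF_apply {i : ℕ} (b : XX → Matrix (K × Ix N i) (K × Ix N i) ℂ) (x : XX)
    (p q : K × Ix N (i + 1)) :
    phiF N pt b x p q =
      if p.2.hd = q.2.hd then b (nxt N pt i p.2.hd x) (p.1, p.2.tl) (q.1, q.2.tl) else 0 := rfl

omit [DecidableEq K] in
theorem sum_K_succ {i : ℕ} {M : Type*} [AddCommMonoid M] (F : K × Ix N (i + 1) → M) :
    ∑ r, F r = ∑ κ : K, ∑ m : Fin (N i + 1), ∑ r : Ix N i, F (κ, Ix.cons m r) := by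
  rw [Fintype.sum_prod_type]
  exact Finset.sum_congr rfl fun κ _ => Ix.sum_succ _

theorem phiF_mul {i : ℕ} (b c : XX → Matrix (K × Ix N i) (K × Ix N i) ℂ) (x : XX) :
    phiF N pt (fun y => b y * c y) x = phiF N pt b x * phiF N pt c x := by
  ext p q
  have h0 : (phiF N pt b x * phiF N pt c x) p q =
      ∑ κ : K, ∑ m : Fin (N i + 1), ∑ r : Ix N i,
        phiF N pt b x p (κ, Ix.cons m r) * phiF N pt c x (κ, Ix.cons m r) q := by
    rw [Matrix.mul_apply]
    exact sum_K_succ _
  rw [h0, phiF_apply]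
  by_cases h : p.2.hd = q.2.hd
  · rw [if_pos h, Matrix.mul_apply, Fintype.sum_prod_type]
    refine Finset.sum_congr rfl fun κ _ => ?_
    rw [Finset.sum_eq_single q.2.hd]
    · refine Finset.sum_congr rfl fun r _ => ?_
      rw [phiF_apply, phiF_apply, if_pos (by exact h), if_pos (by exact rfl), h]
      rfl
    · intro m _ hm
      refine Finset.sum_eq_zero fun r _ => ?_
      rw [phiF_apply c, if_neg (by exact hm), mul_zero]
    · intro hm
      exact absurd (Finset.mem_univ _) hm
  · rw [if_neg h]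
    symm
    refine Finset.sum_eq_zero fun κ _ => Finset.sum_eq_zero fun m _ =>
      Finset.sum_eq_zero fun r _ => ?_
    by_cases h2 : p.2.hd = m
    · rw [phiF_apply c, if_neg (by exact fun h' => h (h2.trans h')), mul_zero]
    · rw [phiF_apply b, if_neg (by exact h2), zero_mul]

omit [Fintype K] [DecidableEq K] in
theorem phiF_continuous {i : ℕ} (b : XX → Matrix (K × Ix N i) (K × Ix N i) ℂ)
    (hb : Continuous b) : Continuous (phiF N pt b) := by
  refine continuous_matrix fun p q => ?_
  simp only [phiF_apply]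
  by_cases h : p.2.hd = q.2.hd
  · simp only [h, if_true]
    exact (hb.comp (continuous_nxt N pt i q.2.hd)).matrix_elem _ _
  · simp only [h, if_false]
    exact continuous_const

theorem phiF_eqv {i : ℕ} (b : MX N K i) (hb : Eqv N D b) :
    Eqv N D (i := i + 1) (⟨phiF N pt b, phiF_continuous b b.continuous⟩ : MX N K (i + 1)) := by
  intro g x p q
  change phiF N pt b (act g x) p q = _ * phiF N pt b x p q
  rw [phiF_apply, phiF_apply]
  by_cases h : p.2.hd = q.2.hd
  · rw [if_pos h, if_pos h]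
    by_cases h2 : ((p.2.hd : Fin (N i + 1)) : ℕ) < N i
    · have h3 : ((q.2.hd : Fin (N i + 1)) : ℕ) < N i := by rw [← h]; exact h2
      rw [chi_succ_lt N D i p.2 g h2, chi_succ_lt N D i q.2 g h3]
      have h4 : nxt N pt i p.2.hd (act g x) = act (shG p.2.hd g) (nxt N pt i p.2.hd x) := by
        simp only [nxt, h2, if_true]
        rfl
      rw [h4, hb (shG p.2.hd g) (nxt N pt i p.2.hd x) (p.1, p.2.tl) (q.1, q.2.tl), ← h]
      have h5 : ∀ c : Circle, (starRingEnd ℂ) (c : ℂ) * (c : ℂ) = 1 := by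
        intro c
        rw [mul_comm, Complex.mul_conj, Complex.normSq_eq_norm_sq, Circle.norm_coe]
        norm_num
      have h6 := h5 ((∏ s ∈ Finset.range (D i), g [] s) ^ ((p.2.hd : Fin (N i + 1)) : ℕ))
      simp only [Circle.coe_mul, map_mul]
      linear_combination (-(starRingEnd ℂ) (chi N D i p.2.tl (shG p.2.hd g) : ℂ) *
        (chi N D i q.2.tl (shG p.2.hd g) : ℂ) *
        b (nxt N pt i p.2.hd x) (p.1, p.2.tl) (q.1, q.2.tl)) * h6
    · have h3 : ¬ ((q.2.hd : Fin (N i + 1)) : ℕ) < N i := by rw [← h]; exact h2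
      rw [chi_succ_ge N D i p.2 g h2, chi_succ_ge N D i q.2 g h3]
      simp only [nxt, h2, if_false, Circle.coe_one, map_one, one_mul]
  · rw [if_neg h, if_neg h, mul_zero]

variable (N pt K)

/-- the connecting map `φ_i : M_K(A_i) → M_K(A_(i+1))` -/
noncomputable def phi (i : ℕ) : EqA N D K i →⋆ₐ[ℂ] EqA N D K (i + 1) where
  toFun a := ⟨⟨phiF N pt a.1, phiF_continuous a.1 a.1.continuous⟩, phiF_eqv D a.1 a.2⟩
  map_one' := by
    refine Subtype.ext (ContinuousMap.ext fun x => ?_)
    ext p q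
    have h1 : ∀ (y : XX) (p q : K × Ix N i), (1 : MX N K i) y p q = if p = q then 1 else 0 :=
      fun y p q => Matrix.one_apply
    have h2 : (1 : MX N K (i + 1)) x p q = if p = q then 1 else 0 := Matrix.one_apply
    change phiF N pt (1 : MX N K i) x p q = (1 : MX N K (i + 1)) x p q
    rw [phiF_apply, h1, h2]
    by_cases h : p = q
    · subst h
      simp
    · rw [if_neg h]
      by_cases h3 : p.2.hd = q.2.hd
      · rw [if_pos h3, if_neg]
        intro h4
        have h5 := Prod.ext_iff.1 h4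
        exact h (Prod.ext h5.1 ((Ix.ext_iff' _ _).2 ⟨h3, h5.2⟩))
      · rw [if_neg h3]
  map_mul' := fun a b => Subtype.ext (ContinuousMap.ext fun x => phiF_mul a.1 b.1 x)
  map_zero' := by
    refine Subtype.ext (ContinuousMap.ext fun x => ?_)
    ext p q
    change phiF N pt (0 : MX N K i) x p q = 0
    rw [phiF_apply]
    split_ifs <;> rfl
  map_add' := fun a b => by
    refine Subtype.ext (ContinuousMap.ext fun x => ?_)
    ext p q
    change phiF N pt (a.1 + b.1) x p q = phiF N pt a.1 x p q + phiF N pt b.1 x p q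
    rw [phiF_apply, phiF_apply, phiF_apply]
    split_ifs
    · rfl
    · rw [add_zero]
  commutes' := fun c => by
    refine Subtype.ext (ContinuousMap.ext fun x => ?_)
    ext p q
    have h1 : ∀ (y : XX) (p q : K × Ix N i), (algebraMap ℂ (MX N K i) c) y p q =
        if p = q then c else 0 := fun y p q => Matrix.algebraMap_matrix_apply
    have h2 : (algebraMap ℂ (MX N K (i + 1)) c) x p q = if p = q then c else 0 :=
      Matrix.algebraMap_matrix_apply
    change phiF N pt (algebraMap ℂ (MX N K i) c) x p q = (algebraMap ℂ (MX N K (i + 1)) c) x p q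
    rw [phiF_apply, h1, h2]
    by_cases h : p = q
    · subst h
      simp
    · rw [if_neg h]
      by_cases h3 : p.2.hd = q.2.hd
      · rw [if_pos h3, if_neg]
        intro h4
        have h5 := Prod.ext_iff.1 h4
        exact h (Prod.ext h5.1 ((Ix.ext_iff' _ _).2 ⟨h3, h5.2⟩))
      · rw [if_neg h3]
  map_star' := fun a => by
    refine Subtype.ext (ContinuousMap.ext fun x => ?_)
    ext p q
    change phiF N pt (star a.1) x p q = (starRingEnd ℂ) (phiF N pt a.1 x q p)
    rw [phiF_apply, phiF_apply]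
    by_cases h : p.2.hd = q.2.hd
    · rw [if_pos h, if_pos h.symm, h]
      rfl
    · rw [if_neg h, if_neg (fun h' => h h'.symm), map_zero]

theorem phi_apply (i : ℕ) (a : EqA N D K i) (x : XX) (p q : K × Ix N (i + 1)) :
    (phi N D pt K i a).1 x p q =
      if p.2.hd = q.2.hd then a.1 (nxt N pt i p.2.hd x) (p.1, p.2.tl) (q.1, q.2.tl) else 0 := rfl

theorem sh_surjective (m : ℕ) : Function.Surjective (sh m) := by
  intro y
  refine ⟨fun v => match v with
    | [] => y []
    | (_ :: w) => y w, ?_⟩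
  rfl

theorem phi_injective (hN : ∀ i, 0 < N i) (i : ℕ) : Function.Injective (phi N D pt K i) := by
  intro a b h
  refine Subtype.ext (ContinuousMap.ext fun y => ?_)
  ext p q
  obtain ⟨x, rfl⟩ := sh_surjective 0 y
  have h1 := congrArg (fun c : EqA N D K (i + 1) => c.1 x (p.1, Ix.cons 0 p.2) (q.1, Ix.cons 0 q.2)) h
  simp only [phi_apply, Ix.hd_cons, Ix.tl_cons, if_true] at h1
  have h2 : nxt N pt i 0 x = sh 0 x := by
    simp [nxt, hN i]
  rw [h2] at h1
  exact h1

end Pool.Agent.MP_d8b6c2_an.C
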