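import Mathlib
import Pool.Agent.Lib.MP_d8b6c2_an.C.Lim1
import Pool.Agent.Lib.MP_d8b6c2_an.C.Sys1

/-!
# The limit algebra `A` (interface)

`L : LimA N D pt A` says that `A` is the limit of the `A_i = EqA N D Unit i` along the `phi`.
All properties of `A` are proved from `L` only.
-/

namespace Pool.Agent.MP_d8b6c2_an.C

open Filter Topology Matrix
open scoped Matrix.Norms.L2Operator ComplexOrder

/-- `A = lim A_i` -/
structure LimA (N D : ℕ → ℕ) (pt : ℕ → XX) (A : Type) [CStarAlgebra A] where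
  ι : ∀ i, EqA N D Unit i →⋆ₐ[ℂ] A
  ι_phi : ∀ i a, ι (i + 1) (phi N D pt Unit i a) = ι i a
  ι_inj : ∀ i, Function.Injective (ι i)
  dense : Dense (⋃ i, Set.range (ι i))

theorem exists_A (N D : ℕ → ℕ) (pt : ℕ → XX) (hN : ∀ i, 0 < N i) :
    ∃ (A : Type) (_ : CStarAlgebra A), Nonempty (LimA N D pt A) := by
  obtain ⟨A, iA, ι, h1, h2, h3⟩ := exists_limit (𝒜 := fun i => EqA N D Unit i)
    (fun i => phi N D pt Unit i) (fun i => phi_injective N D pt Unit hN i)
  exact ⟨A, iA, ⟨⟨ι, h1, h2, h3⟩⟩⟩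

section

variable (N D : ℕ → ℕ) (pt : ℕ → XX) (K : Type) [Fintype K] [DecidableEq K]

/-- iterated connecting map `M_K(A_i) → M_K(A_(i+n))` -/
noncomputable def phin (i : ℕ) : (n : ℕ) → EqA N D K i →⋆ₐ[ℂ] EqA N D K (i + n)
  | 0 => StarAlgHom.id ℂ _
  | (n + 1) => (phi N D pt K (i + n)).comp (phin i n)

theorem ι_phin {A : Type} [CStarAlgebra A] (L : LimA N D pt A) (i n : ℕ) (a : EqA N D Unit i) :
    L.ι (i + n) (phin N D pt Unit i n a) = L.ι i a := by
  induction n with
  | zero => rfl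
  | succ n ih =>
    have h : phin N D pt Unit i (n + 1) a = phi N D pt Unit (i + n) (phin N D pt Unit i n a) := rfl
    rw [h]
    exact (L.ι_phi (i + n) _).trans ih

/-- evaluation at the point `x` -/
noncomputable def evx (i : ℕ) (x : XX) : EqA N D K i →⋆ₐ[ℂ] Matrix (K × Ix N i) (K × Ix N i) ℂ where
  toFun a := a.1 x
  map_one' := rfl
  map_mul' _ _ := rfl
  map_zero' := rfl
  map_add' _ _ := rfl
  commutes' _ := rfl
  map_star' _ := rfl

/-- normalised trace at the point `x` -/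
noncomputable def trx (i : ℕ) (x : XX) (a : EqA N D Unit i) : ℂ :=
  (nn N i : ℂ)⁻¹ * (a.1 x).trace

/-- mean of `F` over the points seen from `x` at stage `0` -/
noncomputable def mean (F : XX → ℝ) : (i : ℕ) → XX → ℝ
  | 0, x => F x
  | (i + 1), x => ((N i : ℝ) + 1)⁻¹ * ∑ m : Fin (N i + 1), mean F i (nxt N pt i m x)

/-- the function `1 - 3/4 t` of the coordinate of the root -/
noncomputable def hF (x : XX) : ℝ := 1 - 3 / 4 * ((x []).1 : ℝ)

/-- `H_i(x) = tr_x (h)` -/
noncomputable def HH (i : ℕ) (x : XX) : ℝ := mean N pt hF i x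

theorem continuous_hF : Continuous hF := by
  unfold hF
  exact continuous_const.sub (continuous_const.mul
    (continuous_subtype_val.comp (continuous_fst.comp (continuous_apply []))))

/-- the element `h` of `A_0` -/
noncomputable def hEl : EqA N D Unit 0 := by
  refine ⟨⟨fun x => algebraMap ℂ (Matrix (Unit × Ix N 0) (Unit × Ix N 0) ℂ) (hF x : ℂ), ?_⟩, ?_⟩
  · exact (continuous_algebraMap ℂ _).comp (Complex.continuous_ofReal.comp continuous_hF)
  · intro g x p q
    change algebraMap ℂ (Matrix (Unit × Ix N 0) (Unit × Ix N 0) ℂ) (hF (act g x) : ℂ) p q = _ *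
      algebraMap ℂ (Matrix (Unit × Ix N 0) (Unit × Ix N 0) ℂ) (hF x : ℂ) p q
    have h : hF (act g x) = hF x := rfl
    rw [h]
    simp [chi]

/-- the image of `h` at stage `i` -/
noncomputable def hAt : (i : ℕ) → EqA N D Unit i
  | 0 => hEl N D
  | (i + 1) => phi N D pt Unit i (hAt i)

theorem ι_hAt {A : Type} [CStarAlgebra A] (L : LimA N D pt A) (i : ℕ) :
    L.ι i (hAt N D pt i) = L.ι 0 (hEl N D) := by
  induction i with
  | zero => rfl
  | succ i ih =>
    have h : hAt N D pt (i + 1) = phi N D pt Unit i (hAt N D pt i) := rfl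
    rw [h, L.ι_phi, ih]

/-- trace of the connecting map -/
theorem trace_phi (i : ℕ) (a : EqA N D K i) (x : XX) :
    ((phi N D pt K i a).1 x).trace = ∑ m : Fin (N i + 1), (a.1 (nxt N pt i m x)).trace := by
  have h1 : ((phi N D pt K i a).1 x).trace =
      ∑ r : K × Ix N (i + 1), (phi N D pt K i a).1 x r r := rfl
  have h2 : ∀ m : Fin (N i + 1), (a.1 (nxt N pt i m x)).trace =
      ∑ κ : K, ∑ r : Ix N i, a.1 (nxt N pt i m x) (κ, r) (κ, r) := by
    intro m
    exact Fintype.sum_prod_type (fun r : K × Ix N i => a.1 (nxt N pt i m x) r r)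
  rw [h1, sum_K_succ, Finset.sum_comm]
  refine Finset.sum_congr rfl fun m _ => ?_
  rw [h2]
  refine Finset.sum_congr rfl fun κ _ => Finset.sum_congr rfl fun r _ => ?_
  rw [phi_apply, if_pos rfl]
  rfl

theorem nn_pos (i : ℕ) : 0 < nn N i := by
  induction i with
  | zero => exact Nat.one_pos
  | succ i ih => exact Nat.mul_pos (Nat.succ_pos _) ih

theorem trx_phi (i : ℕ) (a : EqA N D Unit i) (x : XX) :
    trx N D (i + 1) x (phi N D pt Unit i a) =
      ((N i : ℂ) + 1)⁻¹ * ∑ m : Fin (N i + 1), trx N D i (nxt N pt i m x) a := by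
  simp only [trx]
  rw [trace_phi, ← Finset.mul_sum, ← mul_assoc]
  congr 1
  simp only [nn]
  push_cast
  rw [mul_inv]

theorem trx_hAt (i : ℕ) (x : XX) : trx N D i x (hAt N D pt i) = (HH N pt i x : ℂ) := by
  induction i generalizing x with
  | zero =>
    have h1 : ((hAt N D pt 0).1 x).trace = (hF x : ℂ) := by
      change (algebraMap ℂ (Matrix (Unit × Ix N 0) (Unit × Ix N 0) ℂ) (hF x : ℂ)).trace = _
      rw [Matrix.algebraMap_eq_diagonal, Matrix.trace_diagonal]
      simp [card_Ix, nn]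
    simp [trx, h1, nn, HH, mean]
  | succ i ih =>
    have h : hAt N D pt (i + 1) = phi N D pt Unit i (hAt N D pt i) := rfl
    rw [h, trx_phi]
    simp only [ih, HH, mean]
    push_cast
    rfl

end

end Pool.Agent.MP_d8b6c2_an.C
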