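import Mathlib
import Pool.Agent.Lib.MP_d8b6c2_an.C.Def
import Pool.Agent.Lib.MP_d8b6c2_an.C.Lim2

/-!
# The maps `Theta : M_k(A_i) → B = A ⊗ 𝒦` (definitions)
-/

namespace Pool.Agent.MP_d8b6c2_an.C

open Filter Topology Matrix
open scoped Matrix.Norms.L2Operator ComplexOrder NNReal

variable {N D : ℕ → ℕ} {pt : ℕ → XX} {A : Type} [CStarAlgebra A]
  {B : Type} [NonUnitalCStarAlgebra B]

/-- the block `(κ, κ')` -/
noncomputable def blk {k : ℕ} {i : ℕ} (κ κ' : Fin k) : EqA N D (Fin k) i →ₗ[ℂ] EqA N D Unit i where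
  toFun b := ⟨⟨fun x => Matrix.of fun p q => b.1 x (κ, p.2) (κ', q.2), by
      refine continuous_matrix fun p q => ?_
      exact (b.1.continuous).matrix_elem _ _⟩,
    fun g x p q => b.2 g x (κ, p.2) (κ', q.2)⟩
  map_add' _ _ := rfl
  map_smul' _ _ := rfl

theorem blk_apply {k : ℕ} {i : ℕ} (κ κ' : Fin k) (b : EqA N D (Fin k) i) (x : XX)
    (p q : Unit × Ix N i) : (blk κ κ' b).1 x p q = b.1 x (κ, p.2) (κ', q.2) := rfl

theorem EqA.ext' {K : Type} [Fintype K] [DecidableEq K] {i : ℕ} {a b : EqA N D K i}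
    (h : ∀ x p q, a.1 x p q = b.1 x p q) : a = b := by
  refine Subtype.ext (ContinuousMap.ext fun x => ?_)
  ext p q
  exact h x p q

theorem EqA.sum_apply {K : Type} [Fintype K] [DecidableEq K] {i : ℕ} {S : Type*} (s : Finset S)
    (F : S → EqA N D K i) (x : XX) (p q : K × Ix N i) :
    (∑ j ∈ s, F j).1 x p q = ∑ j ∈ s, (F j).1 x p q := by
  have h : (evx N D K i x) (∑ j ∈ s, F j) = ∑ j ∈ s, (evx N D K i x) (F j) := map_sum _ _ _
  have h2 := congrFun (congrFun h p) q
  rw [Matrix.sum_apply] at h2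
  exact h2

theorem blk_star {k : ℕ} {i : ℕ} (κ κ' : Fin k) (b : EqA N D (Fin k) i) :
    blk κ κ' (star b) = star (blk κ' κ b) := EqA.ext' fun _ _ _ => rfl

theorem blk_mul {k : ℕ} {i : ℕ} (κ κ' : Fin k) (b c : EqA N D (Fin k) i) :
    blk κ κ' (b * c) = ∑ m : Fin k, blk κ m b * blk m κ' c := by
  refine EqA.ext' fun x p q => ?_
  rw [EqA.sum_apply]
  have h1 : (blk κ κ' (b * c)).1 x p q =
      ∑ r : Fin k × Ix N i, b.1 x (κ, p.2) r * c.1 x r (κ', q.2) := Matrix.mul_apply
  rw [h1, Fintype.sum_prod_type]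
  refine Finset.sum_congr rfl fun m _ => ?_
  have h2 : (blk κ m b * blk m κ' c).1 x p q =
      ∑ r : Unit × Ix N i, b.1 x (κ, p.2) (m, r.2) * c.1 x (m, r.2) (κ', q.2) := Matrix.mul_apply
  rw [h2, Fintype.sum_prod_type]
  simp

theorem theta_mul_aux (st : Stabilization A B) {K : ℕ} (X Y : Fin K → Fin K → A) :
    (∑ k : Fin K, ∑ l : Fin K, st.u k l (X k l)) * (∑ k : Fin K, ∑ l : Fin K, st.u k l (Y k l)) =
      ∑ k : Fin K, ∑ l : Fin K, st.u k l (∑ m : Fin K, X k m * Y m l) := by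
  have h1 : ∀ k l : Fin K, st.u k l (X k l) * (∑ k' : Fin K, ∑ l' : Fin K, st.u k' l' (Y k' l')) =
      ∑ l' : Fin K, st.u k l' (X k l * Y l l') := by
    intro k l
    rw [Finset.mul_sum, Finset.sum_eq_single l]
    · rw [Finset.mul_sum]
      refine Finset.sum_congr rfl fun l' _ => ?_
      rw [st.u_mul, if_pos rfl]
    · intro k' _ hk'
      rw [Finset.mul_sum]
      refine Finset.sum_eq_zero fun l' _ => ?_
      rw [st.u_mul, if_neg]
      intro h
      exact hk' (Fin.ext h.symm)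
    · intro h
      exact absurd (Finset.mem_univ _) h
  rw [Finset.sum_mul]
  refine Finset.sum_congr rfl fun k _ => ?_
  rw [Finset.sum_mul, Finset.sum_congr rfl fun l _ => h1 k l, Finset.sum_comm]
  refine Finset.sum_congr rfl fun l _ => ?_
  rw [map_sum]

/-- `Theta b = ∑ u κ κ' (ι_i (b_{κκ'}))`, a *-homomorphism -/
noncomputable def Theta (st : Stabilization A B) (L : LimA N D pt A) (k i : ℕ) :
    EqA N D (Fin k) i →⋆ₙₐ[ℂ] B where
  toFun b := ∑ κ : Fin k, ∑ κ' : Fin k, st.u κ κ' (L.ι i (blk κ κ' b))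
  map_smul' := by
    intro z b
    simp only [map_smul, Finset.smul_sum, MonoidHom.id_apply]
  map_zero' := by simp only [map_zero, Finset.sum_const_zero]
  map_add' := by
    intro b c
    simp only [map_add, Finset.sum_add_distrib]
  map_mul' := by
    intro b c
    rw [theta_mul_aux st (fun κ κ' => L.ι i (blk κ κ' b)) (fun κ κ' => L.ι i (blk κ κ' c))]
    simp only [blk_mul, map_sum, map_mul]
  map_star' := by
    intro b
    simp only [blk_star, map_star, star_sum, st.u_star]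
    exact Finset.sum_comm

theorem Theta_apply (st : Stabilization A B) (L : LimA N D pt A) (k i : ℕ)
    (b : EqA N D (Fin k) i) :
    Theta st L k i b = ∑ κ : Fin k, ∑ κ' : Fin k, st.u κ κ' (L.ι i (blk κ κ' b)) := rfl

/-- function-level padding by zeros -/
noncomputable def padF {k k' : ℕ} {i : ℕ} (M : Matrix (Fin k × Ix N i) (Fin k × Ix N i) ℂ) :
    Matrix (Fin k' × Ix N i) (Fin k' × Ix N i) ℂ :=
  Matrix.of fun p q =>
    if h : (p.1 : ℕ) < k ∧ (q.1 : ℕ) < k then M (⟨p.1, h.1⟩, p.2) (⟨q.1, h.2⟩, q.2) else 0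

theorem padF_apply {k k' : ℕ} {i : ℕ} (M : Matrix (Fin k × Ix N i) (Fin k × Ix N i) ℂ)
    (p q : Fin k' × Ix N i) :
    (padF M : Matrix (Fin k' × Ix N i) (Fin k' × Ix N i) ℂ) p q =
      if h : (p.1 : ℕ) < k ∧ (q.1 : ℕ) < k then M (⟨p.1, h.1⟩, p.2) (⟨q.1, h.2⟩, q.2) else 0 := rfl

theorem padF_mul {k k' : ℕ} (h : k ≤ k') {i : ℕ}
    (M M' : Matrix (Fin k × Ix N i) (Fin k × Ix N i) ℂ) :
    (padF (M * M') : Matrix (Fin k' × Ix N i) (Fin k' × Ix N i) ℂ) = padF M * padF M' := by
  ext p q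
  rw [padF_apply, Matrix.mul_apply]
  by_cases hp : (p.1 : ℕ) < k
  · by_cases hq : (q.1 : ℕ) < k
    · rw [dif_pos ⟨hp, hq⟩, Matrix.mul_apply, Fintype.sum_prod_type, Fintype.sum_prod_type]
      -- sum over `Fin k` and `Fin k'`
      have h1 : ∀ m : Fin k', (k : ℕ) ≤ m → ∑ r : Ix N i,
          (padF M : Matrix (Fin k' × Ix N i) (Fin k' × Ix N i) ℂ) p (m, r) *
            (padF M' : Matrix (Fin k' × Ix N i) (Fin k' × Ix N i) ℂ) (m, r) q = 0 := by
        intro m hm
        refine Finset.sum_eq_zero fun r _ => ?_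
        rw [padF_apply M, dif_neg (by simp only [not_and]; intro _; exact not_lt.2 hm), zero_mul]
      rw [← Finset.sum_subset (Finset.subset_univ
        (Finset.univ.filter fun m : Fin k' => (m : ℕ) < k)) (fun m _ hm => h1 m (by
          simp only [Finset.mem_filter, Finset.mem_univ, true_and, not_lt] at hm
          exact hm))]
      refine Finset.sum_bij (fun (m : Fin k) _ => (⟨m, lt_of_lt_of_le m.2 h⟩ : Fin k')) ?_ ?_ ?_ ?_
      · intro m _
        simp
      · intro m _ m' _ hmm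
        exact Fin.ext (by simpa using congrArg Fin.val hmm)
      · intro m hm
        simp only [Finset.mem_filter, Finset.mem_univ, true_and] at hm
        exact ⟨⟨m, hm⟩, Finset.mem_univ _, rfl⟩
      · intro m _
        refine Finset.sum_congr rfl fun r _ => ?_
        rw [padF_apply M, padF_apply M', dif_pos ⟨hp, m.2⟩, dif_pos ⟨m.2, hq⟩]
    · rw [dif_neg (fun h => hq h.2)]
      symm
      refine Finset.sum_eq_zero fun r _ => ?_
      rw [padF_apply M', dif_neg (fun h => hq h.2), mul_zero]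
  · rw [dif_neg (fun h => hp h.1)]
    symm
    refine Finset.sum_eq_zero fun r _ => ?_
    rw [padF_apply M, dif_neg (fun h => hp h.1), zero_mul]

/-- padding by zeros, `M_k(A_i) → M_k'(A_i)` for `k ≤ k'` -/
noncomputable def pad {k k' : ℕ} (h : k ≤ k') (i : ℕ) :
    EqA N D (Fin k) i →⋆ₙₐ[ℂ] EqA N D (Fin k') i where
  toFun b := ⟨⟨fun x => padF (b.1 x), by
    refine continuous_matrix fun p q => ?_
    simp only [padF_apply]
    split_ifs with h1
    · exact b.1.continuous.matrix_elem _ _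
    · exact continuous_const⟩, by
    intro g x p q
    change padF (b.1 (act g x)) p q = _ * padF (b.1 x) p q
    rw [padF_apply, padF_apply]
    split_ifs with h1
    · exact b.2 g x _ _
    · rw [mul_zero]⟩
  map_smul' := by
    intro z b
    refine EqA.ext' fun x p q => ?_
    change padF (z • b.1 x) p q = z • padF (b.1 x) p q
    rw [padF_apply, padF_apply]
    split_ifs
    · rfl
    · rw [smul_zero]
  map_zero' := by
    refine EqA.ext' fun x p q => ?_
    change padF (0 : Matrix (Fin k × Ix N i) (Fin k × Ix N i) ℂ) p q = 0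
    rw [padF_apply]
    split_ifs <;> rfl
  map_add' := by
    intro b c
    refine EqA.ext' fun x p q => ?_
    change padF (b.1 x + c.1 x) p q = padF (b.1 x) p q + padF (c.1 x) p q
    rw [padF_apply, padF_apply, padF_apply]
    split_ifs
    · rfl
    · rw [add_zero]
  map_mul' := by
    intro b c
    refine Subtype.ext (ContinuousMap.ext fun x => ?_)
    exact padF_mul h (b.1 x) (c.1 x)
  map_star' := by
    intro b
    refine EqA.ext' fun x p q => ?_
    change padF (star (b.1 x)) p q = (starRingEnd ℂ) (padF (b.1 x) q p)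
    rw [padF_apply, padF_apply]
    by_cases hp : (p.1 : ℕ) < k
    · by_cases hq : (q.1 : ℕ) < k
      · rw [dif_pos ⟨hp, hq⟩, dif_pos ⟨hq, hp⟩]
        rfl
      · rw [dif_neg (fun h => hq h.2), dif_neg (fun h => hq h.1), map_zero]
    · rw [dif_neg (fun h => hp h.1), dif_neg (fun h => hp h.2), map_zero]

theorem pad_apply {k k' : ℕ} (h : k ≤ k') (i : ℕ) (b : EqA N D (Fin k) i) (x : XX) :
    (pad h i b).1 x = padF (b.1 x) := rfl

end Pool.Agent.MP_d8b6c2_an.C
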