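import Mathlib
import Pool.Agent.Lib.MP_d8b6c2_an.C.Theta0
import Pool.Agent.Lib.MP_d8b6c2_an.C.SeDef

/-!
# The main statements of the C*-half
-/

namespace Pool.Agent.MP_d8b6c2_an.C

open Filter Topology Matrix
open scoped Matrix.Norms.L2Operator ComplexOrder NNReal ENNReal

/-- both rank estimates for `b ∈ M_k(A_i)` at the level `e` -/
structure GoodAt (N D : ℕ → ℕ) (pt : ℕ → XX) {k i : ℕ} (b : EqA N D (Fin k) i) (e η : ℝ) :
    Prop where
  pos : ∀ x, (b.1 x).PosSemidef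
  lower : ∀ x, (nn N i : ℝ) * (HH N pt i x - η) ≤ nGe e (b.1 x)
  upper : ∀ x, (nGe (e / 8) (b.1 x) : ℝ) ≤ nn N i * (HH N pt i x + η)

/-- the numbers -/
structure Nums (N D M cap : ℕ → ℕ) : Prop where
  hN : ∀ i, N i = 400 * 2 ^ i
  hD : ∀ i, D i = (N i * M i - 1) * cap i
  hM : ∀ i, ∑ l ∈ Finset.range i, D l < M i
  hcap : ∀ i, cap i = 100 * 2 ^ (i + 1) * nn N (i + 1)

end Pool.Agent.MP_d8b6c2_an.C
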