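import Mathlib
import Pool.Agent.Lib.MP_d8b6c2_an.C.Main
import Pool.Agent.Lib.MP_d8b6c2_an.F.ExNums

/-! # Existence of the numbers -/

namespace Pool.Agent.MP_d8b6c2_an.C

theorem exists_nums : ∃ N D M cap : ℕ → ℕ, Nums N D M cap := exists_nums_aux

end Pool.Agent.MP_d8b6c2_an.C
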