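import Mathlib
import Pool.Agent.Lib.MP_d8b6c2_an.C.Main
import Pool.Agent.Lib.MP_d8b6c2_an.F2.Main
import Pool.Agent.Lib.MP_d8b6c2_an.C.ExNums

/-!
# The contradiction (F)

From `b` at the stage `i` and `b'` at the stage `i + n` a field `CField` with
`J = n`, `m t + 1 = N (i + n - 1 - t)`, `d t = D (i + n - 1 - t)`, index type
`Fin k' × Ix N (i + n)`, `κ = 2 nn (i + n)`, `r0 = nn i - nn i / 10`, `R = ∏ N l` (`i ≤ l < i + n`),
`o = R / 20`, `s = R / 200`, `δ = e2 / 8`, `δ2 = e2 / 2`.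
-/

namespace Pool.Agent.MP_d8b6c2_an.C

open Filter Topology Matrix
open scoped Matrix.Norms.L2Operator ComplexOrder NNReal ENNReal

variable {N D M cap : ℕ → ℕ} {pt : ℕ → XX}

theorem contra (h : Nums N D M cap) {i k : ℕ} (hi : 1 ≤ i) (b : EqA N D (Fin k) i) (e : ℝ)
    (he : 0 < e) (hb : GoodAt N D pt b e (1 / 100)) (n : ℕ) (hn : 1 ≤ n) {k' : ℕ} (hk : k ≤ k')
    (b' : EqA N D (Fin k') (i + n)) (e2 : ℝ) (he2 : 0 < e2) (he2' : e2 ≤ e / 16)
    (hb' : GoodAt N D pt b' e2 (1 / (1000 * nn N i)))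
    (hclose : ∀ x, ‖b'.1 x - (pad hk (i + n) (phin N D pt (Fin k) i n b)).1 x‖ ≤ e / 16) :
    False := by
  exact contra_aux h hi b e he hb n hn hk b' e2 he2 he2' hb' hclose

end Pool.Agent.MP_d8b6c2_an.C
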