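import Mathlib
import Pool.Agent.Lib.MP_d8b6c2_an.Specb

/-!
# Partial traces of roots of a positive matrix and the number of large eigenvalues
-/

namespace Pool.Agent.MP_d8b6c2_an.C

open Finset

variable {n : Type*} [Fintype n] [DecidableEq n]

/-- weight of the `k`-th eigenvector on the coordinates in `S` -/
noncomputable def ewt {B : Matrix n n ℂ} (hB : B.IsHermitian) (S : Finset n) (k : n) : ℝ :=
  ∑ j ∈ S, ‖(hB.eigenvectorUnitary : Matrix n n ℂ) j k‖ ^ 2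

theorem ewt_nonneg {B : Matrix n n ℂ} (hB : B.IsHermitian) (S : Finset n) (k : n) :
    0 ≤ ewt hB S k := Finset.sum_nonneg fun _ _ => by positivity

theorem ewt_univ {B : Matrix n n ℂ} (hB : B.IsHermitian) (k : n) : ewt hB univ k = 1 := by
  have h := Unitary.star_mul_self_of_mem hB.eigenvectorUnitary.2
  have h2 := congrFun (congrFun h k) k
  rw [Matrix.one_apply_eq, Matrix.mul_apply] at h2
  have h3 : (∑ j, ((‖(hB.eigenvectorUnitary : Matrix n n ℂ) j k‖ ^ 2 : ℝ) : ℂ)) = 1 := by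
    rw [← h2]
    refine Finset.sum_congr rfl fun j _ => ?_
    rw [Matrix.star_apply, Complex.star_def, ← Complex.normSq_eq_conj_mul_self,
      Complex.normSq_eq_norm_sq]
  unfold ewt
  exact_mod_cast h3

theorem ewt_row {B : Matrix n n ℂ} (hB : B.IsHermitian) (j : n) :
    ∑ k, ‖(hB.eigenvectorUnitary : Matrix n n ℂ) j k‖ ^ 2 = 1 := by
  have h := Unitary.mul_star_self_of_mem hB.eigenvectorUnitary.2
  have h2 := congrFun (congrFun h j) j
  rw [Matrix.one_apply_eq, Matrix.mul_apply] at h2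
  have h3 : (∑ k, ((‖(hB.eigenvectorUnitary : Matrix n n ℂ) j k‖ ^ 2 : ℝ) : ℂ)) = 1 := by
    rw [← h2]
    refine Finset.sum_congr rfl fun k _ => ?_
    rw [Matrix.star_apply, Complex.star_def, Complex.mul_conj, Complex.normSq_eq_norm_sq]
  exact_mod_cast h3

theorem ewt_add_compl {B : Matrix n n ℂ} (hB : B.IsHermitian) (S : Finset n) (k : n) :
    ewt hB S k + ewt hB Sᶜ k = 1 := by
  rw [← ewt_univ hB k]
  exact Finset.sum_add_sum_compl S _

theorem ewt_le_one {B : Matrix n n ℂ} (hB : B.IsHermitian) (S : Finset n) (k : n) :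
    ewt hB S k ≤ 1 := by
  have h1 := ewt_add_compl hB S k
  have h2 := ewt_nonneg hB Sᶜ k
  linarith

theorem sum_ewt {B : Matrix n n ℂ} (hB : B.IsHermitian) (S : Finset n) :
    ∑ k, ewt hB S k = S.card := by
  unfold ewt
  rw [Finset.sum_comm, Finset.sum_congr rfl fun j _ => ewt_row hB j]
  simp

/-- diagonal entries of the functional calculus -/
theorem cfc_diag {B : Matrix n n ℂ} (hB : B.IsHermitian) (f : ℝ → ℝ) (j : n) :
    (cfc f B) j j =
      ((∑ k, f (hB.eigenvalues k) * ‖(hB.eigenvectorUnitary : Matrix n n ℂ) j k‖ ^ 2 : ℝ) : ℂ) := by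
  rw [hB.cfc_eq, Matrix.IsHermitian.cfc, Unitary.conjStarAlgAut_apply, Matrix.mul_apply]
  push_cast
  refine Finset.sum_congr rfl fun k _ => ?_
  rw [Matrix.mul_diagonal, Matrix.star_apply, Complex.star_def, Function.comp_apply,
    Function.comp_apply, mul_right_comm, Complex.mul_conj, Complex.normSq_eq_norm_sq]
  push_cast
  rw [mul_comm]
  rfl

theorem re_cfc_diag {B : Matrix n n ℂ} (hB : B.IsHermitian) (f : ℝ → ℝ) (S : Finset n) :
    ∑ j ∈ S, ((cfc f B) j j).re = ∑ k, f (hB.eigenvalues k) * ewt hB S k := by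
  unfold ewt
  simp_rw [Finset.mul_sum]
  rw [Finset.sum_comm]
  refine Finset.sum_congr rfl fun j _ => ?_
  rw [cfc_diag hB f j, Complex.ofReal_re]

theorem im_cfc_diag {B : Matrix n n ℂ} (hB : B.IsHermitian) (f : ℝ → ℝ) (j : n) :
    ((cfc f B) j j).im = 0 := by
  rw [cfc_diag hB f j, Complex.ofReal_im]

/-- (F1) -/
theorem root_le {B : Matrix n n ℂ} (hB : B.IsHermitian) (hB0 : ∀ k, 0 ≤ hB.eigenvalues k)
    {M e r : ℝ} (he : 0 ≤ e) (hr : 0 ≤ r)
    (hM : ∀ k, hB.eigenvalues k ≤ M) (hM0 : 0 ≤ M) (S : Finset n) :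
    ∑ j ∈ S, ((cfc (fun y : ℝ => y ^ r) B) j j).re ≤ M ^ r * nGe e B + S.card * e ^ r := by
  rw [re_cfc_diag hB, specb_nGe e hB, ← sum_ewt hB S]
  have h1 : ∀ k, (hB.eigenvalues k) ^ r * ewt hB S k ≤
      M ^ r * (if e ≤ hB.eigenvalues k then 1 else 0) + ewt hB S k * e ^ r := by
    intro k
    have h0 := hB0 k
    have hw := ewt_nonneg hB S k
    have hw1 := ewt_le_one hB S k
    have hMr : 0 ≤ M ^ r := Real.rpow_nonneg hM0 r
    have her : 0 ≤ e ^ r := Real.rpow_nonneg he r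
    split_ifs with h
    · have h2 : (hB.eigenvalues k) ^ r ≤ M ^ r := Real.rpow_le_rpow h0 (hM k) hr
      have h3 : (hB.eigenvalues k) ^ r * ewt hB S k ≤ M ^ r * 1 :=
        mul_le_mul h2 hw1 hw hMr
      have h4 : 0 ≤ ewt hB S k * e ^ r := mul_nonneg hw her
      linarith
    · have h2 : (hB.eigenvalues k) ^ r ≤ e ^ r := Real.rpow_le_rpow h0 (not_le.1 h).le hr
      have h3 : (hB.eigenvalues k) ^ r * ewt hB S k ≤ e ^ r * ewt hB S k :=
        mul_le_mul_of_nonneg_right h2 hw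
      linarith
  refine (Finset.sum_le_sum fun k _ => h1 k).trans (le_of_eq ?_)
  rw [Finset.sum_add_distrib, ← Finset.mul_sum, ← Finset.sum_mul, Finset.sum_boole]

/-- the part of an eigenvector outside `S` is small -/
theorem ewt_compl_le {B : Matrix n n ℂ} (hB : B.IsHermitian) {e κ : ℝ} (he : 0 < e)
    (S : Finset n)
    (hS : ∀ v : n → ℂ, ∑ j ∈ Sᶜ, ‖(B.mulVec v) j‖ ^ 2 ≤ (κ * e) ^ 2 * ∑ j, ‖v j‖ ^ 2)
    (k : n) (hk : e ≤ hB.eigenvalues k) : ewt hB Sᶜ k ≤ κ ^ 2 := by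
  have h1 := hS (fun j => (hB.eigenvectorUnitary : Matrix n n ℂ) j k)
  have h2 : B.mulVec (fun j => (hB.eigenvectorUnitary : Matrix n n ℂ) j k) =
      fun j => (hB.eigenvalues k : ℂ) * (hB.eigenvectorUnitary : Matrix n n ℂ) j k := by
    have h3 := hB.mulVec_eigenvectorBasis k
    have h4 : (fun j => (hB.eigenvectorUnitary : Matrix n n ℂ) j k) =
        ⇑(hB.eigenvectorBasis k) := by
      funext j
      rw [Matrix.IsHermitian.eigenvectorUnitary_apply]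
    rw [h4, h3]
    funext j
    rw [← h4]
    simp
  rw [h2] at h1
  have h5 : ∑ j ∈ Sᶜ, ‖(hB.eigenvalues k : ℂ) * (hB.eigenvectorUnitary : Matrix n n ℂ) j k‖ ^ 2 =
      (hB.eigenvalues k) ^ 2 * ewt hB Sᶜ k := by
    unfold ewt
    rw [Finset.mul_sum]
    refine Finset.sum_congr rfl fun j _ => ?_
    rw [norm_mul, mul_pow, Complex.norm_real, Real.norm_eq_abs, sq_abs]
  have h6 : ∑ j, ‖(hB.eigenvectorUnitary : Matrix n n ℂ) j k‖ ^ 2 = 1 := ewt_univ hB k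
  rw [h5, h6, mul_one] at h1
  have h7 : e ^ 2 * ewt hB Sᶜ k ≤ (hB.eigenvalues k) ^ 2 * ewt hB Sᶜ k :=
    mul_le_mul_of_nonneg_right (pow_le_pow_left₀ he.le hk 2) (ewt_nonneg hB _ k)
  have h8 : e ^ 2 * ewt hB Sᶜ k ≤ e ^ 2 * κ ^ 2 := by
    calc e ^ 2 * ewt hB Sᶜ k ≤ (κ * e) ^ 2 := h7.trans h1
      _ = e ^ 2 * κ ^ 2 := by ring
  exact le_of_mul_le_mul_left h8 (by positivity)

/-- (F2) -/
theorem le_root {B : Matrix n n ℂ} (hB : B.IsHermitian) (hB0 : ∀ k, 0 ≤ hB.eigenvalues k)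
    {e r κ : ℝ} (he : 0 < e) (hr : 0 ≤ r)
    (S : Finset n)
    (hS : ∀ v : n → ℂ, ∑ j ∈ Sᶜ, ‖(B.mulVec v) j‖ ^ 2 ≤ (κ * e) ^ 2 * ∑ j, ‖v j‖ ^ 2) :
    e ^ r * (1 - κ ^ 2) * nGe e B ≤ ∑ j ∈ S, ((cfc (fun y : ℝ => y ^ r) B) j j).re := by
  rw [re_cfc_diag hB, specb_nGe e hB]
  have h1 : ∀ k, e ^ r * (1 - κ ^ 2) * (if e ≤ hB.eigenvalues k then 1 else 0) ≤
      (hB.eigenvalues k) ^ r * ewt hB S k := by
    intro k
    have h0 := hB0 k
    have hw := ewt_nonneg hB S k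
    split_ifs with h
    · have h2 : e ^ r ≤ (hB.eigenvalues k) ^ r := Real.rpow_le_rpow he.le h hr
      have h3 := ewt_compl_le hB he S hS k h
      have h4 := ewt_add_compl hB S k
      have h5 : e ^ r * (1 - κ ^ 2) ≤ e ^ r * ewt hB S k :=
        mul_le_mul_of_nonneg_left (by linarith) (Real.rpow_nonneg he.le r)
      have h6 : e ^ r * ewt hB S k ≤ (hB.eigenvalues k) ^ r * ewt hB S k :=
        mul_le_mul_of_nonneg_right h2 hw
      linarith
    · rw [mul_zero]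
      exact mul_nonneg (Real.rpow_nonneg h0 r) hw
  refine le_trans (le_of_eq ?_) (Finset.sum_le_sum fun k _ => h1 k)
  rw [← Finset.mul_sum, Finset.sum_boole]

open scoped Matrix.Norms.L2Operator in
/-- the hypothesis of (F2) from an operator norm bound -/
theorem compl_mulVec_le (B : Matrix n n ℂ) (S : Finset n) {c : ℝ}
    (h : ‖Matrix.diagonal (fun j => if j ∈ S then (0 : ℂ) else 1) * B‖ ≤ c) (v : n → ℂ) :
    ∑ j ∈ Sᶜ, ‖(B.mulVec v) j‖ ^ 2 ≤ c ^ 2 * ∑ j, ‖v j‖ ^ 2 := by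
  have h1 := Matrix.l2_opNorm_mulVec
    (Matrix.diagonal (fun j => if j ∈ S then (0 : ℂ) else 1) * B) (WithLp.toLp 2 v)
  have h2 : ‖(WithLp.toLp 2 v : EuclideanSpace ℂ n)‖ ^ 2 = ∑ j, ‖v j‖ ^ 2 := by
    rw [EuclideanSpace.norm_sq_eq]
  have h3 : ‖(EuclideanSpace.equiv n ℂ).symm
      ((Matrix.diagonal (fun j => if j ∈ S then (0 : ℂ) else 1) * B).mulVec
        (WithLp.toLp 2 v : EuclideanSpace ℂ n))‖ ^ 2 = ∑ j ∈ Sᶜ, ‖(B.mulVec v) j‖ ^ 2 := by
    rw [EuclideanSpace.norm_sq_eq, ← Finset.sum_add_sum_compl S]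
    have h4 : ∀ j, (Matrix.diagonal (fun j => if j ∈ S then (0 : ℂ) else 1) * B).mulVec v j =
        (if j ∈ S then (0 : ℂ) else 1) * B.mulVec v j := by
      intro j
      rw [← Matrix.mulVec_mulVec, Matrix.mulVec_diagonal]
    have h5 : ∑ j ∈ S, ‖(Matrix.diagonal (fun j => if j ∈ S then (0 : ℂ) else 1) * B).mulVec v j‖
        ^ 2 = 0 := by
      refine Finset.sum_eq_zero fun j hj => ?_
      rw [h4, if_pos hj]
      simp
    have h6 : ∑ j ∈ Sᶜ, ‖(Matrix.diagonal (fun j => if j ∈ S then (0 : ℂ) else 1) * B).mulVec v j‖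
        ^ 2 = ∑ j ∈ Sᶜ, ‖(B.mulVec v) j‖ ^ 2 := by
      refine Finset.sum_congr rfl fun j hj => ?_
      rw [h4, if_neg (by simpa using hj), one_mul]
    have h7 := congrArg₂ (· + ·) h5 h6
    simpa using h7
  rw [← h3, ← h2, ← mul_pow]
  exact pow_le_pow_left₀ (norm_nonneg _)
    (h1.trans (mul_le_mul_of_nonneg_right h (norm_nonneg _))) 2

end Pool.Agent.MP_d8b6c2_an.C
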