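import Mathlib
import Pool.Agent.Lib.MP_d8b6c2_an.C.RankF

/-!
# Partial traces of roots: the form used in Lemma R
-/

namespace Pool.Agent.MP_d8b6c2_an.C

open Finset
open scoped Matrix.Norms.L2Operator ComplexOrder

variable {n : Type*} [Fintype n] [DecidableEq n]

theorem cfc_root {b c : Matrix n n ℂ} (hc : c.PosSemidef) (m : ℕ) (h : c ^ (m + 1) = b) :
    cfc (fun y : ℝ => y ^ (((m : ℝ) + 1)⁻¹)) b = c := by
  have hc1 : IsSelfAdjoint c := hc.1
  have h1 : cfc (fun y : ℝ => y ^ (m + 1)) c = b := by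
    rw [cfc_pow_id c (m + 1) hc1, h]
  rw [← h1, ← cfc_comp (fun y : ℝ => y ^ (((m : ℝ) + 1)⁻¹)) (fun y : ℝ => y ^ (m + 1)) c hc1
    ((Matrix.finite_real_spectrum.image _).continuousOn _)
    (Matrix.finite_real_spectrum.continuousOn _)]
  have h2 : cfc ((fun y : ℝ => y ^ (((m : ℝ) + 1)⁻¹)) ∘ (fun y : ℝ => y ^ (m + 1))) c =
      cfc (id : ℝ → ℝ) c := by
    refine cfc_congr fun y hy => ?_
    have hy0 : 0 ≤ y := by
      rw [hc.1.spectrum_real_eq_range_eigenvalues] at hy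
      obtain ⟨k, rfl⟩ := hy
      exact hc.eigenvalues_nonneg k
    have h3 : ((m : ℝ) + 1)⁻¹ = ((m + 1 : ℕ) : ℝ)⁻¹ := by push_cast; rfl
    simp only [Function.comp_apply, id]
    rw [h3]
    exact Real.pow_rpow_inv_natCast hy0 (Nat.succ_ne_zero m)
  rw [h2, cfc_id ℝ c hc1]

theorem eigenvalues_le_norm {b : Matrix n n ℂ} (hb : b.IsHermitian) (k : n) :
    hb.eigenvalues k ≤ ‖b‖ := by
  have h1 : hb.eigenvalues k ∈ spectrum ℝ b := hb.eigenvalues_mem_spectrum_real k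
  have : Nonempty n := ⟨k⟩
  have : NormOneClass (Matrix n n ℂ) := inferInstance
  have h2 := spectrum.norm_le_norm_of_mem h1
  exact (le_abs_self _).trans h2

theorem trace_corner (c : Matrix n n ℂ) (S : Finset n) :
    (Matrix.diagonal (fun j => if j ∈ S then (1 : ℂ) else 0) * c *
      Matrix.diagonal (fun j => if j ∈ S then (1 : ℂ) else 0)).trace = ∑ j ∈ S, c j j := by
  rw [Matrix.trace, ← Finset.sum_add_sum_compl S]
  have h1 : ∀ j, (Matrix.diagonal (fun j => if j ∈ S then (1 : ℂ) else 0) * c *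
      Matrix.diagonal (fun j => if j ∈ S then (1 : ℂ) else 0)).diag j =
      (if j ∈ S then (1 : ℂ) else 0) * c j j * (if j ∈ S then (1 : ℂ) else 0) := by
    intro j
    rw [Matrix.diag_apply, Matrix.mul_diagonal, Matrix.diagonal_mul]
  have h2 : ∑ j ∈ Sᶜ, (Matrix.diagonal (fun j => if j ∈ S then (1 : ℂ) else 0) * c *
      Matrix.diagonal (fun j => if j ∈ S then (1 : ℂ) else 0)).diag j = 0 := by
    refine Finset.sum_eq_zero fun j hj => ?_
    rw [h1, if_neg (by simpa using hj)]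
    simp
  rw [h2, add_zero]
  refine Finset.sum_congr rfl fun j hj => ?_
  rw [h1, if_pos hj]
  simp

/-- (F1), sum form -/
theorem F1_sum {b c : Matrix n n ℂ} (hb : b.PosSemidef) (hc : c.PosSemidef) (m : ℕ)
    (h : c ^ (m + 1) = b) {e : ℝ} (he : 0 ≤ e) (S : Finset n) :
    (∑ j ∈ S, c j j).re ≤
      (1 + ‖b‖) ^ (((m : ℝ) + 1)⁻¹) * nGe e b + S.card * e ^ (((m : ℝ) + 1)⁻¹) := by
  have h1 := root_le hb.1 hb.eigenvalues_nonneg (M := 1 + ‖b‖) (e := e)
    (r := ((m : ℝ) + 1)⁻¹) he (by positivity)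
    (fun k => (eigenvalues_le_norm hb.1 k).trans (by linarith)) (by positivity) S
  rw [cfc_root hc m h] at h1
  rw [Complex.re_sum]
  exact h1

/-- (F2), sum form -/
theorem F2_sum {b c : Matrix n n ℂ} (hb : b.PosSemidef) (hc : c.PosSemidef) (m : ℕ)
    (h : c ^ (m + 1) = b) {e κ : ℝ} (he : 0 < e) (S : Finset n)
    (hS : ‖Matrix.diagonal (fun j => if j ∈ S then (0 : ℂ) else 1) * b‖ ≤ κ * e) :
    e ^ (((m : ℝ) + 1)⁻¹) * (1 - κ ^ 2) * nGe e b ≤ (∑ j ∈ S, c j j).re := by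
  have h1 := le_root hb.1 hb.eigenvalues_nonneg (e := e) (r := ((m : ℝ) + 1)⁻¹) (κ := κ) he
    (by positivity) S (fun v => compl_mulVec_le b S hS v)
  rw [cfc_root hc m h] at h1
  rw [Complex.re_sum]
  exact h1

/-- (F1) with the corner projection -/
theorem F1 {b c : Matrix n n ℂ} (hb : b.PosSemidef) (hc : c.PosSemidef) (m : ℕ)
    (h : c ^ (m + 1) = b) {e : ℝ} (he : 0 ≤ e) (S : Finset n) :
    (Matrix.diagonal (fun j => if j ∈ S then (1 : ℂ) else 0) * c *
      Matrix.diagonal (fun j => if j ∈ S then (1 : ℂ) else 0)).trace.re ≤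
      (1 + ‖b‖) ^ (((m : ℝ) + 1)⁻¹) * nGe e b + S.card * e ^ (((m : ℝ) + 1)⁻¹) := by
  rw [trace_corner]
  exact F1_sum hb hc m h he S

/-- (F2) with the corner projection -/
theorem F2 {b c : Matrix n n ℂ} (hb : b.PosSemidef) (hc : c.PosSemidef) (m : ℕ)
    (h : c ^ (m + 1) = b) {e κ : ℝ} (he : 0 < e) (S : Finset n)
    (hS : ‖(1 - Matrix.diagonal (fun j => if j ∈ S then (1 : ℂ) else 0)) * b‖ ≤ κ * e) :
    e ^ (((m : ℝ) + 1)⁻¹) * (1 - κ ^ 2) * nGe e b ≤
      (Matrix.diagonal (fun j => if j ∈ S then (1 : ℂ) else 0) * c *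
        Matrix.diagonal (fun j => if j ∈ S then (1 : ℂ) else 0)).trace.re := by
  rw [trace_corner]
  refine F2_sum hb hc m h he S ?_
  have h1 : (1 - Matrix.diagonal (fun j => if j ∈ S then (1 : ℂ) else 0) : Matrix n n ℂ) =
      Matrix.diagonal (fun j => if j ∈ S then (0 : ℂ) else 1) := by
    rw [← Matrix.diagonal_one, Matrix.diagonal_sub]
    congr 1
    funext j
    split_ifs <;> simp
  rwa [h1] at hS

/-- the corner of the indices whose first coordinate is `< k0` -/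
theorem F1_corner {k : ℕ} {J : Type*} [Fintype J] [DecidableEq J]
    {b c : Matrix (Fin k × J) (Fin k × J) ℂ} (hb : b.PosSemidef) (hc : c.PosSemidef) (m : ℕ)
    (h : c ^ (m + 1) = b) {e : ℝ} (he : 0 ≤ e) (k0 : ℕ) :
    (∑ κ : Fin k, ∑ r : J, if (κ : ℕ) < k0 then c (κ, r) (κ, r) else 0).re ≤
      (1 + ‖b‖) ^ (((m : ℝ) + 1)⁻¹) * nGe e b +
        (k0 * Fintype.card J) * e ^ (((m : ℝ) + 1)⁻¹) := by
  have h1 := F1_sum hb hc m h he
    (univ.filter fun j : Fin k × J => ((j.1 : Fin k) : ℕ) < k0)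
  have h2 : (∑ κ : Fin k, ∑ r : J, if (κ : ℕ) < k0 then c (κ, r) (κ, r) else 0) =
      ∑ j ∈ univ.filter (fun j : Fin k × J => ((j.1 : Fin k) : ℕ) < k0), c j j := by
    rw [Finset.sum_filter, Fintype.sum_prod_type]
  rw [h2]
  refine h1.trans (add_le_add le_rfl (mul_le_mul_of_nonneg_right ?_ (Real.rpow_nonneg he _)))
  have h3 : (univ.filter fun j : Fin k × J => ((j.1 : Fin k) : ℕ) < k0) =
      (univ.filter fun κ : Fin k => (κ : ℕ) < k0) ×ˢ (univ : Finset J) := by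
    ext j
    simp
  have h4 : (univ.filter fun κ : Fin k => (κ : ℕ) < k0).card ≤ k0 := by
    have h5 : ((univ.filter fun κ : Fin k => (κ : ℕ) < k0).image fun κ : Fin k => (κ : ℕ)) ⊆
        Finset.range k0 := by
      intro x hx
      simp only [Finset.mem_image, Finset.mem_filter, Finset.mem_univ, true_and] at hx
      obtain ⟨κ, h6, rfl⟩ := hx
      exact Finset.mem_range.2 h6
    have h7 := Finset.card_le_card h5
    rwa [Finset.card_image_of_injective _ Fin.val_injective, Finset.card_range] at h7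
  rw [h3, Finset.card_product, Finset.card_univ]
  push_cast
  exact mul_le_mul_of_nonneg_right (by exact_mod_cast h4) (by positivity)

theorem F2_corner {k : ℕ} {J : Type*} [Fintype J] [DecidableEq J]
    {b c : Matrix (Fin k × J) (Fin k × J) ℂ} (hb : b.PosSemidef) (hc : c.PosSemidef) (m : ℕ)
    (h : c ^ (m + 1) = b) {e κ₀ : ℝ} (he : 0 < e) (k0 : ℕ)
    (hS : ‖Matrix.diagonal (fun j : Fin k × J => if ((j.1 : Fin k) : ℕ) < k0 then (0 : ℂ) else 1)
      * b‖ ≤ κ₀ * e) :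
    e ^ (((m : ℝ) + 1)⁻¹) * (1 - κ₀ ^ 2) * nGe e b ≤
      (∑ κ : Fin k, ∑ r : J, if (κ : ℕ) < k0 then c (κ, r) (κ, r) else 0).re := by
  have h1 := F2_sum hb hc m h he (κ := κ₀)
    (univ.filter fun j : Fin k × J => ((j.1 : Fin k) : ℕ) < k0) (by simpa using hS)
  have h2 : (∑ κ : Fin k, ∑ r : J, if (κ : ℕ) < k0 then c (κ, r) (κ, r) else 0) =
      ∑ j ∈ univ.filter (fun j : Fin k × J => ((j.1 : Fin k) : ℕ) < k0), c j j := by
    rw [Finset.sum_filter, Fintype.sum_prod_type]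
  rw [h2]
  exact h1

end Pool.Agent.MP_d8b6c2_an.C
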