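import Mathlib

/-!
# One-sided inverses in matrix algebras over an inductive limit of C*-algebras
-/

namespace Pool.Agent.MP_d8b6c2_an.C

section

open Matrix

attribute [local instance] Matrix.linftyOpNormedRing

/-- a map that preserves norms entrywise preserves the `linftyOp` norm -/
theorem linfty_map {n : ℕ} {R S : Type*} [NormedRing R] [NormedRing S] (f : R → S)
    (hf : ∀ a, ‖f a‖ = ‖a‖) (M : Matrix (Fin n) (Fin n) R) : ‖M.map f‖ = ‖M‖ := by
  rw [Matrix.linfty_opNorm_def, Matrix.linfty_opNorm_def]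
  have : ∀ a, ‖f a‖₊ = ‖a‖₊ := fun a => NNReal.eq (hf a)
  simp [this]

theorem linfty_geom {n : ℕ} {R : Type*} [NormedRing R] [CompleteSpace R] :
    HasSummableGeomSeries (Matrix (Fin n) (Fin n) R) := by
  let i1 : UniformSpace (Matrix (Fin n) (Fin n) R) :=
    (Matrix.linftyOpNormedRing (n := Fin n) (α := R)).toPseudoMetricSpace.toUniformSpace
  have h : @CompleteSpace (Matrix (Fin n) (Fin n) R) i1 := by
    have h2 : i1 = (inferInstanceAs (UniformSpace (Fin n → Fin n → R))) := rfl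
    rw [h2]
    exact inferInstanceAs (CompleteSpace (Fin n → Fin n → R))
  exact @instHasSummableGeomSeriesOfCompleteSpace (Matrix (Fin n) (Fin n) R) _ h

theorem linfty_small {n : ℕ} {R : Type*} [NormedRing R] (M : Matrix (Fin n) (Fin n) R) (e : ℝ)
    (he : 0 ≤ e) (h : ∀ i j, ‖M i j‖ ≤ e) : ‖M‖ ≤ n * e := by
  rw [Matrix.linfty_opNorm_def]
  have h1 : ∀ i, (∑ j, ‖M i j‖₊ : NNReal) ≤ n * e.toNNReal := by
    intro i
    calc (∑ j, ‖M i j‖₊ : NNReal) ≤ ∑ j : Fin n, e.toNNReal := by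
          refine Finset.sum_le_sum fun j _ => ?_
          rw [← NNReal.coe_le_coe, Real.coe_toNNReal e he]
          exact h i j
      _ = n * e.toNNReal := by simp
  have h2 : (Finset.univ.sup fun i : Fin n => ∑ j, ‖M i j‖₊) ≤ n * e.toNNReal :=
    Finset.sup_le fun i _ => h1 i
  have h3 := NNReal.coe_le_coe.2 h2
  simpa [Real.coe_toNNReal e he] using h3

variable {A : Type*} [NormedRing A] [CompleteSpace A] {R : ℕ → Type*} [∀ k, NormedRing (R k)]
  [∀ k, CompleteSpace (R k)] (f : ∀ k, R k →+* A)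

omit [CompleteSpace A] [∀ k, CompleteSpace (R k)] in
theorem range_mono (hmono : ∀ k, Set.range (f k) ⊆ Set.range (f (k + 1))) {k l : ℕ} (h : k ≤ l) :
    Set.range (f k) ⊆ Set.range (f l) := by
  induction l, h using Nat.le_induction with
  | base => exact subset_rfl
  | succ l hl ih => exact ih.trans (hmono l)

omit [CompleteSpace A] [∀ k, CompleteSpace (R k)] in
/-- finitely many elements are approximated at one stage -/
theorem approx_finite (hmono : ∀ k, Set.range (f k) ⊆ Set.range (f (k + 1)))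
    (hd : Dense (⋃ k, Set.range (f k))) {J : Type*} [Finite J] (a : J → A) (e : ℝ) (he : 0 < e) :
    ∃ k₀, ∀ k, k₀ ≤ k → ∃ b : J → R k, ∀ j, ‖a j - f k (b j)‖ ≤ e := by
  classical
  have := Fintype.ofFinite J
  have h1 : ∀ j, ∃ k, ∃ b : R k, ‖a j - f k b‖ ≤ e := by
    intro j
    obtain ⟨y, hy, hd1⟩ := Metric.mem_closure_iff.1 (hd (a j)) e he
    obtain ⟨k, b, rfl⟩ := Set.mem_iUnion.1 hy
    refine ⟨k, b, ?_⟩
    rw [← dist_eq_norm]
    exact hd1.le
  choose κ b hb using h1
  refine ⟨Finset.univ.sup κ, fun k hk => ?_⟩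
  have h2 : ∀ j, ∃ c : R k, f k c = f (κ j) (b j) := fun j =>
    range_mono f hmono ((Finset.le_sup (Finset.mem_univ j)).trans hk) ⟨b j, rfl⟩
  choose c hc using h2
  exact ⟨c, fun j => by rw [hc]; exact hb j⟩

/-- matrix algebras over the limit are Dedekind finite if this holds at all finite stages -/
theorem finite_limit (hf : ∀ k a, ‖f k a‖ = ‖a‖)
    (hmono : ∀ k, Set.range (f k) ⊆ Set.range (f (k + 1)))
    (hd : Dense (⋃ k, Set.range (f k))) (n : ℕ)
    (hfin : ∀ k (x y : Matrix (Fin n) (Fin n) (R k)), x * y = 1 → y * x = 1)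
    (x y : Matrix (Fin n) (Fin n) A) (hxy : x * y = 1) : y * x = 1 := by
  have : HasSummableGeomSeries (Matrix (Fin n) (Fin n) A) := linfty_geom
  -- it is enough that `x` is a unit
  suffices hu : IsUnit x by
    obtain ⟨u, rfl⟩ := hu
    have : y = ((u⁻¹ : (Matrix (Fin n) (Fin n) A)ˣ) : Matrix (Fin n) (Fin n) A) := by
      rw [← Units.mul_right_inj u, hxy, Units.mul_inv]
    rw [this, Units.inv_mul]
  set L : ℝ := ‖x‖ + ‖y‖ + ‖(1 : Matrix (Fin n) (Fin n) A)‖ + 1 with hL
  have hx0 := norm_nonneg x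
  have hy0 := norm_nonneg y
  have h10 := norm_nonneg (1 : Matrix (Fin n) (Fin n) A)
  have hLpos : 1 ≤ L := by linarith
  -- the tolerance
  set d : ℝ := 1 / (8 * L ^ 2) with hdd
  have hd0 : 0 < d := by positivity
  have hd1 : 8 * L ^ 2 * d = 1 := by rw [hdd]; field_simp
  obtain ⟨k₀, hk⟩ := approx_finite f hmono hd (J := Bool × Fin n × Fin n)
    (fun q => if q.1 then x q.2.1 q.2.2 else y q.2.1 q.2.2) (d / (n + 1)) (by positivity)
  obtain ⟨b, hb⟩ := hk k₀ le_rfl
  set F : Matrix (Fin n) (Fin n) (R k₀) →+* Matrix (Fin n) (Fin n) A := (f k₀).mapMatrix with hF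
  have hFn : ∀ M, ‖F M‖ = ‖M‖ := fun M => linfty_map (f k₀) (hf k₀) M
  set x' : Matrix (Fin n) (Fin n) (R k₀) := fun i j => b (true, i, j) with hx'
  set y' : Matrix (Fin n) (Fin n) (R k₀) := fun i j => b (false, i, j) with hy'
  have hnn : (n : ℝ) * (d / (n + 1)) ≤ d := by
    rw [← mul_div_assoc, div_le_iff₀ (by positivity)]
    nlinarith
  have hxx : ‖x - F x'‖ ≤ d := by
    refine (linfty_small _ (d / (n + 1)) (by positivity) fun i j => ?_).trans hnn
    exact hb (true, i, j)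
  have hyy : ‖y - F y'‖ ≤ d := by
    refine (linfty_small _ (d / (n + 1)) (by positivity) fun i j => ?_).trans hnn
    exact hb (false, i, j)
  have hdL : d ≤ 1 := by
    have h2 : 1 ≤ 8 * L ^ 2 := by nlinarith
    have h3 : 1 * d ≤ 8 * L ^ 2 * d := mul_le_mul_of_nonneg_right h2 hd0.le
    linarith
  have hFx : ‖F x'‖ ≤ L := by
    have : F x' = x - (x - F x') := by abel
    rw [this]
    refine (norm_sub_le _ _).trans ?_
    linarith
  have hFy : ‖F y'‖ ≤ L := by
    have : F y' = y - (y - F y') := by abel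
    rw [this]
    refine (norm_sub_le _ _).trans ?_
    linarith
  have hw : ‖1 - x' * y'‖ ≤ 1 / 2 := by
    rw [← hFn, map_sub, map_one, map_mul]
    have : 1 - F x' * F y' = (x - F x') * y + F x' * (y - F y') := by
      rw [sub_mul, mul_sub, hxy]; abel
    rw [this]
    calc ‖(x - F x') * y + F x' * (y - F y')‖ ≤ ‖x - F x'‖ * ‖y‖ + ‖F x'‖ * ‖y - F y'‖ :=
          (norm_add_le _ _).trans (add_le_add (norm_mul_le _ _) (norm_mul_le _ _))
      _ ≤ d * L + L * d := by gcongr; linarith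
      _ = 2 * (L * d) := by ring
      _ ≤ 2 * (L * (L * d)) := by
          have : 1 * (L * d) ≤ L * (L * d) := mul_le_mul_of_nonneg_right hLpos (by positivity)
          linarith
      _ = 1 / 4 := by linear_combination (1 / 4 : ℝ) * hd1
      _ ≤ 1 / 2 := by norm_num
  have : HasSummableGeomSeries (Matrix (Fin n) (Fin n) (R k₀)) := linfty_geom
  obtain ⟨u, hu⟩ := isUnit_one_sub_of_norm_lt_one (x := 1 - x' * y') (by linarith)
  rw [sub_sub_cancel] at hu
  set v : Matrix (Fin n) (Fin n) (R k₀) := ((u⁻¹ : (Matrix (Fin n) (Fin n) (R k₀))ˣ) :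
    Matrix (Fin n) (Fin n) (R k₀)) with hv
  have huv : x' * y' * v = 1 := by rw [← hu]; exact Units.mul_inv u
  have h1n : ‖(1 : Matrix (Fin n) (Fin n) (R k₀))‖ = ‖(1 : Matrix (Fin n) (Fin n) A)‖ := by
    rw [← hFn, map_one]
  have hvn : ‖v‖ ≤ 2 * L := by
    have h3 : v = 1 + (1 - x' * y') * v := by rw [sub_mul, one_mul, huv]; abel
    have h4 : ‖v‖ ≤ ‖(1 : Matrix (Fin n) (Fin n) (R k₀))‖ + 1 / 2 * ‖v‖ := by
      conv_lhs => rw [h3]
      refine (norm_add_le _ _).trans (add_le_add le_rfl ((norm_mul_le _ _).trans ?_))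
      exact mul_le_mul_of_nonneg_right hw (norm_nonneg _)
    rw [h1n] at h4
    linarith
  have hright : x' * (y' * v) = 1 := by rw [← mul_assoc]; exact huv
  have hleft : (y' * v) * x' = 1 := hfin k₀ _ _ hright
  -- the unit `F x'`
  let X : (Matrix (Fin n) (Fin n) A)ˣ :=
    ⟨F x', F (y' * v), by rw [← map_mul, hright, map_one], by rw [← map_mul, hleft, map_one]⟩
  have hXi : ‖F (y' * v)‖ ≤ L * (2 * L) := by
    rw [map_mul]
    refine (norm_mul_le _ _).trans ?_
    rw [hFn v]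
    gcongr
  have hz : ‖-(F (y' * v) * (x - F x'))‖ < 1 := by
    rw [norm_neg]
    refine lt_of_le_of_lt (norm_mul_le _ _) ?_
    calc ‖F (y' * v)‖ * ‖x - F x'‖ ≤ (L * (2 * L)) * d := by gcongr
      _ = 1 / 4 := by linear_combination (1 / 4 : ℝ) * hd1
      _ < 1 := by norm_num
  have hfinal := isUnit_one_sub_of_norm_lt_one hz
  have : x = (X : Matrix (Fin n) (Fin n) A) * (1 - -(F (y' * v) * (x - F x'))) := by
    change x = F x' * (1 - -(F (y' * v) * (x - F x')))
    rw [sub_neg_eq_add, mul_add, mul_one, ← mul_assoc, ← map_mul, hright, map_one, one_mul]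
    abel
  rw [this]
  exact X.isUnit.mul hfinal

end

end Pool.Agent.MP_d8b6c2_an.C
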