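import Mathlib
import Pool.Agent.Lib.MP_d8b6c2_an.C.Fin0

/-!
# Stable finiteness of a C*-algebra which is a limit of algebras of matrix-valued functions
-/

namespace Pool.Agent.MP_d8b6c2_an.C

section

open Matrix

/-- iterated matrix rings over the complex numbers are Dedekind finite -/
theorem matmat_finite {n : ℕ} {J : Type*} [Fintype J] [DecidableEq J]
    (x y : Matrix (Fin n) (Fin n) (Matrix J J ℂ)) (h : x * y = 1) : y * x = 1 := by
  have h1 : Matrix.compRingEquiv (Fin n) J ℂ (x * y) = 1 := by rw [h, map_one]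
  rw [map_mul] at h1
  have h2 := mul_eq_one_comm.1 h1
  rw [← map_mul] at h2
  exact (Matrix.compRingEquiv (Fin n) J ℂ).injective (by rw [h2, map_one])

/-- matrices over an algebra with enough representations in matrix rings -/
theorem finite_of_eval {R : Type*} [Ring R] {X : Type*} {J : Type*} [Fintype J]
    [DecidableEq J] (ev : X → R →+* Matrix J J ℂ) (hinj : ∀ a b, (∀ x, ev x a = ev x b) → a = b)
    (n : ℕ) (x y : Matrix (Fin n) (Fin n) R) (h : x * y = 1) : y * x = 1 := by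
  have key : ∀ p, (ev p).mapMatrix (y * x) = 1 := by
    intro p
    have h1 : (ev p).mapMatrix (x * y) = 1 := by rw [h, map_one]
    rw [map_mul] at h1
    rw [map_mul]
    exact matmat_finite _ _ h1
  ext i j
  refine hinj _ _ fun p => ?_
  have h2 := congrFun (congrFun (key p) i) j
  have h3 : (ev p).mapMatrix (y * x) i j = ev p ((y * x) i j) := rfl
  rw [h3] at h2
  rw [h2, Matrix.one_apply, Matrix.one_apply]
  split_ifs with h4
  · rw [map_one]
  · rw [map_zero]

/-- the limit of an increasing sequence of C*-algebras, each with enough representations in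
matrix rings, is stably finite -/
theorem stably_finite_of {A : Type*} [CStarAlgebra A] {𝒜 : ℕ → Type*} [∀ i, CStarAlgebra (𝒜 i)]
    (φ : ∀ i, 𝒜 i →⋆ₐ[ℂ] 𝒜 (i + 1)) (ι : ∀ i, 𝒜 i →⋆ₐ[ℂ] A)
    (hcomp : ∀ i a, ι (i + 1) (φ i a) = ι i a) (hinj : ∀ i, Function.Injective (ι i))
    (hd : Dense (⋃ i, Set.range (ι i)))
    {X : ℕ → Type*} {J : ℕ → Type*} [∀ i, Fintype (J i)] [∀ i, DecidableEq (J i)]
    (ev : ∀ i, X i → 𝒜 i →+* Matrix (J i) (J i) ℂ)
    (hev : ∀ i a b, (∀ x, ev i x a = ev i x b) → a = b)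
    (n : ℕ) (x y : Matrix (Fin n) (Fin n) A) (hxy : x * y = 1) : y * x = 1 := by
  refine finite_limit (R := 𝒜) (fun k => ((ι k : 𝒜 k →⋆ₐ[ℂ] A) : 𝒜 k →+* A)) ?_ ?_ ?_ n ?_ x y hxy
  · intro k a
    exact NonUnitalStarAlgHom.norm_map (ι k) (hinj k) a
  · rintro k _ ⟨a, rfl⟩
    exact ⟨φ k a, hcomp k a⟩
  · exact hd
  · intro k x y h
    exact finite_of_eval (ev k) (hev k) n x y h

end

end Pool.Agent.MP_d8b6c2_an.C
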