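import Mathlib
import Pool.Agent.Lib.MP_d8b6c2_an.C.Theta0
import Pool.Agent.Lib.MP_d8b6c2_an.C.RankF

/-!
# Roots of positive elements: compatibility with `Theta` and with evaluation at a point
-/

namespace Pool.Agent.MP_d8b6c2_an.C

open Filter Topology Matrix
open scoped Matrix.Norms.L2Operator ComplexOrder NNReal CStarAlgebra

/-- the function `y ↦ y^r` on the positive half-line, `0` on the negative one -/
noncomputable def gr (r y : ℝ) : ℝ := (max y 0) ^ r

theorem gr_cont {r : ℝ} (hr : 0 < r) : Continuous (gr r) :=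
  (continuous_id.max continuous_const).rpow_const fun _ => Or.inr hr.le

theorem gr_zero {r : ℝ} (hr : 0 < r) : gr r 0 = 0 := by
  simp [gr, hr.ne']

theorem gr_of_nonneg (r : ℝ) {y : ℝ} (hy : 0 ≤ y) : gr r y = y ^ r := by
  rw [gr, max_eq_left hy]

section B

variable {B : Type} [NonUnitalCStarAlgebra B] [PartialOrder B] [StarOrderedRing B]

theorem nnrpow_eq_gr (a : B) (ha : 0 ≤ a) (r : ℝ≥0) : a ^ r = cfcₙ (gr (r : ℝ)) a := by
  rw [CFC.nnrpow_def, cfcₙ_nnreal_eq_real _ a]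
  refine cfcₙ_congr fun y _ => ?_
  simp [gr, NNReal.nnrpow_def]

omit [PartialOrder B] [StarOrderedRing B] in
theorem tendsto_gr {l : Filter ℕ} {r : ℝ} (hr : 0 < r) (a : B) (ha : IsSelfAdjoint a) (b : ℕ → B)
    (hb : ∀ q, IsSelfAdjoint (b q)) (h : Tendsto b l (𝓝 a)) :
    Tendsto (fun q => cfcₙ (gr r) (b q)) l (𝓝 (cfcₙ (gr r) a)) := by
  have h1 : ∀ᶠ q in l, ‖b q‖ ≤ ‖a‖ + 1 :=
    (h.norm.eventually (ge_mem_nhds (by linarith)))
  have hs : ∀ c : B, IsSelfAdjoint c → ‖c‖ ≤ ‖a‖ + 1 →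
      quasispectrum ℝ c ⊆ Set.Icc (-(‖a‖ + 1)) (‖a‖ + 1) := by
    intro c hc1 hc y hy
    have h2 : ‖y‖ ≤ ‖c‖ := NonUnitalIsometricContinuousFunctionalCalculus.norm_quasispectrum_le
      (p := IsSelfAdjoint) c hy hc1
    rw [Real.norm_eq_abs, abs_le] at h2
    constructor <;> linarith
  refine Filter.Tendsto.cfcₙ (isCompact_Icc (a := -(‖a‖ + 1)) (b := ‖a‖ + 1)) (gr r) h
    (h1.mono fun q hq => hs _ (hb q) hq) (Eventually.of_forall hb) (hs a ha (by linarith)) ha
    (gr_cont hr).continuousOn (gr_zero hr)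

end B

section Th

variable {N D : ℕ → ℕ} {pt : ℕ → XX} {A : Type} [CStarAlgebra A]
  {B : Type} [NonUnitalCStarAlgebra B]

theorem Theta_gr (st : Stabilization A B) (L : LimA N D pt A) (k i : ℕ)
    (b : EqA N D (Fin k) i) (hb : IsSelfAdjoint b) {r : ℝ} (hr : 0 < r) :
    cfcₙ (gr r) (Theta st L k i b) = Theta st L k i (cfc (gr r) b) := by
  rw [← cfcₙ_eq_cfc (f := gr r) (a := b) (gr_cont hr).continuousOn (gr_zero hr)]
  symm
  refine NonUnitalStarAlgHomClass.map_cfcₙ (R := ℝ) (S := ℂ) (p := IsSelfAdjoint) (q := IsSelfAdjoint)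
    (Theta st L k i) (gr r) b (gr_cont hr).continuousOn (gr_zero hr) ?_ hb (hb.map _)
  exact map_continuous _

/-- evaluation of the functional calculus at a point -/
theorem cfc_gr_ev {k i : ℕ} (b : EqA N D (Fin k) i) (hb : IsSelfAdjoint b) {r : ℝ} (hr : 0 < r)
    (x : XX) : (cfc (gr r) b).1 x = cfc (gr r) (b.1 x) := by
  refine StarAlgHomClass.map_cfc (R := ℝ) (S := ℂ) (p := IsSelfAdjoint) (q := IsSelfAdjoint)
    (evx N D (Fin k) i x) (gr r) b (gr_cont hr).continuousOn ?_ hb (hb.map _)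
  exact map_continuous _

/-- the diagonal entries of the `r`-th power of a positive element at a point -/
theorem gr_ev_diag {k i : ℕ} (b : EqA N D (Fin k) i) (hb : IsSelfAdjoint b) {r : ℝ} (hr : 0 < r)
    (x : XX) (hp : (b.1 x).PosSemidef) :
    (cfc (gr r) b).1 x = cfc (fun y : ℝ => y ^ r) (b.1 x) := by
  rw [cfc_gr_ev b hb hr x]
  refine cfc_congr fun y hy => gr_of_nonneg r ?_
  obtain ⟨j, rfl⟩ := (hp.1.spectrum_real_eq_range_eigenvalues ▸ hy : y ∈ Set.range hp.1.eigenvalues)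
  exact hp.eigenvalues_nonneg j

end Th

end Pool.Agent.MP_d8b6c2_an.C
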