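import Mathlib

/-!
# Ultralimits of tracial functionals on the stages of an inductive limit
-/

namespace Pool.Agent.MP_d8b6c2_an.C

open Filter Topology

section approx

variable {A : Type*} [CStarAlgebra A] {𝒜 : ℕ → Type*} [∀ i, CStarAlgebra (𝒜 i)]
  (ι : ∀ i, 𝒜 i →⋆ₐ[ℂ] A)

/-- approximants from the stages `j q` -/
theorem exists_approx (hm : ∀ i k, i ≤ k → Set.range (ι i) ⊆ Set.range (ι k))
    (hd : Dense (⋃ i, Set.range (ι i))) (j : ℕ → ℕ) (hj : Tendsto j atTop atTop) (a : A) :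
    ∃ c : ∀ q, 𝒜 (j q), Tendsto (fun q => ι (j q) (c q)) atTop (𝓝 a) := by
  have h1 : ∀ q, ∃ c : 𝒜 (j q),
      ‖ι (j q) c - a‖ < Metric.infDist a (Set.range (ι (j q))) + 1 / ((q : ℝ) + 1) := by
    intro q
    have hpos : (0 : ℝ) < 1 / ((q : ℝ) + 1) := by positivity
    obtain ⟨y, hy, hy2⟩ := (Metric.infDist_lt_iff (s := Set.range (ι (j q))) (x := a)
      (r := Metric.infDist a (Set.range (ι (j q))) + 1 / ((q : ℝ) + 1))
      ⟨_, ⟨0, rfl⟩⟩).1 (by linarith)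
    obtain ⟨c, rfl⟩ := hy
    refine ⟨c, ?_⟩
    rwa [dist_comm, dist_eq_norm] at hy2
  choose c hc using h1
  refine ⟨c, ?_⟩
  rw [Metric.tendsto_atTop]
  intro ε hε
  obtain ⟨y, hy, hy2⟩ := Metric.mem_closure_iff.1 (hd a) (ε / 2) (by positivity)
  obtain ⟨i, z, rfl⟩ := Set.mem_iUnion.1 hy
  obtain ⟨q0, hq0⟩ := (tendsto_atTop.1 hj i).exists_forall_of_atTop
  obtain ⟨q1, hq1⟩ := exists_nat_gt (2 / ε)
  refine ⟨max q0 q1, fun q hq => ?_⟩
  have h2 : Metric.infDist a (Set.range (ι (j q))) ≤ dist a (ι i z) :=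
    Metric.infDist_le_dist_of_mem (hm i (j q) (hq0 q ((le_max_left _ _).trans hq)) ⟨z, rfl⟩)
  have h3 : (q1 : ℝ) ≤ q := by exact_mod_cast (le_max_right q0 q1).trans hq
  have h4 : 1 / ((q : ℝ) + 1) < ε / 2 := by
    rw [div_lt_div_iff₀ (by positivity) (by norm_num)]
    rw [div_lt_iff₀ hε] at hq1
    nlinarith
  rw [dist_eq_norm]
  have := hc q
  linarith

end approx

section ultra

variable {A : Type*} [NormedAddCommGroup A] [NormedSpace ℂ A]

/-- pointwise ultralimits of functionals of norm at most one -/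
theorem exists_ulim (U : Ultrafilter ℕ) (ψ : ℕ → A →L[ℂ] ℂ) (h : ∀ q, ‖ψ q‖ ≤ 1) :
    ∃ τ : A →L[ℂ] ℂ, ∀ a, Tendsto (fun q => ψ q a) U (𝓝 (τ a)) := by
  have hb : ∀ q a, ‖ψ q a‖ ≤ ‖a‖ := fun q a =>
    ((ψ q).le_opNorm a).trans (by nlinarith [norm_nonneg a, h q])
  have h1 : ∀ a, ∃ z : ℂ, Tendsto (fun q => ψ q a) U (𝓝 z) ∧ ‖z‖ ≤ ‖a‖ := by
    intro a
    have hc : IsCompact (Metric.closedBall (0 : ℂ) ‖a‖) := isCompact_closedBall _ _
    obtain ⟨z, hz, hz2⟩ := hc.ultrafilter_le_nhds' (U.map fun q => ψ q a) (by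
      refine Ultrafilter.mem_map.2 (Filter.univ_mem' fun q => ?_)
      simpa using hb q a)
    exact ⟨z, hz2, by simpa using hz⟩
  choose t ht htn using h1
  have hadd : ∀ a b, t (a + b) = t a + t b := fun a b =>
    tendsto_nhds_unique (ht (a + b)) (by simpa using (ht a).add (ht b))
  have hsmul : ∀ (c : ℂ) a, t (c • a) = c * t a := fun c a =>
    tendsto_nhds_unique (ht (c • a)) (by simpa using (ht a).const_mul c)
  let T : A →ₗ[ℂ] ℂ := { toFun := t, map_add' := hadd, map_smul' := hsmul }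
  refine ⟨T.mkContinuous 1 (fun a => by rw [one_mul]; exact htn a), fun a => ht a⟩

end ultra

section utrace

variable {A : Type*} [CStarAlgebra A] {𝒜 : ℕ → Type*} [∀ i, CStarAlgebra (𝒜 i)]
  (ι : ∀ i, 𝒜 i →⋆ₐ[ℂ] A)

/-- the ultralimit of tracial functionals on stages -/
theorem exists_utrace (hι : ∀ i, Function.Injective (ι i))
    (hm : ∀ i k, i ≤ k → Set.range (ι i) ⊆ Set.range (ι k))
    (hd : Dense (⋃ i, Set.range (ι i))) (U : Ultrafilter ℕ) (hU : (U : Filter ℕ) ≤ atTop)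
    (j : ℕ → ℕ) (hj : Tendsto j atTop atTop) (t : ∀ q, 𝒜 (j q) →ₗ[ℂ] ℂ)
    (ht : ∀ q a, ‖t q a‖ ≤ ‖a‖) (ht1 : ∀ q, t q 1 = 1)
    (htr : ∀ q a b, t q (a * b) = t q (b * a))
    (hpos : ∀ q a, 0 ≤ (t q (star a * a)).re ∧ (t q (star a * a)).im = 0) :
    ∃ τ : A →L[ℂ] ℂ, ‖τ‖ ≤ 1 ∧ τ 1 = 1 ∧ (∀ a b, τ (a * b) = τ (b * a)) ∧
      (∀ a, 0 ≤ (τ (star a * a)).re ∧ (τ (star a * a)).im = 0) ∧
      ∀ (a : A) (c : ∀ q, 𝒜 (j q)), Tendsto (fun q => ι (j q) (c q)) U (𝓝 a) →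
        Tendsto (fun q => t q (c q)) U (𝓝 (τ a)) := by
  have hiso : ∀ i (a : 𝒜 i), ‖ι i a‖ = ‖a‖ := fun i a => NonUnitalStarAlgHom.norm_map (ι i) (hι i) a
  -- Hahn-Banach
  have h1 : ∀ q, ∃ ψ : A →L[ℂ] ℂ, ‖ψ‖ ≤ 1 ∧ ∀ a, ψ (ι (j q) a) = t q a := by
    intro q
    let p : Submodule ℂ A := LinearMap.range ((ι (j q)).toLinearMap)
    let e : 𝒜 (j q) ≃ₗ[ℂ] p := LinearEquiv.ofInjective ((ι (j q)).toLinearMap) (hι (j q))
    have he : ∀ a, ((e a : p) : A) = ι (j q) a := fun a => rfl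
    let f0 : p →ₗ[ℂ] ℂ := (t q).comp e.symm.toLinearMap
    have hf0 : ∀ x : p, ‖f0 x‖ ≤ 1 * ‖x‖ := by
      intro x
      obtain ⟨a, rfl⟩ := e.surjective x
      have : f0 (e a) = t q a := by simp [f0]
      rw [this, one_mul]
      refine (ht q a).trans (le_of_eq ?_)
      rw [← hiso, ← he]
      rfl
    obtain ⟨g, hg, hgn⟩ := exists_extension_norm_eq p (f0.mkContinuous 1 hf0)
    refine ⟨g, ?_, fun a => ?_⟩
    · rw [hgn]
      exact LinearMap.mkContinuous_norm_le _ zero_le_one _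
    · have := hg (e a)
      rw [he] at this
      rw [this]
      simp [f0]
  choose ψ hψn hψ using h1
  obtain ⟨τ, hτ⟩ := exists_ulim U ψ hψn
  have hτn : ‖τ‖ ≤ 1 := by
    refine ContinuousLinearMap.opNorm_le_bound _ zero_le_one fun a => ?_
    rw [one_mul]
    refine le_of_tendsto (hτ a).norm (Eventually.of_forall fun q => ?_)
    exact ((ψ q).le_opNorm a).trans (by nlinarith [norm_nonneg a, hψn q])
  have key : ∀ (a : A) (c : ∀ q, 𝒜 (j q)), Tendsto (fun q => ι (j q) (c q)) U (𝓝 a) →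
        Tendsto (fun q => t q (c q)) U (𝓝 (τ a)) := by
    intro a c hc
    have h2 : Tendsto (fun q => ψ q (ι (j q) (c q)) - ψ q a) U (𝓝 0) := by
      rw [tendsto_iff_norm_sub_tendsto_zero] at hc
      refine squeeze_zero_norm (fun q => ?_) hc
      rw [← map_sub]
      exact ((ψ q).le_opNorm _).trans (by nlinarith [norm_nonneg (ι (j q) (c q) - a), hψn q])
    have h3 := h2.add (hτ a)
    rw [zero_add] at h3
    refine h3.congr fun q => ?_
    rw [sub_add_cancel, hψ]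
  have hap : ∀ a : A, ∃ c : ∀ q, 𝒜 (j q), Tendsto (fun q => ι (j q) (c q)) U (𝓝 a) := by
    intro a
    obtain ⟨c, hc⟩ := exists_approx ι hm hd j hj a
    exact ⟨c, hc.mono_left hU⟩
  refine ⟨τ, hτn, ?_, ?_, ?_, key⟩
  · have h2 := key 1 (fun q => 1) (by simp)
    simp only [ht1] at h2
    exact tendsto_nhds_unique h2 tendsto_const_nhds
  · intro a b
    obtain ⟨c, hc⟩ := hap a
    obtain ⟨d, hd'⟩ := hap b
    have h2 := key (a * b) (fun q => c q * d q) (by simpa using hc.mul hd')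
    have h3 := key (b * a) (fun q => d q * c q) (by simpa using hd'.mul hc)
    refine tendsto_nhds_unique h2 (h3.congr fun q => (htr q _ _))
  · intro a
    obtain ⟨c, hc⟩ := hap a
    have h2 := key (star a * a) (fun q => star (c q) * c q)
      (by simpa [map_star] using hc.star.mul hc)
    constructor
    · exact ge_of_tendsto ((Complex.continuous_re.tendsto _).comp h2)
        (Eventually.of_forall fun q => (hpos q _).1)
    · exact tendsto_nhds_unique ((Complex.continuous_im.tendsto _).comp h2)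
        (tendsto_const_nhds.congr fun q => ((hpos q _).2).symm)

end utrace

end Pool.Agent.MP_d8b6c2_an.C
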