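import Mathlib
import Pool.Agent.Lib.MP_d8b6c2_an.C.LemR0
import Pool.Agent.Lib.MP_d8b6c2_an.C.UTrace

/-!
# The ultralimit trace of a sequence of stages and points
-/

namespace Pool.Agent.MP_d8b6c2_an.C

open Filter Topology Matrix
open scoped Matrix.Norms.L2Operator ComplexOrder NNReal CStarAlgebra

variable {N D : ℕ → ℕ} {pt : ℕ → XX}

theorem mat_norm_entry_le {n : Type*} [Fintype n] [DecidableEq n] (M : Matrix n n ℂ) (p q : n) :
    ‖M p q‖ ≤ ‖M‖ := by
  have h := Matrix.l2_opNorm_mulVec M (EuclideanSpace.single q (1 : ℂ))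
  rw [PiLp.norm_single, norm_one, mul_one] at h
  refine le_trans ?_ h
  have h2 := EuclideanSpace.norm_sq_eq ((EuclideanSpace.equiv n ℂ).symm
    (M.mulVec (EuclideanSpace.single q (1 : ℂ) : EuclideanSpace ℂ n)))
  have h3 : ‖M p q‖ ^ 2 ≤ ‖(EuclideanSpace.equiv n ℂ).symm
    (M.mulVec (EuclideanSpace.single q (1 : ℂ) : EuclideanSpace ℂ n))‖ ^ 2 := by
    rw [h2]
    refine le_trans (le_of_eq ?_) (Finset.single_le_sum (f := fun i =>
      ‖((EuclideanSpace.equiv n ℂ).symm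
    (M.mulVec (EuclideanSpace.single q (1 : ℂ) : EuclideanSpace ℂ n))).ofLp i‖ ^ 2)
      (fun i _ => sq_nonneg _) (Finset.mem_univ p))
    simp
  exact le_of_sq_le_sq h3 (norm_nonneg _)

/-- `trx` as a linear map -/
noncomputable def trxL (i : ℕ) (x : XX) : EqA N D Unit i →ₗ[ℂ] ℂ where
  toFun a := trx N D i x a
  map_add' a b := by
    have h : ((a + b).1 x) = a.1 x + b.1 x := rfl
    simp only [trx, h, Matrix.trace_add, mul_add]
  map_smul' c a := by
    have h : ((c • a).1 x) = c • a.1 x := rfl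
    simp only [trx, h, Matrix.trace_smul, smul_eq_mul, RingHom.id_apply]
    ring

theorem trxL_apply (i : ℕ) (x : XX) (a : EqA N D Unit i) : trxL i x a = trx N D i x a := rfl

theorem norm_ev_le {k : Type} [Fintype k] [DecidableEq k] {i : ℕ} (b : EqA N D k i) (x : XX) :
    ‖b.1 x‖ ≤ ‖b‖ := b.1.norm_coe_le_norm x

theorem norm_trx_le (i : ℕ) (x : XX) (a : EqA N D Unit i) : ‖trx N D i x a‖ ≤ ‖a‖ := by
  have hn : (0 : ℝ) < nn N i := by exact_mod_cast nn_pos N i
  have h1 : ‖(a.1 x).trace‖ ≤ nn N i * ‖a‖ := by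
    calc ‖(a.1 x).trace‖ ≤ ∑ p : Unit × Ix N i, ‖a.1 x p p‖ := norm_sum_le _ _
      _ ≤ ∑ p : Unit × Ix N i, ‖a‖ :=
          Finset.sum_le_sum fun p _ => (mat_norm_entry_le _ _ _).trans (norm_ev_le a x)
      _ = nn N i * ‖a‖ := by simp [card_Ix]
  rw [trx, norm_mul, norm_inv, Complex.norm_natCast, inv_mul_le_iff₀ hn]
  exact h1

theorem trx_one (i : ℕ) (x : XX) : trx N D i x 1 = 1 := by
  have hn : (nn N i : ℂ) ≠ 0 := by exact_mod_cast (nn_pos N i).ne'
  have h : ((1 : EqA N D Unit i).1 x) = 1 := rfl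
  rw [trx, h, Matrix.trace_one]
  simp [card_Ix, hn]

theorem trx_comm (i : ℕ) (x : XX) (a b : EqA N D Unit i) :
    trx N D i x (a * b) = trx N D i x (b * a) := by
  have h : ∀ a b : EqA N D Unit i, ((a * b).1 x) = a.1 x * b.1 x := fun _ _ => rfl
  simp only [trx, h, Matrix.trace_mul_comm (a.1 x)]

theorem trx_pos (i : ℕ) (x : XX) (a : EqA N D Unit i) :
    0 ≤ (trx N D i x (star a * a)).re ∧ (trx N D i x (star a * a)).im = 0 := by
  have h : ((star a * a).1 x) = (a.1 x)ᴴ * a.1 x := rfl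
  have h1 : 0 ≤ ((a.1 x)ᴴ * a.1 x).trace := (Matrix.posSemidef_conjTranspose_mul_self _).trace_nonneg
  have h2 : (0 : ℂ) ≤ trx N D i x (star a * a) := by
    rw [trx, h]
    refine mul_nonneg ?_ h1
    rw [← Complex.ofReal_natCast, ← Complex.ofReal_inv]
    exact Complex.zero_le_real.2 (by positivity)
  obtain ⟨h3, h4⟩ := Complex.le_def.1 h2
  exact ⟨h3, h4.symm⟩

/-- trace of a diagonal block -/
theorem trx_blk {k i : ℕ} (κ : Fin k) (b : EqA N D (Fin k) i) (x : XX) :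
    trx N D i x (blk κ κ b) = (nn N i : ℂ)⁻¹ * ∑ p : Ix N i, b.1 x (κ, p) (κ, p) := by
  rw [trx]
  congr 1
  have : ((blk κ κ b).1 x).trace = ∑ p : Unit × Ix N i, b.1 x (κ, p.2) (κ, p.2) := rfl
  rw [this, Fintype.sum_prod_type]
  simp

end Pool.Agent.MP_d8b6c2_an.C
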