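import Mathlib
import Pool.Agent.Lib.MP_d8b6c2_an.C.Def

/-!
# Basic facts on `A ⊗ 𝒦`
-/

namespace Pool.Agent.MP_d8b6c2_an.C

open Filter Topology

variable {A : Type*} [CStarAlgebra A] {B : Type*} [NonUnitalCStarAlgebra B]
variable (st : Stabilization A B)

theorem u_mul_self (i j k : ℕ) (a b : A) : st.u i j a * st.u j k b = st.u i k (a * b) := by
  rw [st.u_mul, if_pos rfl]

theorem u_mul_ne {i j k l : ℕ} (h : j ≠ k) (a b : A) : st.u i j a * st.u k l b = 0 := by
  rw [st.u_mul, if_neg h]

theorem u_injective (i j : ℕ) : Function.Injective (st.u i j) := by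
  refine (injective_iff_map_eq_zero (st.u i j)).2 fun a ha => ?_
  have h1 : st.u 0 i 1 * st.u i j a * st.u j 0 1 = st.u 0 0 a := by
    rw [u_mul_self, u_mul_self, one_mul, mul_one]
  rw [ha, mul_zero, zero_mul] at h1
  exact (injective_iff_map_eq_zero (st.u 0 0)).1 st.u_inj a h1.symm

/-- the diagonal corner as a *-homomorphism -/
noncomputable def uHom (i : ℕ) : A →⋆ₙₐ[ℂ] B where
  toFun := st.u i i
  map_smul' c a := map_smul (st.u i i) c a
  map_zero' := map_zero _
  map_add' a b := map_add _ a b
  map_mul' a b := (u_mul_self st i i i a b).symm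
  map_star' a := (st.u_star i i a).symm

theorem norm_u (i j : ℕ) (a : A) : ‖st.u i j a‖ = ‖a‖ := by
  have h0 : ∀ c : A, ‖st.u j j c‖ = ‖c‖ := fun c =>
    NonUnitalStarAlgHom.norm_map (uHom st j) (u_injective st j j) c
  have h1 : ‖star (st.u i j a) * st.u i j a‖ = ‖a‖ * ‖a‖ := by
    rw [st.u_star, u_mul_self, h0, CStarRing.norm_star_mul_self]
  rw [CStarRing.norm_star_mul_self] at h1
  nlinarith [norm_nonneg (st.u i j a), norm_nonneg a,
    mul_self_inj_of_nonneg (norm_nonneg (st.u i j a)) (norm_nonneg a) |>.1 h1]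

theorem norm_u_one_le (i j : ℕ) : ‖st.u i j 1‖ ≤ 1 := by
  rw [norm_u]
  rcases subsingleton_or_nontrivial A with h | h
  · rw [Subsingleton.elim (1 : A) 0, norm_zero]
    exact zero_le_one
  · exact (CStarRing.norm_one (E := A)).le

/-- `B` is spanned by the corners -/
theorem span_induction {p : B → Prop} (hu : ∀ i j a, p (st.u i j a))
    (hadd : ∀ x y, p x → p y → p (x + y)) (hsmul : ∀ (c : ℂ) x, p x → p (c • x))
    (hcl : IsClosed {x | p x}) (b : B) : p b := by
  have h1 : (Submodule.span ℂ (⋃ i, ⋃ j, Set.range (st.u i j)) : Set B) ⊆ {x | p x} := by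
    intro x hx
    refine Submodule.span_induction (p := fun x _ => p x) ?_ ?_ ?_ ?_ hx
    · intro y hy
      simp only [Set.mem_iUnion, Set.mem_range] at hy
      obtain ⟨i, j, a, rfl⟩ := hy
      exact hu i j a
    · have := hu 0 0 0
      rwa [map_zero] at this
    · intro x y _ _ hx hy
      exact hadd x y hx hy
    · intro c x _ hx
      exact hsmul c x hx
  have h2 : closure (Submodule.span ℂ (⋃ i, ⋃ j, Set.range (st.u i j)) : Set B) ⊆ {x | p x} :=
    closure_minimal h1 hcl
  rw [st.dense.closure_eq] at h2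
  exact h2 (Set.mem_univ b)

theorem isClosed_range_u (i j : ℕ) : IsClosed (Set.range (st.u i j)) := by
  have h1 : Isometry (st.u i j) :=
    AddMonoidHomClass.isometry_of_norm (st.u i j) (norm_u st i j)
  exact h1.isClosedEmbedding.isClosed_range

theorem corner_mem (i j : ℕ) (b : B) : ∃ a, st.u i j a = st.u i i 1 * b * st.u j j 1 := by
  have h : st.u i i 1 * b * st.u j j 1 ∈ Set.range (st.u i j) := by
    refine span_induction st (p := fun b => st.u i i 1 * b * st.u j j 1 ∈ Set.range (st.u i j))
      ?_ ?_ ?_ ?_ b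
    · intro k l a
      rw [st.u_mul]
      split_ifs with h1
      · rw [st.u_mul]
        split_ifs with h2
        · exact ⟨_, rfl⟩
        · exact ⟨0, map_zero _⟩
      · rw [zero_mul]
        exact ⟨0, map_zero _⟩
    · rintro x y ⟨a, ha⟩ ⟨b, hb⟩
      refine ⟨a + b, ?_⟩
      rw [map_add, ha, hb, mul_add, add_mul]
    · rintro c x ⟨a, ha⟩
      refine ⟨c • a, ?_⟩
      rw [map_smul, ha, mul_smul_comm, smul_mul_assoc]
    · exact (isClosed_range_u st i j).preimage
        ((continuous_const.mul continuous_id).mul continuous_const)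
  exact h

theorem u_entry (i j : ℕ) (b : B) : st.u i j (st.entry i j b) = st.u i i 1 * b * st.u j j 1 := by
  have h := corner_mem st i j b
  unfold Stabilization.entry
  rw [dif_pos h]
  exact h.choose_spec

theorem entry_eq {i j : ℕ} {b : B} {a : A} (h : st.u i j a = st.u i i 1 * b * st.u j j 1) :
    st.entry i j b = a :=
  u_injective st i j ((u_entry st i j b).trans h.symm)

theorem entry_add (i j : ℕ) (x y : B) :
    st.entry i j (x + y) = st.entry i j x + st.entry i j y := by
  refine entry_eq st ?_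
  rw [map_add, u_entry, u_entry, mul_add, add_mul]

theorem entry_smul (i j : ℕ) (c : ℂ) (x : B) : st.entry i j (c • x) = c • st.entry i j x := by
  refine entry_eq st ?_
  rw [map_smul, u_entry, mul_smul_comm, smul_mul_assoc]

theorem entry_zero (i j : ℕ) : st.entry i j (0 : B) = 0 := by
  refine entry_eq st ?_
  rw [map_zero, mul_zero, zero_mul]

theorem entry_neg (i j : ℕ) (x : B) : st.entry i j (-x) = -st.entry i j x := by
  refine entry_eq st ?_
  rw [map_neg, u_entry, mul_neg, neg_mul]

theorem entry_sub (i j : ℕ) (x y : B) :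
    st.entry i j (x - y) = st.entry i j x - st.entry i j y := by
  rw [sub_eq_add_neg, entry_add, entry_neg, ← sub_eq_add_neg]

theorem entry_sum {ι : Type*} (s : Finset ι) (i j : ℕ) (f : ι → B) :
    st.entry i j (∑ k ∈ s, f k) = ∑ k ∈ s, st.entry i j (f k) := by
  classical
  induction s using Finset.induction_on with
  | empty => rw [Finset.sum_empty, Finset.sum_empty, entry_zero]
  | insert a s ha ih => rw [Finset.sum_insert ha, Finset.sum_insert ha, entry_add, ih]

theorem entry_u (i j k l : ℕ) (a : A) :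
    st.entry i j (st.u k l a) = if i = k ∧ j = l then a else 0 := by
  refine entry_eq st ?_
  by_cases h1 : i = k
  · subst h1
    rw [u_mul_self]
    by_cases h2 : j = l
    · subst h2
      rw [if_pos ⟨rfl, rfl⟩, u_mul_self, one_mul, mul_one]
    · rw [if_neg (fun h => h2 h.2), u_mul_ne st (fun h => h2 h.symm), map_zero]
  · rw [if_neg (fun h => h1 h.1), u_mul_ne st h1, zero_mul, map_zero]

theorem norm_entry_le (i j : ℕ) (b : B) : ‖st.entry i j b‖ ≤ ‖b‖ := by
  rw [← norm_u st i j, u_entry]
  calc ‖st.u i i 1 * b * st.u j j 1‖ ≤ ‖st.u i i 1 * b‖ * ‖st.u j j 1‖ := norm_mul_le _ _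
    _ ≤ (‖st.u i i 1‖ * ‖b‖) * ‖st.u j j 1‖ :=
        mul_le_mul_of_nonneg_right (norm_mul_le _ _) (norm_nonneg _)
    _ ≤ (1 * ‖b‖) * 1 := by
        refine mul_le_mul (mul_le_mul_of_nonneg_right (norm_u_one_le st i i) (norm_nonneg _))
          (norm_u_one_le st j j) (norm_nonneg _) ?_
        rw [one_mul]
        exact norm_nonneg _
    _ = ‖b‖ := by ring

/-- the entry map -/
noncomputable def entryL (i j : ℕ) : B →L[ℂ] A :=
  LinearMap.mkContinuous
    { toFun := st.entry i j
      map_add' := entry_add st i j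
      map_smul' := entry_smul st i j } 1
    (fun b => by rw [one_mul]; exact norm_entry_le st i j b)

theorem entryL_apply (i j : ℕ) (b : B) : entryL st i j b = st.entry i j b := rfl

theorem norm_entryL_le (i j : ℕ) : ‖entryL st i j‖ ≤ 1 :=
  LinearMap.mkContinuous_norm_le _ zero_le_one _

theorem continuous_entry (i j : ℕ) : Continuous (st.entry i j) := (entryL st i j).continuous

theorem entry_star (i j : ℕ) (b : B) : st.entry i j (star b) = star (st.entry j i b) := by
  refine entry_eq st ?_
  rw [← st.u_star, u_entry, star_mul, star_mul, st.u_star, st.u_star, star_one, mul_assoc]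

/-- the projection onto the first `K` coordinates -/
noncomputable def PK (K : ℕ) : B := ∑ k ∈ Finset.range K, st.u k k 1

theorem PK_star (K : ℕ) : star (PK st K) = PK st K := by
  unfold PK
  rw [star_sum]
  refine Finset.sum_congr rfl fun k _ => ?_
  rw [st.u_star, star_one]

theorem PK_mul_u (K k l : ℕ) (a : A) :
    PK st K * st.u k l a = if k < K then st.u k l a else 0 := by
  unfold PK
  rw [Finset.sum_mul]
  by_cases h : k < K
  · rw [if_pos h, Finset.sum_eq_single k]
    · rw [u_mul_self, one_mul]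
    · intro m _ hm
      exact u_mul_ne st hm _ _
    · intro hk
      exact absurd (Finset.mem_range.2 h) hk
  · rw [if_neg h]
    refine Finset.sum_eq_zero fun m hm => ?_
    refine u_mul_ne st ?_ _ _
    have := Finset.mem_range.1 hm
    omega

theorem u_mul_PK (K k l : ℕ) (a : A) :
    st.u k l a * PK st K = if l < K then st.u k l a else 0 := by
  have h := congrArg star (PK_mul_u st K l k (star a))
  rw [star_mul, st.u_star, star_star, PK_star] at h
  rw [h]
  split_ifs
  · rw [st.u_star, star_star]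
  · rw [star_zero]

theorem PK_mul_PK {K L : ℕ} (h : K ≤ L) : PK st K * PK st L = PK st K := by
  conv_lhs => rw [PK]
  rw [Finset.sum_mul]
  unfold PK
  refine Finset.sum_congr rfl fun k hk => ?_
  have h1 := u_mul_PK st L k k 1
  unfold PK at h1
  rw [h1, if_pos (lt_of_lt_of_le (Finset.mem_range.1 hk) h)]

theorem norm_PK_le (K : ℕ) : ‖PK st K‖ ≤ 1 := by
  have h1 : ‖PK st K‖ * ‖PK st K‖ = ‖PK st K‖ := by
    rw [← CStarRing.norm_star_mul_self, PK_star, PK_mul_PK st le_rfl]
  by_contra h
  push Not at h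
  nlinarith

theorem tendsto_PK_mul (b : B) : Tendsto (fun K => PK st K * b) atTop (𝓝 b) := by
  refine span_induction st (p := fun b => Tendsto (fun K => PK st K * b) atTop (𝓝 b)) ?_ ?_ ?_ ?_ b
  · intro i j a
    refine tendsto_const_nhds.congr' ?_
    filter_upwards [eventually_gt_atTop i] with K hK
    rw [PK_mul_u, if_pos hK]
  · intro x y hx hy
    have h := hx.add hy
    refine h.congr fun K => ?_
    rw [mul_add]
  · intro c x hx
    have h := hx.const_smul c
    refine h.congr fun K => ?_
    rw [mul_smul_comm]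
  · rw [← isSeqClosed_iff_isClosed]
    intro x b hx hb
    rw [Set.mem_ofPred_eq, Metric.tendsto_atTop]
    intro ε hε
    obtain ⟨m, hm⟩ := (Metric.tendsto_atTop.1 hb (ε / 3) (by positivity))
    have h1 := hm m le_rfl
    obtain ⟨K₀, hK₀⟩ := Metric.tendsto_atTop.1 (hx m) (ε / 3) (by positivity)
    refine ⟨K₀, fun K hK => ?_⟩
    have h2 := hK₀ K hK
    rw [dist_eq_norm] at h1 h2 ⊢
    have h3 : PK st K * b - b = -(PK st K * (x m - b)) + (PK st K * x m - x m) + (x m - b) := by
      rw [mul_sub]; abel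
    rw [h3]
    have h4 : ‖PK st K * (x m - b)‖ ≤ ‖x m - b‖ := by
      refine (norm_mul_le _ _).trans ?_
      exact mul_le_of_le_one_left (norm_nonneg _) (norm_PK_le st K)
    calc ‖-(PK st K * (x m - b)) + (PK st K * x m - x m) + (x m - b)‖
        ≤ ‖-(PK st K * (x m - b))‖ + ‖PK st K * x m - x m‖ + ‖x m - b‖ := norm_add₃_le
      _ < ε := by rw [norm_neg]; linarith

theorem tendsto_mul_PK (b : B) : Tendsto (fun K => b * PK st K) atTop (𝓝 b) := by
  have h := (continuous_star.tendsto (star b)).comp (tendsto_PK_mul st (star b))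
  rw [star_star] at h
  refine h.congr fun K => ?_
  simp only [Function.comp_apply, star_mul, star_star, PK_star]

theorem tendsto_PK_mul_PK (b : B) : Tendsto (fun K => PK st K * b * PK st K) atTop (𝓝 b) := by
  rw [Metric.tendsto_atTop]
  intro ε hε
  obtain ⟨K₀, hK₀⟩ := Metric.tendsto_atTop.1 (tendsto_PK_mul st b) (ε / 2) (by positivity)
  obtain ⟨K₁, hK₁⟩ := Metric.tendsto_atTop.1 (tendsto_mul_PK st b) (ε / 2) (by positivity)
  refine ⟨max K₀ K₁, fun K hK => ?_⟩
  have h1 := hK₀ K ((le_max_left _ _).trans hK)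
  have h2 := hK₁ K ((le_max_right _ _).trans hK)
  rw [dist_eq_norm] at h1 h2 ⊢
  have h3 : PK st K * b * PK st K - b = (PK st K * b - b) * PK st K + (b * PK st K - b) := by
    rw [sub_mul]; abel
  rw [h3]
  refine (norm_add_le _ _).trans_lt ?_
  have h4 : ‖(PK st K * b - b) * PK st K‖ ≤ ‖PK st K * b - b‖ := by
    refine (norm_mul_le _ _).trans ?_
    exact mul_le_of_le_one_right (norm_nonneg _) (norm_PK_le st K)
  linarith

/-- compression in terms of the entries -/
theorem PK_mul_mul_PK (K L : ℕ) (b : B) : PK st K * b * PK st L =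
    ∑ k ∈ Finset.range K, ∑ l ∈ Finset.range L, st.u k l (st.entry k l b) := by
  conv_lhs => rw [PK, PK]
  rw [Finset.sum_mul, Finset.sum_mul]
  refine Finset.sum_congr rfl fun k _ => ?_
  rw [Finset.mul_sum]
  refine Finset.sum_congr rfl fun l _ => ?_
  rw [u_entry]

end Pool.Agent.MP_d8b6c2_an.C
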