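import Mathlib
import Pool.Agent.Lib.MP_d8b6c2_an.C.LemR1
import Pool.Agent.Lib.MP_d8b6c2_an.C.StB

/-!
# The ultralimit trace on the entries of a root
-/

namespace Pool.Agent.MP_d8b6c2_an.C

open Filter Topology Matrix
open scoped Matrix.Norms.L2Operator ComplexOrder NNReal CStarAlgebra

variable {N D : ℕ → ℕ} {pt : ℕ → XX}

section range

variable {A : Type} [CStarAlgebra A] (L : LimA N D pt A)

theorem LimA.range_mono (i k : ℕ) (h : i ≤ k) : Set.range (L.ι i) ⊆ Set.range (L.ι k) := by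
  induction k, h using Nat.le_induction with
  | base => exact subset_rfl
  | succ k hk ih =>
    refine ih.trans ?_
    rintro _ ⟨a, rfl⟩
    exact ⟨phi N D pt Unit k a, L.ι_phi k a⟩

theorem LimA.norm_ι (i : ℕ) (a : EqA N D Unit i) : ‖L.ι i a‖ = ‖a‖ :=
  NonUnitalStarAlgHom.norm_map (L.ι i) (L.ι_inj i) a

end range

variable {A : Type} [CStarAlgebra A] {B : Type} [NonUnitalCStarAlgebra B] [PartialOrder B]
  [StarOrderedRing B]

/-- the key: an ultralimit trace with control of the rank data and of the diagonal entries of all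
roots -/
theorem exists_key (st : Stabilization A B) (L : LimA N D pt A)
    (hent : ∀ (K i : ℕ) (b : EqA N D (Fin K) i) (κ : ℕ), st.entry κ κ (Theta st L K i b) =
      if h : κ < K then L.ι i (blk ⟨κ, h⟩ ⟨κ, h⟩ b) else 0)
    (hcont : ∀ κ, Continuous (st.entry κ κ))
    (i k : ℕ → ℕ) (hi : Tendsto i atTop atTop)
    (b : ∀ q, EqA N D (Fin (k q)) (i q)) (hb : ∀ q, IsSelfAdjoint (b q))
    (hpos : ∀ q x, ((b q).1 x).PosSemidef) (x : ℕ → XX) (a : B) (ha : 0 ≤ a)
    (hlim : Tendsto (fun q => Theta st L (k q) (i q) (b q)) atTop (𝓝 a)) (U : Ultrafilter ℕ)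
    (hU : (U : Filter ℕ) ≤ atTop) :
    ∃ τ : A → ℂ, IsTracialState τ ∧ Continuous τ ∧
      Tendsto (fun q => HH N pt (i q) (x q)) U (𝓝 (τ (L.ι 0 (hEl N D))).re) ∧
      ∀ (κ : ℕ) (r : ℝ≥0), 0 < r →
        Tendsto (fun q => (nn N (i q) : ℝ)⁻¹ * ∑ p : Ix N (i q), if h : κ < k q then
          (cfc (fun y : ℝ => y ^ (r : ℝ)) ((b q).1 (x q)) (⟨κ, h⟩, p) (⟨κ, h⟩, p)).re else 0) U
          (𝓝 (τ (st.entry κ κ (a ^ r))).re) := by
  obtain ⟨τ, hτn, hτ1, hτc, hτp, hτ⟩ := exists_utrace L.ι L.ι_inj L.range_mono L.dense U hU i hi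
    (fun q => trxL (i q) (x q)) (fun q a => norm_trx_le _ _ a) (fun q => trx_one _ _)
    (fun q a b => trx_comm _ _ a b) (fun q a => trx_pos _ _ a)
  refine ⟨τ, ⟨fun a b => map_add τ a b, fun c a => by simp, hτc, fun a => ?_, hτ1⟩,
    τ.continuous, ?_, ?_⟩
  · rw [Complex.le_def]
    exact ⟨(hτp a).1, (hτp a).2.symm⟩
  · have h1 := hτ (L.ι 0 (hEl N D)) (fun q => hAt N D pt (i q)) (by
      simp only [ι_hAt]
      exact tendsto_const_nhds)
    have h2 := (Complex.continuous_re.tendsto _).comp h1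
    refine h2.congr fun q => ?_
    simp only [Function.comp_apply, trxL_apply, trx_hAt, Complex.ofReal_re]
  · intro κ r hr
    have hr' : (0 : ℝ) < r := hr
    have h0 : Tendsto (fun q => st.entry κ κ (Theta st L (k q) (i q) (cfc (gr (r : ℝ)) (b q)))) U
        (𝓝 (st.entry κ κ (a ^ r))) := by
      rw [nnrpow_eq_gr a ha r]
      refine ((hcont κ).tendsto _).comp ?_
      have h1 := tendsto_gr hr' a (IsSelfAdjoint.of_nonneg ha)
        (fun q => Theta st L (k q) (i q) (b q)) (fun q => (hb q).map _) hlim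
      refine (h1.congr fun q => ?_).mono_left hU
      exact Theta_gr st L (k q) (i q) (b q) (hb q) hr'
    have h1 := hτ (st.entry κ κ (a ^ r)) (fun q => if h : κ < k q then
      blk ⟨κ, h⟩ ⟨κ, h⟩ (cfc (gr (r : ℝ)) (b q)) else 0) (h0.congr fun q => by
        rw [hent]
        split_ifs with h
        · rfl
        · rw [map_zero])
    have h2 := (Complex.continuous_re.tendsto _).comp h1
    refine h2.congr fun q => ?_
    simp only [Function.comp_apply]
    by_cases h : κ < k q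
    · simp only [h, dif_pos]
      rw [trxL_apply, trx_blk, ← Complex.ofReal_natCast, ← Complex.ofReal_inv, Complex.re_ofReal_mul,
        Complex.re_sum, gr_ev_diag (b q) (hb q) hr' (x q) (hpos q (x q))]
    · simp only [h, dif_neg, not_false_iff]
      simp

end Pool.Agent.MP_d8b6c2_an.C
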