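import Mathlib
import Pool.Agent.Lib.MP_d8b6c2_an.C.LemR2
import Pool.Agent.Lib.MP_d8b6c2_an.C.Fi

/-!
# Lemma R, lower half
-/

namespace Pool.Agent.MP_d8b6c2_an.C

open Filter Topology Matrix
open scoped Matrix.Norms.L2Operator ComplexOrder NNReal ENNReal CStarAlgebra

theorem sum_range_blocks {k : ℕ} {J : Type*} [Fintype J] (f : Fin k × J → ℝ) (K₀ : ℕ) :
    ∑ κ ∈ Finset.range K₀, ∑ p : J, (if h : κ < k then f (⟨κ, h⟩, p) else 0) =
      ∑ j ∈ Finset.univ.filter (fun j : Fin k × J => (j.1 : ℕ) < K₀), f j := by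
  classical
  set H : ℕ → ℝ := fun κ => ∑ p : J, (if h : κ < k then f (⟨κ, h⟩, p) else 0) with hH
  have h1 : ∑ j ∈ Finset.univ.filter (fun j : Fin k × J => (j.1 : ℕ) < K₀), f j =
      ∑ κ : Fin k, (if (κ : ℕ) < K₀ then H κ else 0) := by
    rw [Finset.sum_filter, Fintype.sum_prod_type]
    refine Finset.sum_congr rfl fun κ _ => ?_
    by_cases h : (κ : ℕ) < K₀
    · simp [hH, h, κ.2]
    · simp [h]
  have h2 : ∑ κ : Fin k, (if (κ : ℕ) < K₀ then H κ else 0) =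
      ∑ κ ∈ Finset.range k, (if κ < K₀ then H κ else 0) :=
    Fin.sum_univ_eq_sum_range (fun κ => if κ < K₀ then H κ else 0) k
  have h3 : ∑ κ ∈ Finset.range K₀, H κ = ∑ κ ∈ Finset.range K₀, (if κ < k then H κ else 0) := by
    refine Finset.sum_congr rfl fun κ _ => ?_
    by_cases h : κ < k
    · rw [if_pos h]
    · rw [if_neg h]
      simp [hH, h]
  rw [h1, h2, h3, ← Finset.sum_filter, ← Finset.sum_filter]
  refine Finset.sum_congr ?_ fun _ _ => rfl
  ext κ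
  simp [and_comm]

variable {N D : ℕ → ℕ} {pt : ℕ → XX}

theorem isSelfAdjoint_of_pos {k i : ℕ} (b : EqA N D (Fin k) i) (h : ∀ x, (b.1 x).PosSemidef) :
    IsSelfAdjoint b := by
  refine Subtype.ext (ContinuousMap.ext fun x => ?_)
  exact (h x).1

theorem hF_ge (x : XX) : 1 / 4 ≤ hF x := by
  have := (x []).1.2.2
  unfold hF
  linarith

theorem mean_ge (F : XX → ℝ) (c : ℝ) (hF : ∀ x, c ≤ F x) (i : ℕ) (x : XX) :
    c ≤ mean N pt F i x := by
  induction i generalizing x with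
  | zero => exact hF x
  | succ i ih =>
    simp only [mean]
    have h1 : ((N i : ℝ) + 1) * c ≤ ∑ m : Fin (N i + 1), mean N pt F i (nxt N pt i m x) := by
      calc ((N i : ℝ) + 1) * c = ∑ m : Fin (N i + 1), c := by simp
        _ ≤ _ := Finset.sum_le_sum fun m _ => ih _
    rw [le_inv_mul_iff₀ (by positivity)]
    exact h1

theorem HH_ge (i : ℕ) (x : XX) : 1 / 4 ≤ HH N pt i x := mean_ge hF _ hF_ge i x

theorem tendsto_inv_succ : Tendsto (fun n : ℕ => (((n : ℝ) + 1)⁻¹)) atTop (𝓝 0) := by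
  simpa using tendsto_one_div_add_atTop_nhds_zero_nat (𝕜 := ℝ)

theorem tendsto_rpow_root {M : ℝ} (hM : 0 < M) :
    Tendsto (fun n : ℕ => M ^ (((n : ℝ) + 1)⁻¹)) atTop (𝓝 1) := by
  have h := (Real.continuousAt_const_rpow (a := M) (b := 0) hM.ne').tendsto.comp tendsto_inv_succ
  rw [Real.rpow_zero] at h
  exact h

theorem coe_root (n : ℕ) : (((((n : ℝ≥0) + 1)⁻¹ : ℝ≥0)) : ℝ) = ((n : ℝ) + 1)⁻¹ := by
  push_cast
  rfl

variable {A : Type} [CStarAlgebra A] {B : Type} [NonUnitalCStarAlgebra B] [PartialOrder B]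
  [StarOrderedRing B]

theorem lemR_lower (st : Stabilization A B) (L : LimA N D pt A)
    (hent : ∀ (K i : ℕ) (b : EqA N D (Fin K) i) (κ : ℕ), st.entry κ κ (Theta st L K i b) =
      if h : κ < K then L.ι i (blk ⟨κ, h⟩ ⟨κ, h⟩ b) else 0)
    (hnorm : ∀ (K i : ℕ) (b : EqA N D (Fin K) i), ‖Theta st L K i b‖ = ‖b‖)
    (a : B) (ha : 0 ≤ a)
    (hr : ∀ τ : A → ℂ, IsTracialState τ → Continuous τ →
      IsRankAt st τ a (ENNReal.ofReal (τ (L.ι 0 (hEl N D))).re))
    (η : ℝ) (hη : 0 < η) :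
    ∃ e₀ > 0, ∃ δ₀ > 0, ∃ i₀ : ℕ, ∀ i ≥ i₀, ∀ (k : ℕ) (b : EqA N D (Fin k) i),
      (∀ x, (b.1 x).PosSemidef) → ‖Theta st L k i b - a‖ ≤ δ₀ →
      ∀ x, (nn N i : ℝ) * (HH N pt i x - η) ≤ nGe e₀ (b.1 x) := by
  by_contra hcon
  push Not at hcon
  have h0 : ∀ q : ℕ, ∃ i ≥ q, ∃ (k : ℕ) (b : EqA N D (Fin k) i),
      (∀ x, (b.1 x).PosSemidef) ∧ ‖Theta st L k i b - a‖ ≤ ((q : ℝ) + 1)⁻¹ ∧
      ∃ x, (nGe (((q : ℝ) + 1)⁻¹) (b.1 x) : ℝ) < (nn N i : ℝ) * (HH N pt i x - η) := fun q =>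
    hcon (((q : ℝ) + 1)⁻¹) (by positivity) (((q : ℝ) + 1)⁻¹) (by positivity) q
  choose i hi k b hpos hlim x hx using h0
  have hit : Tendsto i atTop atTop := tendsto_atTop_mono hi tendsto_id
  have hlt : Tendsto (fun q => Theta st L (k q) (i q) (b q)) atTop (𝓝 a) := by
    rw [tendsto_iff_norm_sub_tendsto_zero]
    exact squeeze_zero (fun q => norm_nonneg _) hlim tendsto_inv_succ
  set U : Ultrafilter ℕ := hyperfilter ℕ with hUdef
  have hU : (U : Filter ℕ) ≤ atTop := by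
    rw [← Nat.cofinite_eq_atTop]
    exact hyperfilter_le_cofinite
  obtain ⟨τ, hτ, hτc, hτH, hτe⟩ := exists_key st L hent (fun κ => continuous_entry st κ κ) i k hit b
    (fun q => isSelfAdjoint_of_pos _ (hpos q)) hpos x a ha hlt U hU
  set T : ℝ := (τ (L.ι 0 (hEl N D))).re with hT
  have hT4 : 1 / 4 ≤ T := ge_of_tendsto hτH (Eventually.of_forall fun q => HH_ge _ _)
  set M : ℝ := ‖a‖ + 1 with hM
  have hMpos : 0 < M := by positivity
  have hMev : ∀ᶠ q in (U : Filter ℕ), ‖b q‖ ≤ M := by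
    have h1 : ∀ᶠ q in (U : Filter ℕ), ‖Theta st L (k q) (i q) (b q)‖ ≤ ‖a‖ + 1 :=
      (hlt.mono_left hU).norm.eventually (ge_mem_nhds (by linarith))
    filter_upwards [h1] with q hq
    rwa [hnorm] at hq
  -- the bound on finitely many entries
  have hfin : ∀ (r : ℝ≥0), 0 < r → ∀ K₀ : ℕ,
      ∑ κ ∈ Finset.range K₀, (τ (st.entry κ κ (a ^ r))).re ≤ M ^ (r : ℝ) * (T - η) := by
    intro r hr K₀
    have hr' : (0 : ℝ) < r := hr
    have h1 : Tendsto (fun q => ∑ κ ∈ Finset.range K₀,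
        ((nn N (i q) : ℝ)⁻¹ * ∑ p : Ix N (i q), if h : κ < k q then
          (cfc (fun y : ℝ => y ^ (r : ℝ)) ((b q).1 (x q)) (⟨κ, h⟩, p) (⟨κ, h⟩, p)).re else 0)) U
        (𝓝 (∑ κ ∈ Finset.range K₀, (τ (st.entry κ κ (a ^ r))).re)) :=
      tendsto_finsetSum _ fun κ _ => hτe κ r hr
    have h2 : Tendsto (fun q : ℕ => M ^ (r : ℝ) * (HH N pt (i q) (x q) - η) +
        K₀ * (((q : ℝ) + 1)⁻¹) ^ (r : ℝ)) U (𝓝 (M ^ (r : ℝ) * (T - η) + K₀ * 0)) := by
      refine ((hτH.sub_const η).const_mul _).add (Tendsto.const_mul _ ?_)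
      have h3 : Tendsto (fun q : ℕ => (((q : ℝ) + 1)⁻¹) ^ (r : ℝ)) atTop (𝓝 ((0 : ℝ) ^ (r : ℝ))) :=
        tendsto_inv_succ.rpow_const (Or.inr hr'.le)
      rw [Real.zero_rpow hr'.ne'] at h3
      exact h3.mono_left hU
    rw [mul_zero, add_zero] at h2
    refine le_of_tendsto_of_tendsto h1 h2 ?_
    filter_upwards [hMev] with q hq
    rw [← Finset.mul_sum, sum_range_blocks (fun j =>
      (cfc (fun y : ℝ => y ^ (r : ℝ)) ((b q).1 (x q)) j j).re) K₀]
    have hn : (0 : ℝ) < nn N (i q) := by exact_mod_cast nn_pos N (i q)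
    have hPS := hpos q (x q)
    have hle := root_le hPS.1 (fun j => hPS.eigenvalues_nonneg j) (M := M)
      (e := ((q : ℝ) + 1)⁻¹) (r := (r : ℝ)) (by positivity) hr'.le (fun j => ?_) hMpos.le
      (Finset.univ.filter fun j : Fin (k q) × Ix N (i q) => (j.1 : ℕ) < K₀)
    · have hcard : ((Finset.univ.filter fun j : Fin (k q) × Ix N (i q) => (j.1 : ℕ) < K₀).card : ℝ)
          ≤ K₀ * nn N (i q) := by
        have h5 : (Finset.univ.filter fun j : Fin (k q) × Ix N (i q) => (j.1 : ℕ) < K₀) =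
            (Finset.univ.filter fun κ : Fin (k q) => (κ : ℕ) < K₀) ×ˢ Finset.univ := by
          ext j
          simp
        rw [h5, Finset.card_product, Finset.card_univ, card_Ix]
        push_cast
        refine mul_le_mul_of_nonneg_right ?_ hn.le
        have h6 : (Finset.univ.filter fun κ : Fin (k q) => (κ : ℕ) < K₀).card ≤
            (Finset.range K₀).card := by
          refine Finset.card_le_card_of_injOn (fun κ => (κ : ℕ)) (fun κ hκ => ?_)
            (fun κ _ κ' _ h => Fin.ext h)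
          simpa using hκ
        rw [Finset.card_range] at h6
        exact_mod_cast h6
      have hx' := (hx q).le
      have hMr : 0 ≤ M ^ (r : ℝ) := Real.rpow_nonneg hMpos.le _
      have her : 0 ≤ (((q : ℝ) + 1)⁻¹) ^ (r : ℝ) := Real.rpow_nonneg (by positivity) _
      rw [inv_mul_le_iff₀ hn]
      refine hle.trans ?_
      have h7 := mul_le_mul_of_nonneg_left hx' hMr
      have h8 := mul_le_mul_of_nonneg_right hcard her
      nlinarith
    · exact (eigenvalues_le_norm hPS.1 j).trans ((norm_ev_le _ _).trans hq)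
  have hnn : ∀ (r : ℝ≥0), 0 < r → ∀ κ, 0 ≤ (τ (st.entry κ κ (a ^ r))).re := by
    intro r hr κ
    refine ge_of_tendsto (hτe κ r hr) (Eventually.of_forall fun q => ?_)
    refine mul_nonneg (by positivity) (Finset.sum_nonneg fun p _ => ?_)
    split_ifs with h
    · rw [cfc_diag (hpos q (x q)).1, Complex.ofReal_re]
      exact Finset.sum_nonneg fun j _ => mul_nonneg
        (Real.rpow_nonneg ((hpos q (x q)).eigenvalues_nonneg j) _) (sq_nonneg _)
    · exact le_rfl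
  have hext : ∀ (r : ℝ≥0), 0 < r → st.trExt τ (a ^ r) ≤ ENNReal.ofReal (M ^ (r : ℝ) * (T - η)) := by
    intro r hr
    unfold Stabilization.trExt
    refine ENNReal.tsum_le_of_sum_range_le fun K₀ => ?_
    rw [← ENNReal.ofReal_sum_of_nonneg fun κ _ => hnn r hr κ]
    exact ENNReal.ofReal_le_ofReal (hfin r hr K₀)
  have hlim2 : Tendsto (fun n : ℕ => ENNReal.ofReal (M ^ (((n : ℝ) + 1)⁻¹) * (T - η))) atTop
      (𝓝 (ENNReal.ofReal (1 * (T - η)))) :=
    (ENNReal.continuous_ofReal.tendsto _).comp ((tendsto_rpow_root hMpos).mul_const _)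
  have hfinal := le_of_tendsto_of_tendsto (hr τ hτ hτc) hlim2 (Eventually.of_forall fun n => by
    have := hext (((n : ℝ≥0) + 1)⁻¹) (by positivity)
    rwa [coe_root] at this)
  rw [one_mul] at hfinal
  have hlt2 : ENNReal.ofReal (T - η) < ENNReal.ofReal T := by
    rw [ENNReal.ofReal_lt_ofReal_iff (by linarith)]
    linarith
  exact absurd hfinal (not_le.2 hlt2)

end Pool.Agent.MP_d8b6c2_an.C
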