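import Mathlib
import Pool.Agent.Lib.MP_d8b6c2_an.C.LemR3

/-!
# Lemma R, upper half
-/

namespace Pool.Agent.MP_d8b6c2_an.C

open Filter Topology Matrix
open scoped Matrix.Norms.L2Operator ComplexOrder NNReal ENNReal CStarAlgebra

variable {N D : ℕ → ℕ} {pt : ℕ → XX}

/-- the diagonal projection onto the indices `κ ≥ K₀` -/
noncomputable def dgc (k i K₀ : ℕ) : EqA N D (Fin k) i :=
  ⟨⟨fun _ => Matrix.diagonal fun j : Fin k × Ix N i => if (j.1 : ℕ) < K₀ then (0 : ℂ) else 1,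
    continuous_const⟩, by
    intro g x p q
    change Matrix.diagonal (fun j : Fin k × Ix N i => if (j.1 : ℕ) < K₀ then (0 : ℂ) else 1) p q =
      _ * Matrix.diagonal (fun j : Fin k × Ix N i => if (j.1 : ℕ) < K₀ then (0 : ℂ) else 1) p q
    by_cases h : p = q
    · subst h
      have h5 : (starRingEnd ℂ) (chi N D i p.2 g : ℂ) * (chi N D i p.2 g : ℂ) = 1 := by
        rw [mul_comm, Complex.mul_conj, Complex.normSq_eq_norm_sq, Circle.norm_coe]
        norm_num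
      rw [h5, one_mul]
    · rw [Matrix.diagonal_apply_ne _ h, mul_zero]⟩

theorem blk_dgc_mul {k i : ℕ} (K₀ : ℕ) (κ κ' : Fin k) (b : EqA N D (Fin k) i) :
    blk κ κ' (dgc k i K₀ * b) = if (κ : ℕ) < K₀ then 0 else blk κ κ' b := by
  have h : ∀ (x : XX) (p q : Unit × Ix N i), (blk κ κ' (dgc k i K₀ * b)).1 x p q =
      if (κ : ℕ) < K₀ then 0 else b.1 x (κ, p.2) (κ', q.2) := by
    intro x p q
    rw [blk_apply]
    have h1 : (dgc k i K₀ * b).1 x =
        Matrix.diagonal (fun j : Fin k × Ix N i => if (j.1 : ℕ) < K₀ then (0 : ℂ) else 1) *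
          b.1 x := rfl
    rw [h1, Matrix.diagonal_mul]
    simp
  refine Subtype.ext (ContinuousMap.ext fun x => ?_)
  ext p q
  rw [h]
  split_ifs <;> rfl

variable {A : Type} [CStarAlgebra A] {B : Type} [NonUnitalCStarAlgebra B]

theorem Theta_dgc_mul (st : Stabilization A B) (L : LimA N D pt A) (k i K₀ : ℕ)
    (b : EqA N D (Fin k) i) :
    Theta st L k i (dgc k i K₀ * b) = Theta st L k i b - PK st K₀ * Theta st L k i b := by
  rw [Theta_apply, Theta_apply, Finset.mul_sum, ← Finset.sum_sub_distrib]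
  refine Finset.sum_congr rfl fun κ _ => ?_
  rw [Finset.mul_sum, ← Finset.sum_sub_distrib]
  refine Finset.sum_congr rfl fun κ' _ => ?_
  rw [PK_mul_u, blk_dgc_mul]
  by_cases h : (κ : ℕ) < K₀
  · rw [if_pos h, if_pos h, map_zero, map_zero, sub_self]
  · rw [if_neg h, if_neg h, sub_zero]

variable [PartialOrder B] [StarOrderedRing B]

theorem lemR_upper (st : Stabilization A B) (L : LimA N D pt A)
    (hent : ∀ (K i : ℕ) (b : EqA N D (Fin K) i) (κ : ℕ), st.entry κ κ (Theta st L K i b) =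
      if h : κ < K then L.ι i (blk ⟨κ, h⟩ ⟨κ, h⟩ b) else 0)
    (hnorm : ∀ (K i : ℕ) (b : EqA N D (Fin K) i), ‖Theta st L K i b‖ = ‖b‖)
    (a : B) (ha : 0 ≤ a)
    (hr : ∀ τ : A → ℂ, IsTracialState τ → Continuous τ →
      IsRankAt st τ a (ENNReal.ofReal (τ (L.ι 0 (hEl N D))).re))
    (η : ℝ) (hη : 0 < η) (e : ℝ) (he : 0 < e) :
    ∃ δ₀ > 0, ∃ i₀ : ℕ, ∀ i ≥ i₀, ∀ (k : ℕ) (b : EqA N D (Fin k) i),
      (∀ x, (b.1 x).PosSemidef) → ‖Theta st L k i b - a‖ ≤ δ₀ →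
      ∀ x, (nGe e (b.1 x) : ℝ) ≤ (nn N i : ℝ) * (HH N pt i x + η) := by
  by_contra hcon
  push Not at hcon
  have h0 : ∀ q : ℕ, ∃ i ≥ q, ∃ (k : ℕ) (b : EqA N D (Fin k) i),
      (∀ x, (b.1 x).PosSemidef) ∧ ‖Theta st L k i b - a‖ ≤ ((q : ℝ) + 1)⁻¹ ∧
      ∃ x, (nn N i : ℝ) * (HH N pt i x + η) < (nGe e (b.1 x) : ℝ) := fun q =>
    hcon (((q : ℝ) + 1)⁻¹) (by positivity) q
  choose i hi k b hpos hlim x hx using h0
  have hit : Tendsto i atTop atTop := tendsto_atTop_mono hi tendsto_id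
  have hlt : Tendsto (fun q => Theta st L (k q) (i q) (b q)) atTop (𝓝 a) := by
    rw [tendsto_iff_norm_sub_tendsto_zero]
    exact squeeze_zero (fun q => norm_nonneg _) hlim tendsto_inv_succ
  set U : Ultrafilter ℕ := hyperfilter ℕ with hUdef
  have hU : (U : Filter ℕ) ≤ atTop := by
    rw [← Nat.cofinite_eq_atTop]
    exact hyperfilter_le_cofinite
  obtain ⟨τ, hτ, hτc, hτH, hτe⟩ := exists_key st L hent (fun κ => continuous_entry st κ κ) i k hit b
    (fun q => isSelfAdjoint_of_pos _ (hpos q)) hpos x a ha hlt U hU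
  set T : ℝ := (τ (L.ι 0 (hEl N D))).re with hT
  have hT4 : 1 / 4 ≤ T := ge_of_tendsto hτH (Eventually.of_forall fun q => HH_ge _ _)
  -- the small number
  set κ₀ : ℝ := Real.sqrt (η / (2 * (T + η))) with hκ₀
  have hTη : 0 < T + η := by linarith
  have hκsq : κ₀ ^ 2 = η / (2 * (T + η)) := Real.sq_sqrt (by positivity)
  have hκpos : 0 < κ₀ := Real.sqrt_pos.2 (by positivity)
  have hprod : (1 - κ₀ ^ 2) * (T + η) = T + η / 2 := by
    rw [hκsq]
    field_simp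
    ring
  have hκ1 : 0 ≤ 1 - κ₀ ^ 2 := by
    by_contra h
    push Not at h
    have := mul_neg_of_neg_of_pos h hTη
    linarith
  -- the cutoff
  obtain ⟨K₀, hK₀⟩ : ∃ K₀ : ℕ, ‖PK st K₀ * a - a‖ < κ₀ * e / 2 := by
    have h1 := (tendsto_iff_norm_sub_tendsto_zero.1 (tendsto_PK_mul st a)).eventually
      (gt_mem_nhds (show (0 : ℝ) < κ₀ * e / 2 by positivity))
    exact h1.exists
  have hsmall : ∀ᶠ q in (U : Filter ℕ), ‖dgc (k q) (i q) K₀ * b q‖ ≤ κ₀ * e := by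
    have h1 : ∀ᶠ q in atTop, ‖Theta st L (k q) (i q) (b q) - a‖ < κ₀ * e / 4 :=
      (tendsto_iff_norm_sub_tendsto_zero.1 hlt).eventually
        (gt_mem_nhds (show (0 : ℝ) < κ₀ * e / 4 by positivity))
    filter_upwards [hU h1] with q hq
    rw [← hnorm, Theta_dgc_mul]
    set y := Theta st L (k q) (i q) (b q) with hy
    have h2 : y - PK st K₀ * y = (a - PK st K₀ * a) + ((y - a) - PK st K₀ * (y - a)) := by
      rw [mul_sub]
      abel
    rw [h2]
    have h3 : ‖PK st K₀ * (y - a)‖ ≤ ‖y - a‖ := by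
      refine (norm_mul_le _ _).trans ?_
      nlinarith [norm_PK_le st K₀, norm_nonneg (y - a)]
    have h4 := norm_add_le (a - PK st K₀ * a) ((y - a) - PK st K₀ * (y - a))
    have h5 := norm_sub_le (y - a) (PK st K₀ * (y - a))
    rw [norm_sub_rev] at hK₀
    linarith
  -- the bound on finitely many entries
  have hfin : ∀ (r : ℝ≥0), 0 < r →
      e ^ (r : ℝ) * ((1 - κ₀ ^ 2) * (T + η)) ≤
        ∑ κ ∈ Finset.range K₀, (τ (st.entry κ κ (a ^ r))).re := by
    intro r hr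
    have hr' : (0 : ℝ) < r := hr
    have h1 : Tendsto (fun q => ∑ κ ∈ Finset.range K₀,
        ((nn N (i q) : ℝ)⁻¹ * ∑ p : Ix N (i q), if h : κ < k q then
          (cfc (fun y : ℝ => y ^ (r : ℝ)) ((b q).1 (x q)) (⟨κ, h⟩, p) (⟨κ, h⟩, p)).re else 0)) U
        (𝓝 (∑ κ ∈ Finset.range K₀, (τ (st.entry κ κ (a ^ r))).re)) :=
      tendsto_finsetSum _ fun κ _ => hτe κ r hr
    have h2 : Tendsto (fun q : ℕ => e ^ (r : ℝ) * ((1 - κ₀ ^ 2) * (HH N pt (i q) (x q) + η))) U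
        (𝓝 (e ^ (r : ℝ) * ((1 - κ₀ ^ 2) * (T + η)))) :=
      ((hτH.add_const η).const_mul _).const_mul _
    refine le_of_tendsto_of_tendsto h2 h1 ?_
    filter_upwards [hsmall] with q hq
    rw [← Finset.mul_sum, sum_range_blocks (fun j =>
      (cfc (fun y : ℝ => y ^ (r : ℝ)) ((b q).1 (x q)) j j).re) K₀]
    have hn : (0 : ℝ) < nn N (i q) := by exact_mod_cast nn_pos N (i q)
    have hPS := hpos q (x q)
    have hS : ∀ v : Fin (k q) × Ix N (i q) → ℂ,
        ∑ j ∈ (Finset.univ.filter fun j : Fin (k q) × Ix N (i q) => (j.1 : ℕ) < K₀)ᶜ,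
          ‖(((b q).1 (x q)).mulVec v) j‖ ^ 2 ≤ (κ₀ * e) ^ 2 * ∑ j, ‖v j‖ ^ 2 := by
      refine fun v => compl_mulVec_le _ _ ?_ v
      have h6 : Matrix.diagonal (fun j : Fin (k q) × Ix N (i q) =>
          if j ∈ (Finset.univ.filter fun j : Fin (k q) × Ix N (i q) => (j.1 : ℕ) < K₀)
            then (0 : ℂ) else 1) * (b q).1 (x q) = (dgc (k q) (i q) K₀ * b q).1 (x q) := by
        simp only [Finset.mem_filter, Finset.mem_univ, true_and]
        rfl
      rw [h6]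
      exact (norm_ev_le _ _).trans hq
    have hle := le_root hPS.1 (fun j => hPS.eigenvalues_nonneg j)
      (e := e) (r := (r : ℝ)) (κ := κ₀) he hr'.le
      (Finset.univ.filter fun j : Fin (k q) × Ix N (i q) => (j.1 : ℕ) < K₀) hS
    have her : 0 ≤ e ^ (r : ℝ) := Real.rpow_nonneg he.le _
    rw [le_inv_mul_iff₀ hn]
    refine le_trans ?_ hle
    have h7 := mul_le_mul_of_nonneg_left (hx q).le (mul_nonneg her hκ1)
    nlinarith
  have hext : ∀ (r : ℝ≥0), 0 < r →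
      ENNReal.ofReal (e ^ (r : ℝ) * ((1 - κ₀ ^ 2) * (T + η))) ≤ st.trExt τ (a ^ r) := by
    intro r hr
    unfold Stabilization.trExt
    refine le_trans (ENNReal.ofReal_le_ofReal (hfin r hr)) ?_
    refine le_trans ?_ (ENNReal.sum_le_tsum (Finset.range K₀))
    exact Finset.le_sum_of_subadditive _ (by simp) (fun _ _ => ENNReal.ofReal_add_le) _ _
  have hlim2 : Tendsto (fun n : ℕ =>
      ENNReal.ofReal (e ^ (((n : ℝ) + 1)⁻¹) * ((1 - κ₀ ^ 2) * (T + η)))) atTop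
      (𝓝 (ENNReal.ofReal (1 * ((1 - κ₀ ^ 2) * (T + η))))) :=
    (ENNReal.continuous_ofReal.tendsto _).comp ((tendsto_rpow_root he).mul_const _)
  have hfinal := le_of_tendsto_of_tendsto hlim2 (hr τ hτ hτc) (Eventually.of_forall fun n => by
    have := hext (((n : ℝ≥0) + 1)⁻¹) (by positivity)
    rwa [coe_root] at this)
  rw [one_mul, hprod] at hfinal
  have hlt2 : ENNReal.ofReal T < ENNReal.ofReal (T + η / 2) := by
    rw [ENNReal.ofReal_lt_ofReal_iff (by linarith)]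
    linarith
  exact absurd hfinal (not_le.2 hlt2)

end Pool.Agent.MP_d8b6c2_an.C
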