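import Mathlib
import Pool.Agent.Lib.MP_d8b6c2_an.C.Theta0
import Pool.Agent.Lib.MP_d8b6c2_an.C.StB

/-!
# The maps `Θ : M_K(A_i) → B`: basic properties
-/

namespace Pool.Agent.MP_d8b6c2_an.C

open Filter Topology Matrix
open scoped Matrix.Norms.L2Operator ComplexOrder

section blk

variable {N D : ℕ → ℕ} {K : ℕ} {i : ℕ}

theorem blk_phi (pt : ℕ → XX) (k l : Fin K) (b : EqA N D (Fin K) i) :
    blk k l (phi N D pt (Fin K) i b) = phi N D pt Unit i (blk k l b) :=
  EqA.ext' fun _ _ _ => rfl

theorem blk_ext {b c : EqA N D (Fin K) i} (h : ∀ k l, blk k l b = blk k l c) : b = c := by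
  refine EqA.ext' fun x p q => ?_
  exact congrArg (fun a : EqA N D Unit i => a.1 x ((), p.2) ((), q.2)) (h p.1 q.1)

/-- matrix units of `M_K(A_i)` -/
noncomputable def eblk (k l : Fin K) (a : EqA N D Unit i) : EqA N D (Fin K) i :=
  ⟨⟨fun x => Matrix.of fun p q => if p.1 = k ∧ q.1 = l then a.1 x ((), p.2) ((), q.2) else 0, by
    refine continuous_matrix fun p q => ?_
    simp only [Matrix.of_apply]
    split_ifs
    · exact a.1.continuous.matrix_elem _ _
    · exact continuous_const⟩, by
    intro g x p q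
    change (if p.1 = k ∧ q.1 = l then a.1 (act g x) ((), p.2) ((), q.2) else 0) = _ *
      (if p.1 = k ∧ q.1 = l then a.1 x ((), p.2) ((), q.2) else 0)
    split_ifs
    · exact a.2 g x _ _
    · rw [mul_zero]⟩

theorem blk_eblk (k l k' l' : Fin K) (a : EqA N D Unit i) :
    blk k' l' (eblk k l a) = if k' = k ∧ l' = l then a else 0 := by
  refine EqA.ext' fun x p q => ?_
  have h1 : (blk k' l' (eblk k l a)).1 x p q =
      if k' = k ∧ l' = l then a.1 x ((), p.2) ((), q.2) else 0 := rfl
  rw [h1]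
  split_ifs <;> rfl

theorem blk_pad {K' : ℕ} (h : K ≤ K') (k l : Fin K') (b : EqA N D (Fin K) i) :
    blk k l (pad h i b) =
      if h' : (k : ℕ) < K ∧ (l : ℕ) < K then blk ⟨k, h'.1⟩ ⟨l, h'.2⟩ b else 0 := by
  refine EqA.ext' fun x p q => ?_
  have h1 : (blk k l (pad h i b)).1 x p q = padF (b.1 x) (k, p.2) (l, q.2) := rfl
  rw [h1, padF_apply]
  split_ifs <;> rfl

end blk

section theta

variable {N D : ℕ → ℕ} {pt : ℕ → XX} {A : Type} [CStarAlgebra A] {B : Type}
  [NonUnitalCStarAlgebra B]

/-- corner of `Θ b` -/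
theorem u_Theta_u (st : Stabilization A B) (L : LimA N D pt A) (K i : ℕ)
    (b : EqA N D (Fin K) i) (k l : Fin K) :
    st.u k k 1 * Theta st L K i b * st.u l l 1 = st.u k l (L.ι i (blk k l b)) := by
  rw [Theta_apply, Finset.mul_sum, Finset.sum_mul, Finset.sum_eq_single k]
  · rw [Finset.mul_sum, Finset.sum_mul, Finset.sum_eq_single l]
    · rw [st.u_mul, if_pos rfl, st.u_mul, if_pos rfl, one_mul, mul_one]
    · intro l' _ hl'
      rw [st.u_mul, if_pos rfl, st.u_mul, if_neg]
      intro h
      exact hl' (Fin.ext h)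
    · intro h
      exact absurd (Finset.mem_univ _) h
  · intro k' _ hk'
    rw [Finset.mul_sum, Finset.sum_mul]
    refine Finset.sum_eq_zero fun l' _ => ?_
    rw [st.u_mul, if_neg, zero_mul]
    intro h
    exact hk' (Fin.ext h.symm)
  · intro h
    exact absurd (Finset.mem_univ _) h

theorem u_Theta_ge (st : Stabilization A B) (L : LimA N D pt A) (K i : ℕ)
    (b : EqA N D (Fin K) i) (k : ℕ) (hk : K ≤ k) : st.u k k 1 * Theta st L K i b = 0 := by
  rw [Theta_apply, Finset.mul_sum]
  refine Finset.sum_eq_zero fun k' _ => ?_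
  rw [Finset.mul_sum]
  refine Finset.sum_eq_zero fun l' _ => ?_
  rw [st.u_mul, if_neg]
  have := k'.2
  omega

theorem Theta_u_ge (st : Stabilization A B) (L : LimA N D pt A) (K i : ℕ)
    (b : EqA N D (Fin K) i) (k : ℕ) (hk : K ≤ k) : Theta st L K i b * st.u k k 1 = 0 := by
  rw [Theta_apply, Finset.sum_mul]
  refine Finset.sum_eq_zero fun k' _ => ?_
  rw [Finset.sum_mul]
  refine Finset.sum_eq_zero fun l' _ => ?_
  rw [st.u_mul, if_neg]
  have := l'.2
  omega

theorem Theta_injective (st : Stabilization A B) (L : LimA N D pt A) (K i : ℕ) :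
    Function.Injective (Theta st L K i) := by
  intro b c h
  refine blk_ext fun k l => ?_
  apply L.ι_inj i
  apply u_injective st k l
  rw [← u_Theta_u st L K i b, ← u_Theta_u st L K i c, h]

theorem norm_Theta (st : Stabilization A B) (L : LimA N D pt A) (K i : ℕ)
    (b : EqA N D (Fin K) i) : ‖Theta st L K i b‖ = ‖b‖ :=
  NonUnitalStarAlgHom.norm_map (Theta st L K i) (Theta_injective st L K i) b

theorem continuous_Theta (st : Stabilization A B) (L : LimA N D pt A) (K i : ℕ) :
    Continuous (Theta st L K i) :=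
  (NonUnitalStarAlgHom.isometry (Theta st L K i) (Theta_injective st L K i)).continuous

theorem Theta_phi (st : Stabilization A B) (L : LimA N D pt A) (K i : ℕ)
    (b : EqA N D (Fin K) i) :
    Theta st L K (i + 1) (phi N D pt (Fin K) i b) = Theta st L K i b := by
  rw [Theta_apply, Theta_apply]
  simp only [blk_phi, L.ι_phi]

theorem Theta_phin (st : Stabilization A B) (L : LimA N D pt A) (K i n : ℕ)
    (b : EqA N D (Fin K) i) :
    Theta st L K (i + n) (phin N D pt (Fin K) i n b) = Theta st L K i b := by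
  induction n with
  | zero => rfl
  | succ n ih =>
    have h : phin N D pt (Fin K) i (n + 1) b =
        phi N D pt (Fin K) (i + n) (phin N D pt (Fin K) i n b) := rfl
    rw [h]
    exact (Theta_phi st L K (i + n) _).trans ih

/-- the entries of `Θ b` -/
theorem entry_Theta_eq (st : Stabilization A B) (L : LimA N D pt A) (K i : ℕ)
    (b : EqA N D (Fin K) i) (k l : Fin K) :
    st.entry k l (Theta st L K i b) = L.ι i (blk k l b) :=
  entry_eq st (u_Theta_u st L K i b k l).symm

theorem entry_Theta_zero (st : Stabilization A B) (L : LimA N D pt A) (K i : ℕ)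
    (b : EqA N D (Fin K) i) (k : ℕ) (hk : K ≤ k) :
    st.entry k k (Theta st L K i b) = 0 := by
  apply entry_eq st
  rw [u_Theta_ge st L K i b k hk, zero_mul, map_zero]

theorem entry_Theta (st : Stabilization A B) (L : LimA N D pt A) (K i : ℕ)
    (b : EqA N D (Fin K) i) (k : ℕ) :
    st.entry k k (Theta st L K i b) =
      if h : k < K then L.ι i (blk ⟨k, h⟩ ⟨k, h⟩ b) else 0 := by
  split_ifs with h
  · exact entry_Theta_eq st L K i b ⟨k, h⟩ ⟨k, h⟩
  · exact entry_Theta_zero st L K i b k (not_lt.1 h)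

/-- `Θ` of a matrix unit -/
theorem Theta_eblk (st : Stabilization A B) (L : LimA N D pt A) (K i : ℕ) (k l : Fin K)
    (a : EqA N D Unit i) : Theta st L K i (eblk k l a) = st.u k l (L.ι i a) := by
  rw [Theta_apply, Finset.sum_eq_single k]
  · rw [Finset.sum_eq_single l]
    · rw [blk_eblk, if_pos ⟨rfl, rfl⟩]
    · intro l' _ hl'
      rw [blk_eblk, if_neg (fun h => hl' h.2), map_zero, map_zero]
    · intro h
      exact absurd (Finset.mem_univ _) h
  · intro k' _ hk'
    refine Finset.sum_eq_zero fun l' _ => ?_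
    rw [blk_eblk, if_neg (fun h => hk' h.1), map_zero, map_zero]
  · intro h
    exact absurd (Finset.mem_univ _) h

theorem Theta_pad (st : Stabilization A B) (L : LimA N D pt A) {K K' : ℕ} (h : K ≤ K') (i : ℕ)
    (b : EqA N D (Fin K) i) : Theta st L K' i (pad h i b) = Theta st L K i b := by
  -- both sides as sums over `range`
  have key : ∀ (M : ℕ) (F : ℕ → ℕ → B), ∑ k : Fin M, ∑ l : Fin M, F k l =
      ∑ k ∈ Finset.range M, ∑ l ∈ Finset.range M, F k l := by
    intro M F
    rw [Finset.sum_range (fun k => ∑ l ∈ Finset.range M, F k l)]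
    exact Finset.sum_congr rfl fun k _ => (Finset.sum_range _).symm
  let F : ℕ → ℕ → B := fun k l =>
    if h' : k < K ∧ l < K then st.u k l (L.ι i (blk ⟨k, h'.1⟩ ⟨l, h'.2⟩ b)) else 0
  have h1 : Theta st L K' i (pad h i b) = ∑ k : Fin K', ∑ l : Fin K', F k l := by
    rw [Theta_apply]
    refine Finset.sum_congr rfl fun k _ => Finset.sum_congr rfl fun l _ => ?_
    rw [blk_pad]
    change _ = if h' : (k : ℕ) < K ∧ (l : ℕ) < K then _ else _
    split_ifs
    · rfl
    · rw [map_zero, map_zero]
  have h2 : Theta st L K i b = ∑ k : Fin K, ∑ l : Fin K, F k l := by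
    rw [Theta_apply]
    refine Finset.sum_congr rfl fun k _ => Finset.sum_congr rfl fun l _ => ?_
    change _ = if h' : (k : ℕ) < K ∧ (l : ℕ) < K then _ else _
    rw [dif_pos ⟨k.2, l.2⟩]
  rw [h1, h2, key, key]
  symm
  have h3 : ∀ k l, ¬ (k < K ∧ l < K) → F k l = 0 := fun k l hkl => dif_neg hkl
  rw [Finset.sum_subset (Finset.range_mono h) (f := fun k => ∑ l ∈ Finset.range K, F k l)]
  · refine Finset.sum_congr rfl fun k _ => ?_
    refine Finset.sum_subset (Finset.range_mono h) ?_
    intro l _ hl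
    exact h3 k l (fun h' => hl (Finset.mem_range.2 h'.2))
  · intro k _ hk
    refine Finset.sum_eq_zero fun l _ => ?_
    exact h3 k l (fun h' => hk (Finset.mem_range.2 h'.1))

end theta

end Pool.Agent.MP_d8b6c2_an.C
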