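import Mathlib
import Pool.Agent.Lib.MP_d8b6c2_an.C.Th1

/-!
# Density of the ranges of the maps `Θ`
-/

namespace Pool.Agent.MP_d8b6c2_an.C

open Filter Topology Matrix
open scoped Matrix.Norms.L2Operator ComplexOrder

variable {N D : ℕ → ℕ} {pt : ℕ → XX} {A : Type} [CStarAlgebra A] {B : Type}
  [NonUnitalCStarAlgebra B]

/-- move an element to a larger stage and a larger size -/
theorem exists_lift (st : Stabilization A B) (L : LimA N D pt A) {K i : ℕ}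
    (c : EqA N D (Fin K) i) {K' i' : ℕ} (hK : K ≤ K') (hi : i ≤ i') :
    ∃ c' : EqA N D (Fin K') i', Theta st L K' i' c' = Theta st L K i c := by
  obtain ⟨n, rfl⟩ := Nat.exists_eq_add_of_le hi
  exact ⟨phin N D pt (Fin K') i n (pad hK i c), by rw [Theta_phin, Theta_pad]⟩

theorem exists_Theta_u (st : Stabilization A B) (L : LimA N D pt A) (k l : ℕ) (a : A) {ε : ℝ}
    (hε : 0 < ε) (i₀ K₀ : ℕ) :
    ∃ i, i₀ ≤ i ∧ ∃ K, K₀ ≤ K ∧ ∃ c : EqA N D (Fin K) i,
      ‖Theta st L K i c - st.u k l a‖ < ε := by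
  obtain ⟨a', ha', hd⟩ := Metric.dense_iff.1 L.dense a ε hε
  obtain ⟨j, x, rfl⟩ := Set.mem_iUnion.1 hd
  refine ⟨j + i₀, by omega, K₀ + k + l + 1, by omega, ?_⟩
  refine ⟨eblk ⟨k, by omega⟩ ⟨l, by omega⟩ (phin N D pt Unit j i₀ x), ?_⟩
  rw [Theta_eblk, ι_phin, ← map_sub, norm_u]
  rw [Metric.mem_ball, dist_eq_norm] at ha'
  exact ha'

/-- **density** -/
theorem exists_Theta_near (st : Stabilization A B) (L : LimA N D pt A) (b : B) :
    ∀ {ε : ℝ}, 0 < ε → ∀ i₀ K₀ : ℕ, ∃ i, i₀ ≤ i ∧ ∃ K, K₀ ≤ K ∧ ∃ c : EqA N D (Fin K) i,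
      ‖Theta st L K i c - b‖ < ε := by
  refine span_induction st (p := fun b : B => ∀ {ε : ℝ}, 0 < ε → ∀ i₀ K₀ : ℕ,
    ∃ i, i₀ ≤ i ∧ ∃ K, K₀ ≤ K ∧ ∃ c : EqA N D (Fin K) i, ‖Theta st L K i c - b‖ < ε)
    ?_ ?_ ?_ ?_ b
  · intro k l a ε hε i₀ K₀
    exact exists_Theta_u st L k l a hε i₀ K₀
  · intro x y hx hy ε hε i₀ K₀
    obtain ⟨i, hi, K, hK, c, hc⟩ := hx (half_pos hε) i₀ K₀
    obtain ⟨i', hi', K', hK', c', hc'⟩ := hy (half_pos hε) i K
    obtain ⟨c₂, hc₂⟩ := exists_lift st L c hK' hi'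
    refine ⟨i', by omega, K', by omega, c₂ + c', ?_⟩
    rw [map_add, hc₂]
    have e : Theta st L K i c + Theta st L K' i' c' - (x + y) =
        (Theta st L K i c - x) + (Theta st L K' i' c' - y) := by abel
    rw [e]
    have := norm_add_le (Theta st L K i c - x) (Theta st L K' i' c' - y)
    linarith
  · intro z x hx ε hε i₀ K₀
    have hz : 0 < ‖z‖ + 1 := by positivity
    obtain ⟨i, hi, K, hK, c, hc⟩ := hx (div_pos hε hz) i₀ K₀
    refine ⟨i, hi, K, hK, z • c, ?_⟩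
    rw [map_smul, ← smul_sub, norm_smul]
    rw [lt_div_iff₀ hz] at hc
    have h0 := norm_nonneg (Theta st L K i c - x)
    nlinarith
  · refine isClosed_of_closure_subset fun b hb => ?_
    intro ε hε i₀ K₀
    obtain ⟨b', hb', hd⟩ := Metric.mem_closure_iff.1 hb (ε / 2) (half_pos hε)
    obtain ⟨i, hi, K, hK, c, hc⟩ := hb' (half_pos hε) i₀ K₀
    refine ⟨i, hi, K, hK, c, ?_⟩
    rw [dist_eq_norm] at hd
    have e : Theta st L K i c - b = (Theta st L K i c - b') - (b - b') := by abel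
    rw [e]
    have := norm_sub_le (Theta st L K i c - b') (b - b')
    linarith

/-- approximation of `star d * d` -/
theorem exists_Theta_near_star (st : Stabilization A B) (L : LimA N D pt A) (d : B)
    {ε : ℝ} (hε : 0 < ε) (i₀ K₀ : ℕ) :
    ∃ i, i₀ ≤ i ∧ ∃ K, K₀ ≤ K ∧ ∃ c : EqA N D (Fin K) i,
      ‖Theta st L K i (star c * c) - star d * d‖ < ε := by
  have hc : ContinuousAt (fun x : B => star x * x) d := by fun_prop
  rw [Metric.continuousAt_iff] at hc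
  obtain ⟨δ, hδ, h⟩ := hc ε hε
  obtain ⟨i, hi, K, hK, c, hc'⟩ := exists_Theta_near st L d hδ i₀ K₀
  refine ⟨i, hi, K, hK, c, ?_⟩
  have h2 := h (x := Theta st L K i c) (by rwa [dist_eq_norm])
  rw [dist_eq_norm] at h2
  rw [map_mul, map_star]
  exact h2

/-- positive semidefinite at every point -/
def PosE {K i : ℕ} (b : EqA N D (Fin K) i) : Prop := ∀ x, (b.1 x).PosSemidef

theorem posE_star_mul_self {K i : ℕ} (c : EqA N D (Fin K) i) : PosE (star c * c) := by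
  intro x
  exact Matrix.posSemidef_conjTranspose_mul_self (c.1 x)

/-- **positive elements of `B` are limits of positive elements of the `M_K(A_i)`** -/
theorem exists_pos_near [PartialOrder B] [StarOrderedRing B] (st : Stabilization A B)
    (L : LimA N D pt A) (a : B) (ha : 0 ≤ a) {ε : ℝ} (hε : 0 < ε) (i₀ K₀ : ℕ) :
    ∃ i, i₀ ≤ i ∧ ∃ K, K₀ ≤ K ∧ ∃ b : EqA N D (Fin K) i, PosE b ∧
      ‖Theta st L K i b - a‖ < ε := by
  obtain ⟨d, hd⟩ : ∃ d : B, a = star d * d := by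
    refine ⟨CFC.sqrt a, ?_⟩
    rw [(IsSelfAdjoint.of_nonneg (CFC.sqrt_nonneg a)).star_eq, CFC.sqrt_mul_sqrt_self a ha]
  obtain ⟨i, hi, K, hK, c, hc⟩ := exists_Theta_near_star st L d hε i₀ K₀
  exact ⟨i, hi, K, hK, star c * c, posE_star_mul_self c, by rw [hd]; exact hc⟩

end Pool.Agent.MP_d8b6c2_an.C
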