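import Mathlib
import Pool.Agent.Lib.MP_d8b6c2_an.C.Main
import Pool.Agent.Lib.MP_d8b6c2_an.C.LemR4
import Pool.Agent.Lib.MP_d8b6c2_an.C.Th2

/-!
# Lemma R
-/

namespace Pool.Agent.MP_d8b6c2_an.C

open Filter Topology Matrix
open scoped Matrix.Norms.L2Operator ComplexOrder NNReal ENNReal

variable {N D : ℕ → ℕ} {pt : ℕ → XX} {A : Type} [CStarAlgebra A]
  {B : Type} [NonUnitalCStarAlgebra B] [PartialOrder B] [StarOrderedRing B]

/-- the rank estimates hold for every positive approximant at a late stage -/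
theorem lemmaR_all (st : Stabilization A B) (L : LimA N D pt A)
    (a : B) (ha : 0 ≤ a)
    (hr : ∀ τ : A → ℂ, IsTracialState τ → Continuous τ →
      IsRankAt st τ a (ENNReal.ofReal (τ (L.ι 0 (hEl N D))).re))
    (η : ℝ) (hη : 0 < η) :
    ∃ e₀ > 0, ∀ e, 0 < e → e ≤ e₀ → ∃ δ₀ > 0, ∃ i₀ : ℕ, ∀ i ≥ i₀, ∀ (k : ℕ)
      (b : EqA N D (Fin k) i), (∀ x, (b.1 x).PosSemidef) → ‖Theta st L k i b - a‖ ≤ δ₀ →
      GoodAt N D pt b e η := by
  have hent : ∀ (K i : ℕ) (b : EqA N D (Fin K) i) (κ : ℕ),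
      st.entry κ κ (Theta st L K i b) = if h : κ < K then L.ι i (blk ⟨κ, h⟩ ⟨κ, h⟩ b) else 0 :=
    fun K i b κ => entry_Theta st L K i b κ
  obtain ⟨e₀, he₀, δ₁, hδ₁, i₁, h1⟩ := lemR_lower st L hent (norm_Theta st L) a ha hr η hη
  refine ⟨e₀, he₀, fun e he hee => ?_⟩
  obtain ⟨δ₂, hδ₂, i₂, h2⟩ := lemR_upper st L hent (norm_Theta st L) a ha hr η hη (e / 8)
    (by positivity)
  refine ⟨min δ₁ δ₂, lt_min hδ₁ hδ₂, max i₁ i₂, fun i hi k b hb hbn => ⟨hb, fun x => ?_, fun x => ?_⟩⟩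
  · refine (h1 i ((le_max_left _ _).trans hi) k b hb (hbn.trans (min_le_left _ _)) x).trans ?_
    rw [specb_nGe _ (hb x).1, specb_nGe _ (hb x).1]
    exact_mod_cast Finset.card_le_card fun j hj => by
      simp only [Finset.mem_filter, Finset.mem_univ, true_and] at hj ⊢
      exact hee.trans hj
  · exact h2 i ((le_max_right _ _).trans hi) k b hb (hbn.trans (min_le_right _ _)) x

/-- LEMMA R -/
theorem lemmaR (st : Stabilization A B) (L : LimA N D pt A) (_hN : ∀ i, 0 < N i)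
    (a : B) (ha : 0 ≤ a)
    (hr : ∀ τ : A → ℂ, IsTracialState τ → Continuous τ →
      IsRankAt st τ a (ENNReal.ofReal (τ (L.ι 0 (hEl N D))).re))
    (η : ℝ) (hη : 0 < η) :
    ∃ e₀ > 0, ∀ e, 0 < e → e ≤ e₀ → ∀ δ > 0, ∀ i₀ k₀ : ℕ, ∃ i ≥ i₀, ∃ k ≥ k₀,
      ∃ b : EqA N D (Fin k) i, ‖Theta st L k i b - a‖ ≤ δ ∧ GoodAt N D pt b e η := by
  obtain ⟨e₀, he₀, h⟩ := lemmaR_all st L a ha hr η hη
  refine ⟨e₀, he₀, fun e he hee δ hδ i₀ k₀ => ?_⟩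
  obtain ⟨δ₀, hδ₀, i₁, h1⟩ := h e he hee
  obtain ⟨i, hi, k, hk, b, hb, hbn⟩ := exists_pos_near st L a ha (lt_min hδ hδ₀) (max i₀ i₁) k₀
  exact ⟨i, (le_max_left _ _).trans hi, k, hk, b, (hbn.trans_le (min_le_left _ _)).le,
    h1 i ((le_max_right _ _).trans hi) k b hb (hbn.trans_le (min_le_right _ _)).le⟩

end Pool.Agent.MP_d8b6c2_an.C
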