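import Mathlib
import Pool.Agent.Lib.MP_d8b6c2_an.C.LemmaR
import Pool.Agent.Lib.MP_d8b6c2_an.C.Contra

/-!
# The element `h` is not a rank
-/

namespace Pool.Agent.MP_d8b6c2_an.C

open Filter Topology Matrix
open scoped Matrix.Norms.L2Operator ComplexOrder NNReal ENNReal

variable {N D M cap : ℕ → ℕ} {pt : ℕ → XX} {A : Type} [CStarAlgebra A]
  {B : Type} [NonUnitalCStarAlgebra B] [PartialOrder B] [StarOrderedRing B]

theorem no_rank (hnum : Nums N D M cap) (st : Stabilization A B) (L : LimA N D pt A)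
    (a : B) (ha : 0 ≤ a)
    (hr : ∀ τ : A → ℂ, IsTracialState τ → Continuous τ →
      IsRankAt st τ a (ENNReal.ofReal (τ (L.ι 0 (hEl N D))).re)) : False := by
  have hN : ∀ i, 0 < N i := fun i => by
    rw [hnum.hN i]
    positivity
  obtain ⟨e, he, h1⟩ := lemmaR st L hN a ha hr (1 / 100) (by norm_num)
  obtain ⟨i, hi, k, -, b, hbn, hb⟩ := h1 e he le_rfl (e / 64) (by positivity) 1 0
  have hnn : (0 : ℝ) < nn N i := by exact_mod_cast nn_pos N i
  obtain ⟨e', he', h2⟩ := lemmaR st L hN a ha hr (1 / (1000 * nn N i)) (by positivity)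
  obtain ⟨i', hi', k', hk', b', hbn', hb'⟩ := h2 (min e' (e / 16)) (lt_min he' (by positivity))
    (min_le_left _ _) (e / 64) (by positivity) (i + 1) k
  obtain ⟨n, rfl⟩ : ∃ n, i' = i + n := ⟨i' - i, by omega⟩
  refine contra hnum hi b e he hb n (by omega) hk' b' (min e' (e / 16))
    (lt_min he' (by positivity)) (min_le_right _ _) hb' ?_
  intro x
  have h3 : ‖b' - pad hk' (i + n) (phin N D pt (Fin k) i n b)‖ ≤ e / 32 := by
    rw [← norm_Theta st L k' (i + n), map_sub, Theta_pad, Theta_phin]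
    calc ‖Theta st L k' (i + n) b' - Theta st L k i b‖
        ≤ ‖Theta st L k' (i + n) b' - a‖ + ‖a - Theta st L k i b‖ := norm_sub_le_norm_sub_add_norm_sub _ _ _
      _ ≤ e / 64 + e / 64 := by
        refine add_le_add hbn' ?_
        rw [norm_sub_rev]
        exact hbn
      _ = e / 32 := by ring
  have h4 : ‖(b' - pad hk' (i + n) (phin N D pt (Fin k) i n b)).1 x‖ ≤
      ‖b' - pad hk' (i + n) (phin N D pt (Fin k) i n b)‖ :=
    ContinuousMap.norm_coe_le_norm _ x
  refine le_trans ?_ (h4.trans (h3.trans ?_))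
  · exact le_of_eq rfl
  · linarith

end Pool.Agent.MP_d8b6c2_an.C
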