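import Mathlib
import Pool.Agent.Lib.MP_d8b6c2_an.C.Fin1
import Pool.Agent.Lib.MP_d8b6c2_an.C.Lim2
import Pool.Agent.Lib.MP_d8b6c2_an.C.SeDef

/-!
# The limit algebra is separable, stably finite and infinite dimensional
-/

namespace Pool.Agent.MP_d8b6c2_an.C

open Filter Topology Matrix
open scoped Matrix.Norms.L2Operator ComplexOrder

variable {N D : ℕ → ℕ} {pt : ℕ → XX} {A : Type} [CStarAlgebra A]

theorem LimA.norm_ι (L : LimA N D pt A) (i : ℕ) (a : EqA N D Unit i) : ‖L.ι i a‖ = ‖a‖ :=
  NonUnitalStarAlgHom.norm_map (L.ι i) (L.ι_inj i) a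

/-- `M_n(A)` is Dedekind finite: `A` is stably finite -/
theorem stablyFinite (L : LimA N D pt A) (n : ℕ) (x y : Matrix (Fin n) (Fin n) A)
    (hxy : x * y = 1) : y * x = 1 := by
  refine stably_finite_of (𝒜 := fun i => EqA N D Unit i) (fun i => phi N D pt Unit i) L.ι L.ι_phi
    L.ι_inj L.dense (X := fun _ => XX) (J := fun i => Unit × Ix N i)
    (fun i x => ((evx N D Unit i x : EqA N D Unit i →⋆ₐ[ℂ] _) : EqA N D Unit i →+* _)) ?_ n x y hxy
  intro i a b h
  refine Subtype.ext (ContinuousMap.ext fun x => ?_)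
  exact h x

theorem separable_EqA (i : ℕ) : TopologicalSpace.SeparableSpace (EqA N D Unit i) := by
  have h1 : SecondCountableTopology (Matrix (Unit × Ix N i) (Unit × Ix N i) ℂ) :=
    inferInstanceAs (SecondCountableTopology ((Unit × Ix N i) → (Unit × Ix N i) → ℂ))
  have h2 : SecondCountableTopology (MX N Unit i) := inferInstance
  have h3 : SecondCountableTopology (EqA N D Unit i) :=
    TopologicalSpace.Subtype.secondCountableTopology _
  infer_instance

theorem separableSpace (L : LimA N D pt A) : TopologicalSpace.SeparableSpace A := by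
  rw [← TopologicalSpace.isSeparable_univ_iff]
  have h1 : TopologicalSpace.IsSeparable (⋃ i, Set.range (L.ι i)) := by
    refine TopologicalSpace.IsSeparable.iUnion fun i => ?_
    have := separable_EqA (N := N) (D := D) i
    refine TopologicalSpace.isSeparable_range ?_
    exact (AddMonoidHomClass.isometry_of_norm (L.ι i) (L.norm_ι i)).continuous
  have h2 := h1.closure
  rwa [L.dense.closure_eq] at h2

/-- the point of `XX` with all real coordinates `t` and all spheres at the base point -/
noncomputable def cpt (t : unitInterval) : XX := fun _ => (t, fun _ => Classical.arbitrary S3)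

theorem not_finite (L : LimA N D pt A) : ¬ FiniteDimensional ℂ A := by
  intro hfin
  obtain ⟨p, hp, hp0⟩ := (Algebra.IsIntegral.of_finite ℂ A).isIntegral (L.ι 0 (hEl N D))
  have h1 : Polynomial.aeval (L.ι 0 (hEl N D)) p = 0 := hp0
  have h2 : L.ι 0 (Polynomial.aeval (hEl N D) p) = 0 := by
    have := Polynomial.aeval_algHom_apply (L.ι 0).toAlgHom (hEl N D) p
    rw [← h1]
    exact this.symm
  have h3 : Polynomial.aeval (hEl N D) p = 0 := by
    refine L.ι_inj 0 ?_
    rw [h2, map_zero]
  have h4 : ∀ x : XX, p.eval ((hF x : ℝ) : ℂ) = 0 := by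
    intro x
    have h5 := Polynomial.aeval_algHom_apply (evx N D Unit 0 x).toAlgHom (hEl N D) p
    rw [h3, map_zero] at h5
    have h6 : (evx N D Unit 0 x).toAlgHom (hEl N D) =
        algebraMap ℂ (Matrix (Unit × Ix N 0) (Unit × Ix N 0) ℂ) (hF x : ℂ) := rfl
    rw [h6, Polynomial.aeval_algebraMap_apply] at h5
    have h7 := congrFun (congrFun h5 (((), ()) : Unit × Ix N 0)) (((), ()) : Unit × Ix N 0)
    rw [Matrix.algebraMap_matrix_apply, if_pos rfl] at h7
    simpa using h7
  have h8 : (Set.range fun x : unitInterval => ((hF (cpt x) : ℝ) : ℂ)) ⊆ p.rootSet ℂ := by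
    rintro _ ⟨x, rfl⟩
    rw [Polynomial.mem_rootSet]
    refine ⟨hp.ne_zero, ?_⟩
    have := h4 (cpt x)
    simpa [Polynomial.aeval_def] using this
  have h9 : (Set.range fun x : unitInterval => ((hF (cpt x) : ℝ) : ℂ)).Finite :=
    (Polynomial.rootSet_finite p ℂ).subset h8
  have hI : Infinite unitInterval := Set.infinite_coe_iff.2 (Set.Icc_infinite zero_lt_one)
  refine Set.infinite_range_of_injective ?_ h9
  intro s t hst
  have h10 : hF (cpt s) = hF (cpt t) := Complex.ofReal_injective hst
  simp only [hF, cpt] at h10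
  exact Subtype.ext (by linarith)

end Pool.Agent.MP_d8b6c2_an.C
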