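import Mathlib
import Pool.Agent.Lib.MP_d8b6c2_an.C.Lim2

/-!
# Functions on `XX` transforming by a given character
-/

namespace Pool.Agent.MP_d8b6c2_an.C

open Filter Topology Matrix
open scoped Matrix.Norms.L2Operator ComplexOrder

/-- there is a row of continuous functions of norm one which transforms by `c` -/
def Row (c : GG → ℂ) : Prop :=
  ∃ (E : Type) (_ : Fintype E) (τ : E → C(XX, ℂ)),
    (∀ e g x, τ e (act g x) = c g * τ e x) ∧ ∀ x, ∑ e, (starRingEnd ℂ) (τ e x) * τ e x = 1

theorem Row.one : Row (fun _ => 1) :=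
  ⟨Unit, inferInstance, fun _ => 1, fun _ _ _ => by simp, fun _ => by simp⟩

theorem Row.mul {c d : GG → ℂ} (hc : Row c) (hd : Row d) : Row (fun g => c g * d g) := by
  obtain ⟨E, _, τ, h1, h2⟩ := hc
  obtain ⟨F, _, σ, h3, h4⟩ := hd
  refine ⟨E × F, inferInstance, fun e => τ e.1 * σ e.2, fun e g x => ?_, fun x => ?_⟩
  · simp only [ContinuousMap.mul_apply]
    rw [h1, h3]
    ring
  · rw [Fintype.sum_prod_type]
    have : ∀ e : E, ∑ f : F, (starRingEnd ℂ) ((τ e * σ f) x) * (τ e * σ f) x =
        (starRingEnd ℂ) (τ e x) * τ e x := by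
      intro e
      have h5 : ∀ f : F, (starRingEnd ℂ) ((τ e * σ f) x) * (τ e * σ f) x =
          (starRingEnd ℂ) (τ e x) * τ e x * ((starRingEnd ℂ) (σ f x) * σ f x) := by
        intro f
        simp only [ContinuousMap.mul_apply, map_mul]
        ring
      rw [Finset.sum_congr rfl fun f _ => h5 f, ← Finset.mul_sum, h4, mul_one]
    rw [Finset.sum_congr rfl fun e _ => this e, h2]

theorem Row.pow {c : GG → ℂ} (hc : Row c) (m : ℕ) : Row (fun g => c g ^ m) := by
  induction m with
  | zero => simpa using Row.one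
  | succ m ih => simpa [pow_succ] using ih.mul hc

theorem Row.prod {c : ℕ → GG → ℂ} (hc : ∀ s, Row (c s)) (n : ℕ) :
    Row (fun g => ∏ s ∈ Finset.range n, c s g) := by
  induction n with
  | zero => simpa using Row.one
  | succ n ih => simpa [Finset.prod_range_succ] using ih.mul (hc n)

theorem Row.shG {c : GG → ℂ} (hc : Row c) (m : ℕ) : Row (fun g => c (shG m g)) := by
  obtain ⟨E, _, τ, h1, h2⟩ := hc
  refine ⟨E, inferInstance, fun e => ⟨fun x => τ e (sh m x), (τ e).continuous.comp (continuous_sh m)⟩,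
    fun e g x => ?_, fun x => ?_⟩
  · change τ e (sh m (act g x)) = _ * τ e (sh m x)
    rw [sh_act, h1]
  · exact h2 (sh m x)

theorem Row.coord (s : ℕ) : Row (fun g => (g [] s : ℂ)) := by
  refine ⟨Fin 2, inferInstance, fun l => ⟨fun x => ((x []).2 s).1 l, ?_⟩, fun l g x => ?_,
    fun x => ?_⟩
  · exact (continuous_apply l).comp (continuous_subtype_val.comp
      ((continuous_apply s).comp (continuous_snd.comp (continuous_apply []))))
  · rfl
  · have h : ∑ l, ‖((x []).2 s).1 l‖ ^ 2 = 1 := ((x []).2 s).2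
    have h2 : ((∑ l, ‖((x []).2 s).1 l‖ ^ 2 : ℝ) : ℂ) = 1 := by rw [h]; simp
    rw [← h2]
    push_cast
    refine Finset.sum_congr rfl fun l _ => ?_
    change (starRingEnd ℂ) (((x []).2 s).1 l) * ((x []).2 s).1 l = _
    rw [mul_comm, Complex.mul_conj, Complex.normSq_eq_norm_sq]
    push_cast
    rfl

theorem row_chi (N D : ℕ → ℕ) : ∀ (i : ℕ) (p : Ix N i), Row (fun g => (chi N D i p g : ℂ)) := by
  intro i
  induction i with
  | zero =>
    intro p
    simpa [chi] using Row.one
  | succ i ih =>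
    intro p
    by_cases h : (p.hd : ℕ) < N i
    · have h1 := ((Row.prod (fun s => Row.coord s) (D i)).pow (p.hd : ℕ)).mul ((ih p.tl).shG p.hd)
      have h2 : (fun g => (chi N D (i + 1) p g : ℂ)) = fun g : GG =>
          (∏ s ∈ Finset.range (D i), (g [] s : ℂ)) ^ (p.hd : ℕ) *
            (chi N D i p.tl (C.shG p.hd g) : ℂ) := by
        funext g
        rw [chi_succ_lt N D i p g h]
        have h3 : ((∏ s ∈ Finset.range (D i), g [] s : Circle) : ℂ) =
            ∏ s ∈ Finset.range (D i), (g [] s : ℂ) := map_prod Circle.coeHom _ _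
        rw [Circle.coe_mul, Circle.coe_pow, h3]
      rw [h2]
      exact h1
    · have h2 : (fun g => (chi N D (i + 1) p g : ℂ)) = fun _ : GG => (1 : ℂ) := by
        funext g
        rw [chi_succ_ge N D i p g h]
        simp
      rw [h2]
      exact Row.one

end Pool.Agent.MP_d8b6c2_an.C
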