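import Mathlib
import Pool.Agent.Lib.MP_d8b6c2_an.C.Lim2

/-!
# Quadratic forms of the matrices `a x` along the connecting maps
-/

namespace Pool.Agent.MP_d8b6c2_an.C

open Filter Topology Matrix
open scoped Matrix.Norms.L2Operator ComplexOrder

section

variable {n : Type*} [Fintype n]

/-- `⟨v, M v⟩` as a double sum -/
def QF (M : Matrix n n ℂ) (v : n → ℂ) : ℂ := ∑ p, ∑ q, (starRingEnd ℂ) (v p) * M p q * v q

/-- `‖v‖²` as a sum -/
def QN (v : n → ℂ) : ℂ := ∑ p, (starRingEnd ℂ) (v p) * v p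

variable [DecidableEq n]

omit [DecidableEq n] in
theorem QN_eq (v : n → ℂ) : QN v = ((‖WithLp.toLp 2 v‖ ^ 2 : ℝ) : ℂ) := by
  rw [EuclideanSpace.norm_sq_eq]
  unfold QN
  push_cast
  refine Finset.sum_congr rfl fun p _ => ?_
  rw [mul_comm, Complex.mul_conj, Complex.normSq_eq_norm_sq]
  push_cast
  rfl

omit [DecidableEq n] in
theorem QF_star_mul (M : Matrix n n ℂ) (v : n → ℂ) :
    QF (Mᴴ * M) v = QN (M *ᵥ v) := by
  unfold QF QN
  have h1 : ∀ p q, (starRingEnd ℂ) (v p) * (Mᴴ * M) p q * v q =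
      ∑ r, (starRingEnd ℂ) (M r p * v p) * (M r q * v q) := by
    intro p q
    rw [Matrix.mul_apply, Finset.mul_sum, Finset.sum_mul]
    refine Finset.sum_congr rfl fun r _ => ?_
    rw [Matrix.conjTranspose_apply, map_mul]
    change (starRingEnd ℂ) (v p) * ((starRingEnd ℂ) (M r p) * M r q) * v q = _
    ring
  simp only [h1]
  rw [Finset.sum_congr rfl fun p _ => Finset.sum_comm, Finset.sum_comm]
  refine Finset.sum_congr rfl fun r _ => ?_
  simp only [Matrix.mulVec, dotProduct, map_sum]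
  rw [Finset.sum_mul_sum]

/-- a matrix `M* M` of norm larger than `t` has a unit vector with value larger than `t` -/
theorem exists_unit (M : Matrix n n ℂ) (t : ℝ) (ht : 0 ≤ t) (h : t < ‖M‖ ^ 2) :
    ∃ v : n → ℂ, QN v = 1 ∧ ∃ κ : ℝ, t < κ ∧ QF (Mᴴ * M) v = κ := by
  by_contra hcon
  push Not at hcon
  have h1 : ‖M‖ ≤ Real.sqrt t := by
    rw [Matrix.l2_opNorm_def]
    refine ContinuousLinearMap.opNorm_le_bound _ (Real.sqrt_nonneg _) fun w => ?_
    by_cases hw : w = 0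
    · rw [hw, map_zero, norm_zero, mul_zero]
    have hwp : 0 < ‖w‖ := norm_pos_iff.2 hw
    set c : ℂ := ((‖w‖⁻¹ : ℝ) : ℂ) with hc
    have hcn : ‖c‖ = ‖w‖⁻¹ := by rw [hc, Complex.norm_real, norm_inv, norm_norm]
    have h2 : QN (WithLp.ofLp (c • w)) = 1 := by
      rw [QN_eq]
      have : ‖WithLp.toLp 2 (WithLp.ofLp (c • w))‖ = 1 := by
        rw [WithLp.toLp_ofLp, norm_smul, hcn, inv_mul_cancel₀ hwp.ne']
      rw [this]
      norm_num
    have h3 := hcon _ h2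
    have h4 := h3 (‖WithLp.toLp 2 (M *ᵥ (WithLp.ofLp (c • w)))‖ ^ 2)
    rw [QF_star_mul, QN_eq] at h4
    have h5 : ‖WithLp.toLp 2 (M *ᵥ (WithLp.ofLp (c • w)))‖ ^ 2 ≤ t := by
      by_contra h6
      exact h4 (not_le.1 h6) rfl
    have h6 : WithLp.toLp 2 (M *ᵥ (WithLp.ofLp (c • w))) =
        c • (WithLp.toLp 2 (M *ᵥ (WithLp.ofLp w))) := by
      rw [WithLp.ofLp_smul, Matrix.mulVec_smul, WithLp.toLp_smul]
    rw [h6, norm_smul, hcn] at h5
    have h7 : ‖w‖⁻¹ * ‖WithLp.toLp 2 (M *ᵥ (WithLp.ofLp w))‖ ≤ Real.sqrt t :=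
      Real.le_sqrt_of_sq_le h5
    have h8 : ‖WithLp.toLp 2 (M *ᵥ (WithLp.ofLp w))‖ ≤ Real.sqrt t * ‖w‖ := by
      rw [inv_mul_le_iff₀ hwp] at h7
      linarith
    exact h8
  have h2 : ‖M‖ ^ 2 ≤ t := by
    calc ‖M‖ ^ 2 ≤ Real.sqrt t ^ 2 := pow_le_pow_left₀ (norm_nonneg _) h1 2
      _ = t := Real.sq_sqrt ht
  linarith

end

section

variable {N D : ℕ → ℕ} {pt : ℕ → XX} {K : Type} [Fintype K] [DecidableEq K]

/-- the vector `w` in the block `m` -/
def emb {i : ℕ} (m : Fin (N i + 1)) (w : K × Ix N i → ℂ) (p : K × Ix N (i + 1)) : ℂ :=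
  if p.2.hd = m then w (p.1, p.2.tl) else 0

omit [DecidableEq K] in
theorem sum_emb {i : ℕ} (m : Fin (N i + 1)) (F : K × Ix N (i + 1) → ℂ)
    (hF : ∀ p, p.2.hd ≠ m → F p = 0) :
    ∑ p, F p = ∑ p : K × Ix N i, F (p.1, Ix.cons m p.2) := by
  rw [sum_K_succ, Fintype.sum_prod_type]
  refine Finset.sum_congr rfl fun κ _ => ?_
  refine Finset.sum_eq_single m (fun m' _ hm => ?_) (fun hm => absurd (Finset.mem_univ _) hm)
  exact Finset.sum_eq_zero fun r _ => hF _ hm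

omit [DecidableEq K] in
theorem QN_emb {i : ℕ} (m : Fin (N i + 1)) (w : K × Ix N i → ℂ) : QN (emb m w) = QN w := by
  unfold QN
  rw [sum_emb m]
  · refine Finset.sum_congr rfl fun p _ => ?_
    simp [emb]
  · intro p hp
    simp [emb, hp]

omit [DecidableEq K] in
theorem QF_emb {i : ℕ} (m : Fin (N i + 1)) (w : K × Ix N i → ℂ)
    (b : XX → Matrix (K × Ix N i) (K × Ix N i) ℂ) (x : XX) :
    QF (phiF N pt b x) (emb m w) = QF (b (nxt N pt i m x)) w := by
  unfold QF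
  rw [sum_emb m]
  · refine Finset.sum_congr rfl fun p _ => ?_
    rw [sum_emb m]
    · refine Finset.sum_congr rfl fun q _ => ?_
      simp [emb, phiF_apply]
    · intro q hq
      simp [emb, hq]
  · intro p hp
    refine Finset.sum_eq_zero fun q _ => ?_
    simp [emb, hp]

theorem QF_phin (hN : ∀ i, 0 < N i) {i : ℕ} (a : EqA N D K i) (v : K × Ix N i → ℂ) :
    ∀ (n : ℕ) (x : XX), ∃ w : K × Ix N (i + n) → ℂ, QN w = QN v ∧
      QF ((phin N D pt K i n a).1 x) w = QF (a.1 ((sh 0)^[n] x)) v := by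
  intro n
  induction n with
  | zero =>
    intro x
    exact ⟨v, rfl, rfl⟩
  | succ n ih =>
    intro x
    obtain ⟨w, h1, h2⟩ := ih (sh 0 x)
    refine ⟨emb (N := N) (i := i + n) 0 w, ?_, ?_⟩
    · rw [← h1]
      exact QN_emb (N := N) (i := i + n) 0 w
    · have h3 := QF_emb (N := N) (pt := pt) (i := i + n) 0 w (phin N D pt K i n a).1 x
      have h4 : nxt N pt (i + n) 0 x = sh 0 x := by
        simp [nxt, hN (i + n)]
      rw [h4] at h3
      rw [Function.iterate_succ_apply, ← h2]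
      exact h3

end

end Pool.Agent.MP_d8b6c2_an.C
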