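import Mathlib

/-! # Simplicity of a C*-algebra from a dense set of compressible positive elements -/

namespace Pool.Agent.MP_d8b6c2_an.C

section

variable {A : Type*} [CStarAlgebra A]

/-- If every `star b * b` (`b` in a dense set, norm at least `3/4`) is moved to a scalar
`κ ≥ 1/2` by a row of elements `g` with `∑ g* g = 1`, then `A` has no nontrivial two-sided
ideals (algebraically). -/
theorem simple_of_key [Nontrivial A] (D : Set A) (hD : Dense D)
    (key : ∀ b ∈ D, 3 / 4 ≤ ‖star b * b‖ → ∃ (ι : Type) (_ : Fintype ι) (g : ι → A) (κ : ℝ),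
      1 / 2 ≤ κ ∧ ∑ l, star (g l) * (star b * b) * g l = algebraMap ℝ A κ ∧
        ∑ l, star (g l) * g l = 1) : IsSimpleRing A := by
  refine ⟨⟨fun I => ?_⟩⟩
  by_cases hI : I = ⊥
  · exact Or.inl hI
  right
  obtain ⟨x, hxI, hx0⟩ : ∃ x ∈ I, x ≠ 0 := by
    by_contra h
    push Not at h
    apply hI
    refine le_antisymm ?_ bot_le
    intro x hx
    rw [h x hx]
    exact (⊥ : TwoSidedIdeal A).zero_mem
  have hxn : 0 < ‖x‖ := norm_pos_iff.2 hx0
  set y : A := ((‖x‖⁻¹ : ℝ) : ℂ) • x with hy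
  have hyI : y ∈ I := by
    have : y = (((‖x‖⁻¹ : ℝ) : ℂ) • (1 : A)) * x := by rw [hy, smul_mul_assoc, one_mul]
    rw [this]
    exact I.mul_mem_left _ _ hxI
  have hyn : ‖y‖ = 1 := by
    rw [hy, norm_smul, Complex.norm_real, norm_inv, norm_norm, inv_mul_cancel₀ hxn.ne']
  obtain ⟨b, hbD, hb⟩ := hD.exists_dist_lt y (by norm_num : (0 : ℝ) < 1 / 32)
  rw [dist_eq_norm, norm_sub_rev] at hb
  have hbn : ‖b‖ ≤ 2 := by
    have := norm_sub_norm_le b y
    linarith
  have hdiff : ‖star b * b - star y * y‖ ≤ 1 / 8 := by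
    have e : star b * b - star y * y = star b * (b - y) + star (b - y) * y := by
      rw [star_sub]
      noncomm_ring
    calc ‖star b * b - star y * y‖ ≤ ‖star b * (b - y)‖ + ‖star (b - y) * y‖ := by
          rw [e]
          exact norm_add_le _ _
      _ ≤ ‖star b‖ * ‖b - y‖ + ‖star (b - y)‖ * ‖y‖ := add_le_add (norm_mul_le _ _) (norm_mul_le _ _)
      _ = ‖b‖ * ‖b - y‖ + ‖b - y‖ := by rw [norm_star, norm_star, hyn, mul_one]
      _ ≤ 1 / 8 := by nlinarith [norm_nonneg (b - y)]
  have hyy : ‖star y * y‖ = 1 := by rw [CStarRing.norm_star_mul_self, hyn, mul_one]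
  have hbb : 3 / 4 ≤ ‖star b * b‖ := by
    have := norm_sub_norm_le (star y * y) (star b * b)
    rw [norm_sub_rev] at this
    linarith
  obtain ⟨ι, _, g, κ, hκ, h1, h2⟩ := key b hbD hbb
  let _ := CStarAlgebra.spectralOrder A
  have _ := CStarAlgebra.spectralOrderedRing A
  have hle : star b * b - algebraMap ℝ A (1 / 8) ≤ star y * y := by
    have hsa : IsSelfAdjoint (star b * b - star y * y) :=
      (IsSelfAdjoint.star_mul_self b).sub (IsSelfAdjoint.star_mul_self y)
    have h3 := hsa.le_algebraMap_norm_self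
    have h4 : algebraMap ℝ A ‖star b * b - star y * y‖ ≤ algebraMap ℝ A (1 / 8) :=
      algebraMap_mono A hdiff
    have h5 := h3.trans h4
    rw [sub_le_iff_le_add] at h5 ⊢
    rwa [add_comm] at h5
  have hT : algebraMap ℝ A (κ - 1 / 8) ≤ ∑ l, star (g l) * (star y * y) * g l := by
    have h3 : ∑ l, star (g l) * (star b * b - algebraMap ℝ A (1 / 8)) * g l ≤
        ∑ l, star (g l) * (star y * y) * g l :=
      Finset.sum_le_sum fun l _ => star_left_conjugate_le_conjugate hle (g l)
    have h4 : ∑ l, star (g l) * (star b * b - algebraMap ℝ A (1 / 8)) * g l =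
        algebraMap ℝ A (κ - 1 / 8) := by
      have h5 : ∀ l, star (g l) * (star b * b - algebraMap ℝ A (1 / 8)) * g l =
          star (g l) * (star b * b) * g l - algebraMap ℝ A (1 / 8) * (star (g l) * g l) := by
        intro l
        rw [mul_sub, sub_mul, ← Algebra.commutes (1 / 8 : ℝ) (star (g l)), mul_assoc (algebraMap ℝ A _)]
      rw [Finset.sum_congr rfl fun l _ => h5 l, Finset.sum_sub_distrib, h1, ← Finset.mul_sum, h2,
        mul_one, ← map_sub]
    rwa [h4] at h3
  have hunit : IsUnit (∑ l, star (g l) * (star y * y) * g l) := by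
    refine CStarAlgebra.isUnit_of_le (algebraMap ℝ A (κ - 1 / 8)) hT ?_
    rw [IsStrictlyPositive]
    constructor
    · exact algebraMap_nonneg A (by linarith)
    · exact (IsUnit.mk0 (κ - 1 / 8) (by linarith : κ - 1 / 8 ≠ 0)).map (algebraMap ℝ A)
  have hmem : ∑ l, star (g l) * (star y * y) * g l ∈ I := by
    apply sum_mem
    intro l _
    exact I.mul_mem_right _ _ (I.mul_mem_left _ _ (I.mul_mem_left _ _ hyI))
  obtain ⟨v, hv⟩ := hunit
  rw [← hv] at hmem
  rw [← TwoSidedIdeal.one_mem_iff]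
  have := I.mul_mem_left (↑v⁻¹) _ hmem
  rwa [Units.inv_mul] at this

end

end Pool.Agent.MP_d8b6c2_an.C
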