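import Mathlib
import Pool.Agent.Lib.MP_d8b6c2_an.C.SimpleAbs
import Pool.Agent.Lib.MP_d8b6c2_an.C.SeDef
import Pool.Agent.Lib.MP_d8b6c2_an.C.Si1
import Pool.Agent.Lib.MP_d8b6c2_an.C.Si2

/-!
# Simplicity of the limit algebra
-/

namespace Pool.Agent.MP_d8b6c2_an.C

open Filter Topology Matrix
open scoped Matrix.Norms.L2Operator ComplexOrder

variable {N D : ℕ → ℕ} {pt : ℕ → XX}

theorem MX.cont_entry {K : Type} [Fintype K] [DecidableEq K] {i : ℕ} (a : MX N K i)
    (p q : K × Ix N i) : Continuous fun x => a x p q :=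
  (a.continuous).matrix_elem p q

/-- a unit vector on which `c* c` is large at some point -/
theorem exists_point {i : ℕ} (c : EqA N D Unit i) (h : 3 / 4 ≤ ‖star c * c‖) :
    ∃ (y : XX) (v : Unit × Ix N i → ℂ), QN v = 1 ∧ 1 / 2 < (QF ((star c * c).1 y) v).re := by
  by_contra hcon
  push Not at hcon
  have h1 : ∀ y, ‖c.1 y‖ ^ 2 ≤ 1 / 2 := by
    intro y
    by_contra h2
    obtain ⟨v, h3, κ, h4, h5⟩ := exists_unit (c.1 y) (1 / 2) (by norm_num) (not_le.1 h2)
    have h6 := hcon y v h3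
    have h7 : (star c * c).1 y = (c.1 y)ᴴ * c.1 y := rfl
    rw [h7, h5, Complex.ofReal_re] at h6
    linarith
  have h2 : ‖star c * c‖ ≤ 1 / 2 := by
    rw [CStarRing.norm_star_mul_self]
    have h3 : ‖c‖ ≤ Real.sqrt (1 / 2) := by
      change ‖c.1‖ ≤ _
      rw [ContinuousMap.norm_le _ (Real.sqrt_nonneg _)]
      intro y
      exact Real.le_sqrt_of_sq_le (h1 y)
    calc ‖c‖ * ‖c‖ ≤ Real.sqrt (1 / 2) * Real.sqrt (1 / 2) :=
          mul_self_le_mul_self (norm_nonneg _) h3
      _ = 1 / 2 := Real.mul_self_sqrt (by norm_num)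
  linarith

/-- the rank one element `x ↦ τ(x) ξ e_p^*` with `ξ` in the last block -/
noncomputable def rk {i : ℕ} (w : Unit × Ix N i → ℂ) (p : Unit × Ix N (i + 1)) (τ : C(XX, ℂ))
    (hτ : ∀ g x, τ (act g x) = (chi N D (i + 1) p.2 g : ℂ) * τ x) : EqA N D Unit (i + 1) := by
  refine ⟨⟨fun x => Matrix.of fun r q => emb (Fin.last (N i)) w r * (if q = p then τ x else 0),
    ?_⟩, ?_⟩
  · refine continuous_matrix fun r q => ?_
    by_cases h : q = p
    · simp only [Matrix.of_apply, h, if_true]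
      exact continuous_const.mul τ.continuous
    · simp only [Matrix.of_apply, h, if_false]
      exact continuous_const
  · intro g x r q
    change emb (Fin.last (N i)) w r * (if q = p then τ (act g x) else 0) =
      _ * (emb (Fin.last (N i)) w r * (if q = p then τ x else 0))
    by_cases h : q = p
    · subst h
      rw [if_pos rfl, if_pos rfl, hτ]
      by_cases h2 : r.2.hd = Fin.last (N i)
      · have h3 : ¬ (r.2.hd : ℕ) < N i := by
          rw [h2, Fin.val_last]
          exact lt_irrefl _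
        rw [chi_succ_ge N D i r.2 g h3, Circle.coe_one, map_one]
        ring
      · simp [emb, h2]
    · simp [h]

theorem rk_apply {i : ℕ} (w : Unit × Ix N i → ℂ) (p : Unit × Ix N (i + 1)) (τ : C(XX, ℂ))
    (hτ : ∀ g x, τ (act g x) = (chi N D (i + 1) p.2 g : ℂ) * τ x) (x : XX)
    (r q : Unit × Ix N (i + 1)) :
    (rk w p τ hτ).1 x r q = emb (Fin.last (N i)) w r * (if q = p then τ x else 0) := rfl

theorem rk_mul {i : ℕ} (w : Unit × Ix N i → ℂ) (p : Unit × Ix N (i + 1)) (τ : C(XX, ℂ))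
    (hτ : ∀ g x, τ (act g x) = (chi N D (i + 1) p.2 g : ℂ) * τ x) (b : EqA N D Unit (i + 1))
    (x : XX) (q q' : Unit × Ix N (i + 1)) :
    (star (rk w p τ hτ) * b * rk w p τ hτ).1 x q q' =
      if q = p ∧ q' = p then (starRingEnd ℂ) (τ x) * τ x * QF (b.1 x) (emb (Fin.last (N i)) w)
      else 0 := by
  have h1 : (star (rk w p τ hτ) * b * rk w p τ hτ).1 x q q' =
      ∑ s, (∑ r, (starRingEnd ℂ) ((rk w p τ hτ).1 x r q) * b.1 x r s) * (rk w p τ hτ).1 x s q' :=
    rfl
  rw [h1]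
  simp only [rk_apply]
  by_cases hq : q = p
  · by_cases hq' : q' = p
    · simp only [hq, hq', if_true, and_self]
      unfold QF
      rw [Finset.mul_sum]
      simp only [Finset.sum_mul, Finset.mul_sum]
      rw [Finset.sum_comm]
      refine Finset.sum_congr rfl fun r _ => Finset.sum_congr rfl fun s _ => ?_
      rw [map_mul]
      ring
    · simp [hq']
  · simp [hq]

/-- sum over all indices and all functions -/
theorem sum_rk {i : ℕ} (w : Unit × Ix N i → ℂ) (E : Unit × Ix N (i + 1) → Type)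
    [∀ p, Fintype (E p)] (τ : ∀ p, E p → C(XX, ℂ))
    (hτ : ∀ p e g x, τ p e (act g x) = (chi N D (i + 1) p.2 g : ℂ) * τ p e x)
    (hs : ∀ p x, ∑ e, (starRingEnd ℂ) (τ p e x) * τ p e x = 1) (b : EqA N D Unit (i + 1)) (κ : ℂ)
    (hb : ∀ x, QF (b.1 x) (emb (Fin.last (N i)) w) = κ) :
    ∑ l : Σ p, E p, star (rk (D := D) w l.1 (τ l.1 l.2) (hτ l.1 l.2)) * b *
      rk (D := D) w l.1 (τ l.1 l.2) (hτ l.1 l.2) = algebraMap ℂ (EqA N D Unit (i + 1)) κ := by
  refine Subtype.ext (ContinuousMap.ext fun x => ?_)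
  ext q q'
  have h1 : (algebraMap ℂ (EqA N D Unit (i + 1)) κ).1 x q q' = if q = q' then κ else 0 :=
    Matrix.algebraMap_matrix_apply
  have h2 : ∀ f : (Σ p, E p) → EqA N D Unit (i + 1),
      (∑ l, f l).1 x q q' = ∑ l, (f l).1 x q q' := by
    intro f
    have h3 : (∑ l, f l).1 = ∑ l, (f l).1 := by
      exact map_sum (EqA N D Unit (i + 1)).subtype f Finset.univ
    rw [h3, ContinuousMap.sum_apply]
    exact Matrix.sum_apply _ _ _ _
  rw [h1, h2, Fintype.sum_sigma]
  simp only [rk_mul, hb]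
  by_cases hq : q = q'
  · subst hq
    rw [if_pos rfl, Finset.sum_eq_single q]
    · simp only [and_self, if_true]
      rw [← Finset.sum_mul, hs, one_mul]
    · intro p _ hp
      refine Finset.sum_eq_zero fun e _ => ?_
      rw [if_neg]
      rintro ⟨h, -⟩
      exact hp h.symm
    · intro h
      exact absurd (Finset.mem_univ _) h
  · rw [if_neg hq]
    refine Finset.sum_eq_zero fun p _ => Finset.sum_eq_zero fun e _ => ?_
    rw [if_neg]
    rintro ⟨h, h'⟩
    exact hq (h.trans h'.symm)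

theorem QF_one {n : Type*} [Fintype n] [DecidableEq n] (v : n → ℂ) :
    QF (1 : Matrix n n ℂ) v = QN v := by
  unfold QF QN
  refine Finset.sum_congr rfl fun p _ => ?_
  rw [Finset.sum_eq_single p]
  · rw [Matrix.one_apply_eq, mul_one]
  · intro q _ hq
    rw [Matrix.one_apply_ne hq.symm]
    simp
  · intro h
    exact absurd (Finset.mem_univ _) h

theorem key_stage (hN : ∀ i, 0 < N i) (hpt : DensePts pt) {i : ℕ} (c : EqA N D Unit i)
    (h : 3 / 4 ≤ ‖star c * c‖) :
    ∃ (n : ℕ) (ι : Type) (_ : Fintype ι) (g : ι → EqA N D Unit (i + (n + 1))) (κ : ℝ), 1 / 2 ≤ κ ∧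
      ∑ l, star (g l) * phin N D pt Unit i (n + 1) (star c * c) * g l =
        algebraMap ℂ _ (κ : ℂ) ∧ ∑ l, star (g l) * g l = 1 := by
  obtain ⟨y, v, hv, hy⟩ := exists_point c h
  set O : Set XX := {y | 1 / 2 < (QF ((star c * c).1 y) v).re} with hO
  have hOo : IsOpen O := by
    refine isOpen_lt continuous_const (Complex.continuous_re.comp ?_)
    unfold QF
    refine continuous_finsetSum _ fun p _ => continuous_finsetSum _ fun q _ => ?_
    exact (continuous_const.mul (MX.cont_entry (star c * c).1 p q)).mul continuous_const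
  obtain ⟨j, hij, hj⟩ := hpt i O hOo ⟨y, hy⟩
  obtain ⟨n, rfl⟩ := Nat.exists_eq_add_of_le hij
  rw [Nat.add_sub_cancel_left] at hj
  obtain ⟨w, hw1, hw2⟩ := QF_phin (pt := pt) hN (star c * c) v n (pt (i + n))
  choose E hE τ hτ hs using fun p : Unit × Ix N (i + n + 1) => row_chi N D (i + n + 1) p.2
  set κ : ℂ := QF ((star c * c).1 ((sh 0)^[n] (pt (i + n)))) v with hκ
  have hκr : κ = (κ.re : ℂ) := by
    have h1 : (star c * c).1 ((sh 0)^[n] (pt (i + n))) =
      (c.1 ((sh 0)^[n] (pt (i + n))))ᴴ * c.1 ((sh 0)^[n] (pt (i + n))) := rfl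
    rw [hκ, h1, QF_star_mul, QN_eq, Complex.ofReal_re]
  have hb : ∀ x, QF ((phin N D pt Unit i (n + 1) (star c * c)).1 x)
      (emb (N := N) (i := i + n) (Fin.last (N (i + n))) w) = κ := by
    intro x
    have h3 := QF_emb (N := N) (pt := pt) (i := i + n) (Fin.last (N (i + n))) w
      (phin N D pt Unit i n (star c * c)).1 x
    have h4 : nxt N pt (i + n) (Fin.last (N (i + n))) x = pt (i + n) := by
      simp [nxt]
    rw [h4, hw2] at h3
    exact h3
  refine ⟨n, Σ p, E p, inferInstance,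
    fun l => rk (N := N) (D := D) (i := i + n) w l.1 (τ l.1 l.2) (hτ l.1 l.2), κ.re, hj.le, ?_, ?_⟩
  · rw [← hκr]
    exact sum_rk (i := i + n) w E τ hτ hs (phin N D pt Unit i (n + 1) (star c * c)) κ hb
  · have h5 : ∀ x, QF ((1 : EqA N D Unit (i + n + 1)).1 x)
        (emb (N := N) (i := i + n) (Fin.last (N (i + n))) w) = 1 := by
      intro x
      have h6 : (1 : EqA N D Unit (i + n + 1)).1 x = 1 := rfl
      rw [h6, QF_one]
      exact (QN_emb (N := N) (i := i + n) _ w).trans (hw1.trans hv)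
    have h7 := sum_rk (D := D) (i := i + n) w E τ hτ hs 1 1 h5
    simp only [mul_one, map_one] at h7
    exact h7

theorem isSimple {A : Type} [CStarAlgebra A] (L : LimA N D pt A) (hN : ∀ i, 0 < N i)
    (hpt : DensePts pt) : IsSimpleRing A := by
  have hnt : Nontrivial A := by
    refine ⟨⟨L.ι 0 0, L.ι 0 1, fun h => ?_⟩⟩
    have h1 := L.ι_inj 0 h
    have h2 := congrArg (fun a : EqA N D Unit 0 => a.1 (pt 0) ((), ()) ((), ())) h1
    have h3 : (0 : EqA N D Unit 0).1 (pt 0) ((), ()) ((), ()) = 0 := rfl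
    have h4 : (1 : EqA N D Unit 0).1 (pt 0) ((), ()) ((), ()) = 1 := by
      have : (1 : EqA N D Unit 0).1 (pt 0) = 1 := rfl
      rw [this, Matrix.one_apply_eq]
    simp only [h3, h4] at h2
    exact zero_ne_one h2
  refine simple_of_key (⋃ i, Set.range (L.ι i)) L.dense ?_
  intro b hb hbn
  obtain ⟨i, c, rfl⟩ := Set.mem_iUnion.1 hb
  have h1 : star (L.ι i c) * L.ι i c = L.ι i (star c * c) := by rw [map_mul, map_star]
  rw [h1, NonUnitalStarAlgHom.norm_map (L.ι i) (L.ι_inj i)] at hbn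
  obtain ⟨n, J, hJ, g, κ, hκ, h2, h3⟩ := key_stage hN hpt c hbn
  refine ⟨J, hJ, fun l => L.ι (i + (n + 1)) (g l), κ, hκ, ?_, ?_⟩
  · have h4 : L.ι i (star c * c) =
        L.ι (i + (n + 1)) (phin N D pt Unit i (n + 1) (star c * c)) :=
      (ι_phin N D pt L i (n + 1) (star c * c)).symm
    rw [h1, h4]
    have h5 := congrArg (L.ι (i + (n + 1))) h2
    rw [map_sum, AlgHomClass.commutes] at h5
    simp only [map_mul, map_star] at h5 ⊢
    exact h5
  · have h5 := congrArg (L.ι (i + (n + 1))) h3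
    rw [map_sum, map_one] at h5
    simp only [map_mul, map_star] at h5
    exact h5

end Pool.Agent.MP_d8b6c2_an.C
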