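import Mathlib

/-!
# Corner embeddings of matrix algebras, made unital by an extra summand
-/

namespace Pool.Agent.MP_d8b6c2_an.C

section

variable {A : Type} [CStarAlgebra A] [PartialOrder A] [StarOrderedRing A]

/-- `M_n(A) × ℂ` -/
abbrev PA (A : Type) (n : ℕ) : Type := CStarMatrix (Fin n) (Fin n) A × ℂ

/-- entries of `M ⊕ c` -/
noncomputable def extF {n : ℕ} (M : CStarMatrix (Fin n) (Fin n) A) (c : ℂ)
    (i j : Fin (n + 1)) : A :=
  Fin.lastCases (motive := fun _ => A)
    (Fin.lastCases (motive := fun _ => A) (algebraMap ℂ A c) (fun _ => 0) j)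
    (fun i' => Fin.lastCases (motive := fun _ => A) 0 (fun j' => M i' j') j) i

omit [PartialOrder A] [StarOrderedRing A] in
@[simp] theorem extF_ll {n : ℕ} (M : CStarMatrix (Fin n) (Fin n) A) (c : ℂ) :
    extF M c (Fin.last n) (Fin.last n) = algebraMap ℂ A c := by
  simp [extF]

omit [PartialOrder A] [StarOrderedRing A] in
@[simp] theorem extF_lc {n : ℕ} (M : CStarMatrix (Fin n) (Fin n) A) (c : ℂ) (j : Fin n) :
    extF M c (Fin.last n) j.castSucc = 0 := by
  simp [extF]

omit [PartialOrder A] [StarOrderedRing A] in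
@[simp] theorem extF_cl {n : ℕ} (M : CStarMatrix (Fin n) (Fin n) A) (c : ℂ) (i : Fin n) :
    extF M c i.castSucc (Fin.last n) = 0 := by
  simp [extF]

omit [PartialOrder A] [StarOrderedRing A] in
@[simp] theorem extF_cc {n : ℕ} (M : CStarMatrix (Fin n) (Fin n) A) (c : ℂ) (i j : Fin n) :
    extF M c i.castSucc j.castSucc = M i j := by
  simp [extF]

/-- `M ⊕ c` -/
noncomputable def ext {n : ℕ} (x : PA A n) : CStarMatrix (Fin (n + 1)) (Fin (n + 1)) A :=
  CStarMatrix.ofMatrix (fun i j => extF x.1 x.2 i j)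

omit [PartialOrder A] [StarOrderedRing A] in
theorem ext_apply {n : ℕ} (x : PA A n) (i j : Fin (n + 1)) : ext x i j = extF x.1 x.2 i j := rfl

omit [CStarAlgebra A] [PartialOrder A] [StarOrderedRing A] in
/-- extensionality for matrices with a distinguished last index -/
theorem mext {n : ℕ} {M M' : CStarMatrix (Fin (n + 1)) (Fin (n + 1)) A}
    (h1 : ∀ i j : Fin n, M i.castSucc j.castSucc = M' i.castSucc j.castSucc)
    (h2 : ∀ i : Fin n, M i.castSucc (Fin.last n) = M' i.castSucc (Fin.last n))
    (h3 : ∀ j : Fin n, M (Fin.last n) j.castSucc = M' (Fin.last n) j.castSucc)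
    (h4 : M (Fin.last n) (Fin.last n) = M' (Fin.last n) (Fin.last n)) : M = M' := by
  refine CStarMatrix.ext fun i j => ?_
  refine Fin.lastCases ?_ (fun i' => ?_) i
  · refine Fin.lastCases h4 (fun j' => h3 j') j
  · refine Fin.lastCases (h2 i') (fun j' => h1 i' j') j

/-- the unital corner embedding `(M, c) ↦ (M ⊕ c, c)` -/
noncomputable def phiP (n : ℕ) : PA A n →⋆ₐ[ℂ] PA A (n + 1) where
  toFun x := (ext x, x.2)
  map_one' := by
    refine Prod.ext ?_ rfl
    refine mext (fun i j => ?_) (fun i => ?_) (fun j => ?_) ?_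
    · change extF _ _ _ _ = _
      rw [extF_cc]
      change (1 : CStarMatrix (Fin n) (Fin n) A) i j = (1 : CStarMatrix (Fin (n + 1)) (Fin (n + 1)) A) _ _
      rw [CStarMatrix.one_apply, CStarMatrix.one_apply]
      simp
    · change extF _ _ _ _ = (1 : CStarMatrix (Fin (n + 1)) (Fin (n + 1)) A) _ _
      rw [extF_cl, CStarMatrix.one_apply, if_neg]
      exact (Fin.castSucc_lt_last i).ne
    · change extF _ _ _ _ = (1 : CStarMatrix (Fin (n + 1)) (Fin (n + 1)) A) _ _
      rw [extF_lc, CStarMatrix.one_apply, if_neg]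
      exact (Fin.castSucc_lt_last j).ne'
    · change extF _ _ _ _ = (1 : CStarMatrix (Fin (n + 1)) (Fin (n + 1)) A) _ _
      rw [extF_ll, CStarMatrix.one_apply, if_pos rfl]
      exact map_one _
  map_mul' := fun x y => by
    refine Prod.ext ?_ rfl
    refine mext (fun i j => ?_) (fun i => ?_) (fun j => ?_) ?_
    · change extF (x.1 * y.1) _ _ _ = (ext x * ext y) _ _
      rw [extF_cc, CStarMatrix.mul_apply, CStarMatrix.mul_apply, Fin.sum_univ_castSucc]
      simp [ext_apply]
    · change extF (x.1 * y.1) _ _ _ = (ext x * ext y) _ _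
      rw [extF_cl, CStarMatrix.mul_apply, Fin.sum_univ_castSucc]
      simp [ext_apply]
    · change extF (x.1 * y.1) _ _ _ = (ext x * ext y) _ _
      rw [extF_lc, CStarMatrix.mul_apply, Fin.sum_univ_castSucc]
      simp [ext_apply]
    · change extF (x.1 * y.1) (x.2 * y.2) _ _ = (ext x * ext y) _ _
      rw [extF_ll, CStarMatrix.mul_apply, Fin.sum_univ_castSucc]
      simp [ext_apply]
  map_zero' := by
    refine Prod.ext ?_ rfl
    refine mext (fun i j => ?_) (fun i => ?_) (fun j => ?_) ?_
    · change extF (0 : CStarMatrix (Fin n) (Fin n) A) 0 _ _ = (0 : A)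
      rw [extF_cc]; rfl
    · change extF (0 : CStarMatrix (Fin n) (Fin n) A) 0 _ _ = (0 : A)
      rw [extF_cl]
    · change extF (0 : CStarMatrix (Fin n) (Fin n) A) 0 _ _ = (0 : A)
      rw [extF_lc]
    · change extF (0 : CStarMatrix (Fin n) (Fin n) A) 0 _ _ = (0 : A)
      rw [extF_ll, map_zero]
  map_add' := fun x y => by
    refine Prod.ext ?_ rfl
    refine mext (fun i j => ?_) (fun i => ?_) (fun j => ?_) ?_
    · change extF (x.1 + y.1) _ _ _ = ext x _ _ + ext y _ _
      simp [ext_apply]
    · change extF (x.1 + y.1) _ _ _ = ext x _ _ + ext y _ _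
      simp [ext_apply]
    · change extF (x.1 + y.1) _ _ _ = ext x _ _ + ext y _ _
      simp [ext_apply]
    · change extF (x.1 + y.1) (x.2 + y.2) _ _ = ext x _ _ + ext y _ _
      simp [ext_apply]
  commutes' := fun c => by
    refine Prod.ext ?_ rfl
    refine mext (fun i j => ?_) (fun i => ?_) (fun j => ?_) ?_
    · change extF (algebraMap ℂ (CStarMatrix (Fin n) (Fin n) A) c) _ _ _ =
        algebraMap ℂ (CStarMatrix (Fin (n + 1)) (Fin (n + 1)) A) c _ _
      rw [extF_cc, CStarMatrix.algebraMap_apply, CStarMatrix.algebraMap_apply]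
      simp
    · change extF (algebraMap ℂ (CStarMatrix (Fin n) (Fin n) A) c) _ _ _ =
        algebraMap ℂ (CStarMatrix (Fin (n + 1)) (Fin (n + 1)) A) c _ _
      rw [extF_cl, CStarMatrix.algebraMap_apply, if_neg]
      exact (Fin.castSucc_lt_last i).ne
    · change extF (algebraMap ℂ (CStarMatrix (Fin n) (Fin n) A) c) _ _ _ =
        algebraMap ℂ (CStarMatrix (Fin (n + 1)) (Fin (n + 1)) A) c _ _
      rw [extF_lc, CStarMatrix.algebraMap_apply, if_neg]
      exact (Fin.castSucc_lt_last j).ne'
    · change extF (algebraMap ℂ (CStarMatrix (Fin n) (Fin n) A) c) c _ _ =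
        algebraMap ℂ (CStarMatrix (Fin (n + 1)) (Fin (n + 1)) A) c _ _
      rw [extF_ll, CStarMatrix.algebraMap_apply, if_pos rfl]
  map_star' := fun x => by
    refine Prod.ext ?_ rfl
    refine mext (fun i j => ?_) (fun i => ?_) (fun j => ?_) ?_
    · change extF (star x.1) _ _ _ = star (ext x _ _)
      rw [extF_cc, ext_apply, extF_cc]; rfl
    · change extF (star x.1) _ _ _ = star (ext x _ _)
      rw [extF_cl, ext_apply, extF_lc, star_zero]
    · change extF (star x.1) _ _ _ = star (ext x _ _)
      rw [extF_lc, ext_apply, extF_cl, star_zero]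
    · change extF (star x.1) (star x.2) _ _ = star (ext x _ _)
      rw [extF_ll, ext_apply, extF_ll]
      exact algebraMap_star_comm _

theorem phiP_injective (n : ℕ) : Function.Injective (phiP (A := A) n) := by
  intro x y h
  refine Prod.ext (CStarMatrix.ext fun i j => ?_) ?_
  · have h1 : ext x i.castSucc j.castSucc = ext y i.castSucc j.castSucc := by
      have := congrArg Prod.fst h
      have h2 : ext x = ext y := this
      rw [h2]
    simpa [ext_apply] using h1
  · have h3 : ((phiP n) x).2 = ((phiP n) y).2 := by rw [h]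
    exact h3

end

end Pool.Agent.MP_d8b6c2_an.C
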