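import Mathlib
import Pool.Agent.Lib.MP_d8b6c2_an.C.Def
import Pool.Agent.Lib.MP_d8b6c2_an.C.Lim1
import Pool.Agent.Lib.MP_d8b6c2_an.C.StEx0

/-!
# Existence of a model of `A ⊗ 𝒦`
-/

namespace Pool.Agent.MP_d8b6c2_an.C

section

variable {A : Type} [CStarAlgebra A] [PartialOrder A] [StarOrderedRing A]

/-- `a ⊗ e_{ij}` in `M_n(A)` -/
noncomputable def sgl (n i j : ℕ) : A →ₗ[ℂ] CStarMatrix (Fin n) (Fin n) A where
  toFun a := CStarMatrix.ofMatrix (fun k l => if (k : ℕ) = i ∧ (l : ℕ) = j then a else 0)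
  map_add' := fun a b => by
    refine CStarMatrix.ext fun k l => ?_
    change (if (k : ℕ) = i ∧ (l : ℕ) = j then a + b else 0) =
      (if (k : ℕ) = i ∧ (l : ℕ) = j then a else 0) + (if (k : ℕ) = i ∧ (l : ℕ) = j then b else 0)
    split_ifs <;> simp
  map_smul' := fun c a => by
    refine CStarMatrix.ext fun k l => ?_
    change (if (k : ℕ) = i ∧ (l : ℕ) = j then c • a else 0) =
      c • (if (k : ℕ) = i ∧ (l : ℕ) = j then a else 0)
    split_ifs <;> simp

omit [PartialOrder A] [StarOrderedRing A] in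
theorem sgl_apply (n i j : ℕ) (a : A) (k l : Fin n) :
    sgl n i j a k l = if (k : ℕ) = i ∧ (l : ℕ) = j then a else 0 := rfl

omit [PartialOrder A] [StarOrderedRing A] in
theorem sgl_mul {n i j k l : ℕ} (hj : j < n) (a b : A) :
    sgl n i j a * sgl n k l b = if j = k then sgl n i l (a * b) else 0 := by
  refine CStarMatrix.ext fun p q => ?_
  rw [CStarMatrix.mul_apply]
  simp only [sgl_apply]
  rw [Finset.sum_eq_single (⟨j, hj⟩ : Fin n)]
  · by_cases hjk : j = k
    · subst hjk
      rw [if_pos rfl, sgl_apply]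
      by_cases hp : (p : ℕ) = i
      · by_cases hq : (q : ℕ) = l
        · simp [hp, hq]
        · simp [hq]
      · simp [hp]
    · rw [if_neg hjk]
      simp only [hjk, false_and, if_false, mul_zero]
      rfl
  · intro r _ hr
    have : ¬ (r : ℕ) = j := fun h => hr (Fin.ext h)
    simp [this]
  · intro h
    exact absurd (Finset.mem_univ _) h

omit [PartialOrder A] [StarOrderedRing A] in
theorem sgl_star (n i j : ℕ) (a : A) : star (sgl n i j a) = sgl n j i (star a) := by
  refine CStarMatrix.ext fun p q => ?_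
  change star (sgl n i j a q p) = _
  simp only [sgl_apply]
  by_cases h : (q : ℕ) = i ∧ (p : ℕ) = j
  · rw [if_pos h, if_pos ⟨h.2, h.1⟩]
  · rw [if_neg h, if_neg (fun h' => h ⟨h'.2, h'.1⟩), star_zero]

theorem phiP_sgl {n i j : ℕ} (hi : i < n) (hj : j < n) (a : A) :
    phiP n (sgl n i j a, (0 : ℂ)) = (sgl (n + 1) i j a, (0 : ℂ)) := by
  refine Prod.ext ?_ rfl
  refine mext (fun p q => ?_) (fun p => ?_) (fun q => ?_) ?_
  · change extF (sgl n i j a) 0 p.castSucc q.castSucc = sgl (n + 1) i j a p.castSucc q.castSucc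
    rw [extF_cc, sgl_apply, sgl_apply]
    rfl
  · change extF (sgl n i j a) 0 p.castSucc (Fin.last n) = sgl (n + 1) i j a p.castSucc (Fin.last n)
    rw [extF_cl, sgl_apply, if_neg]
    rintro ⟨_, h⟩
    rw [Fin.val_last] at h
    omega
  · change extF (sgl n i j a) 0 (Fin.last n) q.castSucc = sgl (n + 1) i j a (Fin.last n) q.castSucc
    rw [extF_lc, sgl_apply, if_neg]
    rintro ⟨h, _⟩
    rw [Fin.val_last] at h
    omega
  · change extF (sgl n i j a) 0 (Fin.last n) (Fin.last n) =
      sgl (n + 1) i j a (Fin.last n) (Fin.last n)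
    rw [extF_ll, sgl_apply, if_neg, map_zero]
    rintro ⟨h, _⟩
    rw [Fin.val_last] at h
    omega

end

/-- every unital C*-algebra has a stabilization -/
theorem exists_stabilization (A : Type) [CStarAlgebra A] :
    ∃ (B : Type) (_ : NonUnitalCStarAlgebra B) (_ : PartialOrder B) (_ : StarOrderedRing B),
      Nonempty (Stabilization A B) := by
  let iPA : PartialOrder A := CStarAlgebra.spectralOrder A
  have iOA : StarOrderedRing A := CStarAlgebra.spectralOrderedRing A
  obtain ⟨U, iU, ι, h1, h2, -⟩ := exists_limit (𝒜 := fun n => PA A n)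
    (fun n => phiP n) (fun n => phiP_injective n)
  -- the matrix units
  let v : ℕ → ℕ → ℕ → A →ₗ[ℂ] U := fun n i j =>
    { toFun := fun a => ι n (sgl n i j a, (0 : ℂ))
      map_add' := fun a b => by
        rw [← map_add]
        congr 1
        refine Prod.ext (map_add _ _ _) (add_zero (0 : ℂ)).symm
      map_smul' := fun c a => by
        rw [RingHom.id_apply, ← map_smul]
        congr 1
        refine Prod.ext (map_smul _ _ _) (mul_zero c).symm }
  have v_def : ∀ n i j a, v n i j a = ι n (sgl n i j a, (0 : ℂ)) := fun _ _ _ _ => rfl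
  have v_step : ∀ n i j a, i < n → j < n → v (n + 1) i j a = v n i j a := by
    intro n i j a hi hj
    rw [v_def, v_def, ← h1 n, phiP_sgl hi hj]
  let u : ℕ → ℕ → A →ₗ[ℂ] U := fun i j => v (max i j + 1) i j
  have u_eq : ∀ n i j a, i < n → j < n → u i j a = v n i j a := by
    intro n i j a hi hj
    have hn : max i j + 1 ≤ n := by omega
    clear hi hj
    change v (max i j + 1) i j a = v n i j a
    induction n, hn using Nat.le_induction with
    | base => rfl
    | succ k hk ih => rw [v_step k i j a (by omega) (by omega), ← ih]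
  have u_mul : ∀ i j k l a b, u i j a * u k l b = if j = k then u i l (a * b) else 0 := by
    intro i j k l a b
    have hn : ∃ n, i < n ∧ j < n ∧ k < n ∧ l < n := ⟨i + j + k + l + 1, by omega⟩
    obtain ⟨n, hi, hj, hk, hl⟩ := hn
    rw [u_eq n i j a hi hj, u_eq n k l b hk hl, u_eq n i l (a * b) hi hl, v_def, v_def, v_def,
      ← map_mul]
    have h3 : ((sgl n i j a, (0 : ℂ)) : PA A n) * (sgl n k l b, (0 : ℂ)) =
        (sgl n i j a * sgl n k l b, (0 : ℂ)) := Prod.ext rfl (mul_zero _)
    rw [h3, sgl_mul hj]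
    split_ifs
    · rfl
    · exact map_zero (ι n)
  have u_star : ∀ i j a, star (u i j a) = u j i (star a) := by
    intro i j a
    have hn : ∃ n, i < n ∧ j < n := ⟨i + j + 1, by omega⟩
    obtain ⟨n, hi, hj⟩ := hn
    rw [u_eq n i j a hi hj, u_eq n j i (star a) hj hi, v_def, v_def, ← map_star]
    congr 1
    exact Prod.ext (sgl_star n i j a) (star_zero ℂ)
  have u_inj : Function.Injective (u 0 0) := by
    intro a b h
    rw [u_eq 1 0 0 a one_pos one_pos, u_eq 1 0 0 b one_pos one_pos, v_def, v_def] at h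
    have h3 := congrArg Prod.fst (h2 1 h)
    have h4 : sgl 1 0 0 a (0 : Fin 1) (0 : Fin 1) = sgl 1 0 0 b (0 : Fin 1) (0 : Fin 1) := by
      have h5 : sgl 1 0 0 a = sgl 1 0 0 b := h3
      rw [h5]
    simpa [sgl_apply] using h4
  -- the span of the matrix units
  let T : Submodule ℂ U := Submodule.span ℂ (⋃ i, ⋃ j, Set.range (u i j))
  have hT : ∀ i j a, u i j a ∈ T := fun i j a =>
    Submodule.subset_span (Set.mem_iUnion.2 ⟨i, Set.mem_iUnion.2 ⟨j, ⟨a, rfl⟩⟩⟩)
  have hTm : ∀ x ∈ T, ∀ y ∈ T, x * y ∈ T := by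
    intro x hx y hy
    induction hx using Submodule.span_induction with
    | mem x hx =>
      obtain ⟨i, hx⟩ := Set.mem_iUnion.1 hx
      obtain ⟨j, a, rfl⟩ := Set.mem_iUnion.1 hx
      induction hy using Submodule.span_induction with
      | mem y hy =>
        obtain ⟨k, hy⟩ := Set.mem_iUnion.1 hy
        obtain ⟨l, b, rfl⟩ := Set.mem_iUnion.1 hy
        rw [u_mul]
        split_ifs
        · exact hT _ _ _
        · exact T.zero_mem
      | zero => rw [mul_zero]; exact T.zero_mem
      | add y z _ _ h3 h4 => rw [mul_add]; exact T.add_mem h3 h4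
      | smul c y _ h3 => rw [mul_smul_comm]; exact T.smul_mem c h3
    | zero => rw [zero_mul]; exact T.zero_mem
    | add x z _ _ h3 h4 => rw [add_mul]; exact T.add_mem h3 h4
    | smul c x _ h3 => rw [smul_mul_assoc]; exact T.smul_mem c h3
  have hTs : ∀ x ∈ T, star x ∈ T := by
    intro x hx
    induction hx using Submodule.span_induction with
    | mem x hx =>
      obtain ⟨i, hx⟩ := Set.mem_iUnion.1 hx
      obtain ⟨j, a, rfl⟩ := Set.mem_iUnion.1 hx
      rw [u_star]
      exact hT _ _ _
    | zero => rw [star_zero]; exact T.zero_mem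
    | add x z _ _ h3 h4 => rw [star_add]; exact T.add_mem h3 h4
    | smul c x _ h3 => rw [star_smul]; exact T.smul_mem _ h3
  let S : NonUnitalStarSubalgebra ℂ U :=
    { carrier := T
      mul_mem' := fun {x y} hx hy => hTm x hx y hy
      add_mem' := fun {x y} hx hy => T.add_mem hx hy
      zero_mem' := T.zero_mem
      smul_mem' := fun c x hx => T.smul_mem c hx
      star_mem' := fun {x} hx => hTs x hx }
  let C : NonUnitalStarSubalgebra ℂ U := S.topologicalClosure
  have hC : IsClosed (C : Set U) := S.isClosed_topologicalClosure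
  let iB : NonUnitalCStarAlgebra C := NonUnitalStarSubalgebra.nonUnitalCStarAlgebra C
  let iP : PartialOrder C := CStarAlgebra.spectralOrder C
  have iO : StarOrderedRing C := CStarAlgebra.spectralOrderedRing C
  have hSC : ∀ x ∈ T, x ∈ C := fun x hx => S.le_topologicalClosure hx
  let w : ℕ → ℕ → A →ₗ[ℂ] C := fun i j =>
    { toFun := fun a => ⟨u i j a, hSC _ (hT i j a)⟩
      map_add' := fun a b => Subtype.ext (map_add _ _ _)
      map_smul' := fun c a => Subtype.ext (map_smul _ _ _) }
  refine ⟨C, iB, iP, iO, ⟨⟨w, ?_, ?_, ?_, ?_⟩⟩⟩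
  · intro i j k l a b
    refine Subtype.ext ?_
    change u i j a * u k l b = _
    rw [u_mul]
    split_ifs
    · rfl
    · rfl
  · intro i j a
    exact Subtype.ext (u_star i j a)
  · intro a b h
    exact u_inj (congrArg Subtype.val h)
  · rw [Metric.dense_iff]
    intro x r hr
    have hx : (x : U) ∈ closure (T : Set U) := x.2
    obtain ⟨y, hy, hxy⟩ := Metric.mem_closure_iff.1 hx r hr
    have key : ∀ y ∈ T, ∀ hy : y ∈ C, (⟨y, hy⟩ : C) ∈
        Submodule.span ℂ (⋃ i, ⋃ j, Set.range (w i j)) := by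
      intro y hy
      induction hy using Submodule.span_induction with
      | mem y hy =>
        intro hC'
        obtain ⟨i, hy⟩ := Set.mem_iUnion.1 hy
        obtain ⟨j, a, rfl⟩ := Set.mem_iUnion.1 hy
        exact Submodule.subset_span (Set.mem_iUnion.2 ⟨i, Set.mem_iUnion.2 ⟨j, ⟨a, rfl⟩⟩⟩)
      | zero =>
        intro hC'
        exact Submodule.zero_mem _
      | add y z hy hz h3 h4 =>
        intro hC'
        exact Submodule.add_mem _ (h3 (hSC y hy)) (h4 (hSC z hz))
      | smul c y hy h3 =>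
        intro hC'
        exact Submodule.smul_mem _ c (h3 (hSC y hy))
    refine ⟨⟨y, hSC y hy⟩, ?_, key y hy _⟩
    rw [Metric.mem_ball, dist_comm]
    exact hxy

end Pool.Agent.MP_d8b6c2_an.C
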