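import Mathlib
import Pool.Agent.Lib.MP_d8b6c2_an.C.Def

/-!
# A tracial state is a 2-quasitrace
-/

namespace Pool.Agent.MP_d8b6c2_an

open scoped ComplexOrder

section

variable {A : Type*} [Ring A] [StarRing A] [Algebra ℂ A]

/-- a positive tracial functional is a quasitrace -/
theorem isQuasitrace_of_linear {τ : A → ℂ} (hadd : ∀ a b, τ (a + b) = τ a + τ b)
    (hsmul : ∀ (c : ℂ) a, τ (c • a) = c * τ a) (hcomm : ∀ a b, τ (a * b) = τ (b * a))
    (hnonneg : ∀ a, 0 ≤ τ (star a * a)) : IsQuasitrace τ where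
  nonneg := hnonneg
  comm := fun a => hcomm _ _
  add_I := fun a b _ _ => by rw [hadd, hsmul]
  lin := fun S _ _ c x _ y _ => by rw [hadd, hsmul]

theorem IsTracialState.isQuasitrace {τ : A → ℂ} (h : IsTracialState τ) : IsQuasitrace τ :=
  isQuasitrace_of_linear h.add h.smul h.comm h.nonneg

theorem IsTracialState.map_zero {τ : A → ℂ} (h : IsTracialState τ) : τ 0 = 0 := by
  have := h.smul 0 0
  simpa using this

/-- a tracial state is a 2-quasitrace, by `M ↦ τ (M 0 0) + τ (M 1 1)` -/
theorem IsTracialState.is2Quasitrace {τ : A → ℂ} (h : IsTracialState τ) : Is2Quasitrace τ := by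
  refine ⟨h.isQuasitrace, fun M => τ (M 0 0) + τ (M 1 1), ?_, ?_⟩
  · refine isQuasitrace_of_linear ?_ ?_ ?_ ?_
    · intro M N
      simp only [Matrix.add_apply, h.add]
      ring
    · intro c M
      simp only [Matrix.smul_apply, h.smul]
      ring
    · intro M N
      simp only [Matrix.mul_apply, Fin.sum_univ_two, h.add]
      rw [h.comm (M 0 0), h.comm (M 0 1), h.comm (M 1 0), h.comm (M 1 1)]
      ring
    · intro M
      simp only [Matrix.mul_apply, Fin.sum_univ_two, h.add, Matrix.star_apply]
      exact add_nonneg (add_nonneg (h.nonneg _) (h.nonneg _))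
        (add_nonneg (h.nonneg _) (h.nonneg _))
  · intro a
    simp [h.map_zero]

end

end Pool.Agent.MP_d8b6c2_an
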