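import Mathlib
import Pool.Agent.Lib.MP_d8b6c2_an.C.Def
import Pool.Agent.Lib.MP_d8b6c2_an.C.Lim2

/-!
# The function `f(τ) = τ(h)` on `QT A`
-/

namespace Pool.Agent.MP_d8b6c2_an.C

open Filter Topology
open scoped NNReal ENNReal ComplexOrder

section general

variable {A : Type*} [CStarAlgebra A]

/-- `f(τ) = τ(h)` -/
noncomputable def fh (h : A) : QT A → ℝ≥0∞ := fun τ => ENNReal.ofReal (τ.1 h).re

theorem fh_apply (h : A) (τ : QT A) : fh h τ = ENNReal.ofReal (τ.1 h).re := rfl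

theorem continuous_fh (h : A) : Continuous (fh h) := by
  refine ENNReal.continuous_ofReal.comp (Complex.continuous_re.comp ?_)
  exact (continuous_apply h).comp continuous_subtype_val

/-- linearity on the polynomials in a self-adjoint element -/
theorem qt_lin {τ : A → ℂ} (hτ : IsQuasitrace τ) {h : A} (hh : IsSelfAdjoint h) (c d : ℂ) :
    τ (c • h + d • 1) = c * τ h + d * τ 1 := by
  have hS : ∀ x ∈ Algebra.adjoin ℂ ({h} : Set A), star x ∈ Algebra.adjoin ℂ ({h} : Set A) := by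
    intro x hx
    induction hx using Algebra.adjoin_induction with
    | mem x hx =>
      rw [Set.mem_singleton_iff] at hx
      subst hx
      rw [hh.star_eq]
      exact Algebra.subset_adjoin rfl
    | algebraMap r =>
      rw [Algebra.algebraMap_eq_smul_one, star_smul, star_one]
      exact Subalgebra.smul_mem _ (Subalgebra.one_mem _) _
    | add x y _ _ hx hy =>
      rw [star_add]
      exact Subalgebra.add_mem _ hx hy
    | mul x y _ _ hx hy =>
      rw [star_mul]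
      exact Subalgebra.mul_mem _ hy hx
  have hC : ∀ x ∈ Algebra.adjoin ℂ ({h} : Set A), ∀ y ∈ Algebra.adjoin ℂ ({h} : Set A),
      x * y = y * x := by
    intro x hx y hy
    refine (Algebra.commute_of_mem_adjoin_singleton_of_commute hy ?_).eq
    exact (Algebra.commute_of_mem_adjoin_self hx).symm
  have hm : h ∈ Algebra.adjoin ℂ ({h} : Set A) := Algebra.subset_adjoin rfl
  have h1 : (1 : A) ∈ Algebra.adjoin ℂ ({h} : Set A) := Subalgebra.one_mem _
  have h0 : (0 : A) ∈ Algebra.adjoin ℂ ({h} : Set A) := Subalgebra.zero_mem _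
  have z0 : τ 0 = 0 := by
    have := hτ.lin _ hS hC 1 0 h0 0 h0
    rw [smul_zero, add_zero, one_mul] at this
    have h2 : τ 0 + 0 = τ 0 + τ 0 := by rw [add_zero]; exact this
    exact (add_left_cancel h2).symm
  have hd : τ (d • 1) = d * τ 1 := by
    have := hτ.lin _ hS hC d 1 h1 0 h0
    rwa [add_zero, z0, add_zero] at this
  rw [hτ.lin _ hS hC c h hm (d • 1) (Subalgebra.smul_mem _ h1 _), hd]

/-- lower bound -/
theorem qt_ge {h y : A} {c : ℝ} (hh : IsSelfAdjoint h) (hy : h = (c : ℂ) • 1 + star y * y)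
    (τ : QT A) : c ≤ (τ.1 h).re := by
  have h1 : star y * y = (1 : ℂ) • h + (-(c : ℂ)) • 1 := by
    rw [hy, one_smul, neg_smul]
    abel
  have h2 := τ.2.1.1.nonneg y
  rw [h1, qt_lin τ.2.1.1 hh, τ.2.2, one_mul, mul_one] at h2
  have h3 := (Complex.le_def.1 h2).1
  rw [Complex.add_re, Complex.neg_re, Complex.ofReal_re, Complex.zero_re] at h3
  linarith

/-- upper bound -/
theorem qt_le {h y : A} {c : ℝ} (hh : IsSelfAdjoint h) (hy : (c : ℂ) • 1 = h + star y * y)
    (τ : QT A) : (τ.1 h).re ≤ c := by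
  have h1 : star y * y = (-1 : ℂ) • h + (c : ℂ) • 1 := by
    rw [hy, neg_smul, one_smul]
    abel
  have h2 := τ.2.1.1.nonneg y
  rw [h1, qt_lin τ.2.1.1 hh, τ.2.2, mul_one] at h2
  have h3 := (Complex.le_def.1 h2).1
  rw [Complex.add_re, Complex.ofReal_re, Complex.zero_re, neg_mul, one_mul, Complex.neg_re] at h3
  linarith

theorem fh_ge {h y : A} {c : ℝ} (hh : IsSelfAdjoint h) (hy : h = (c : ℂ) • 1 + star y * y)
    (τ : QT A) : ENNReal.ofReal c ≤ fh h τ :=
  ENNReal.ofReal_le_ofReal (qt_ge hh hy τ)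

theorem fh_le {h y : A} (hh : IsSelfAdjoint h) (hy : (1 : A) = h + star y * y)
    (τ : QT A) : fh h τ ≤ 1 := by
  rw [fh_apply, ← ENNReal.ofReal_one]
  refine ENNReal.ofReal_le_ofReal (qt_le hh (y := y) ?_ τ)
  rw [Complex.ofReal_one, one_smul]
  exact hy

theorem affine_fh {h : A} (h0 : ∀ τ : QT A, 0 ≤ (τ.1 h).re) : AffineOnQT (fh h) := by
  intro τ₀ τ₁ τ₂ s hs hs' hτ
  have h1 : (τ₂.1 h).re = (1 - s) * (τ₀.1 h).re + s * (τ₁.1 h).re := by
    rw [hτ h, Complex.add_re, Complex.re_ofReal_mul, Complex.re_ofReal_mul]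
  rw [fh_apply, fh_apply, fh_apply, h1, ENNReal.ofReal_add
    (mul_nonneg (by linarith) (h0 τ₀)) (mul_nonneg hs (h0 τ₁)),
    ENNReal.ofReal_mul (by linarith), ENNReal.ofReal_mul hs]

end general

section lim

variable (N D : ℕ → ℕ)

/-- the scalar function `F`, an element of `A_0` -/
noncomputable def scal (F : C(XX, ℝ)) (hF : ∀ (g : GG) (x : XX), F (act g x) = F x) :
    EqA N D Unit 0 := by
  refine ⟨⟨fun x => algebraMap ℂ (Matrix (Unit × Ix N 0) (Unit × Ix N 0) ℂ) (F x : ℂ), ?_⟩, ?_⟩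
  · exact (continuous_algebraMap ℂ _).comp (Complex.continuous_ofReal.comp F.continuous)
  · intro g x p q
    change algebraMap ℂ (Matrix (Unit × Ix N 0) (Unit × Ix N 0) ℂ) (F (act g x) : ℂ) p q = _ *
      algebraMap ℂ (Matrix (Unit × Ix N 0) (Unit × Ix N 0) ℂ) (F x : ℂ) p q
    rw [hF g x]
    simp [chi]

theorem scal_ext {a b : EqA N D Unit 0} (h : ∀ x, a.1 x = b.1 x) : a = b :=
  Subtype.ext (ContinuousMap.ext h)

/-- `√(h - 1/4)` -/
noncomputable def yLo : EqA N D Unit 0 :=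
  scal N D ⟨fun x => Real.sqrt (hF x - 1 / 4),
    Real.continuous_sqrt.comp (continuous_hF.sub continuous_const)⟩ fun _ _ => rfl

/-- `√(1 - h)` -/
noncomputable def yHi : EqA N D Unit 0 :=
  scal N D ⟨fun x => Real.sqrt (1 - hF x),
    Real.continuous_sqrt.comp (continuous_const.sub continuous_hF)⟩ fun _ _ => rfl

theorem hF_ge (x : XX) : 1 / 4 ≤ hF x := by
  unfold hF
  have := (x []).1.2.2
  linarith

theorem hF_le (x : XX) : hF x ≤ 1 := by
  unfold hF
  have := (x []).1.2.1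
  linarith

theorem star_algebraMap_real (r : ℝ) :
    star (algebraMap ℂ (Matrix (Unit × Ix N 0) (Unit × Ix N 0) ℂ) (r : ℂ)) =
      algebraMap ℂ (Matrix (Unit × Ix N 0) (Unit × Ix N 0) ℂ) (r : ℂ) := by
  rw [← algebraMap_star_comm]
  congr 1
  exact Complex.conj_ofReal r

theorem hEl_lo : hEl N D = ((1 / 4 : ℝ) : ℂ) • (1 : EqA N D Unit 0) + star (yLo N D) * yLo N D := by
  refine scal_ext N D fun x => ?_
  change algebraMap ℂ (Matrix (Unit × Ix N 0) (Unit × Ix N 0) ℂ) (hF x : ℂ) =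
    ((1 / 4 : ℝ) : ℂ) • (1 : Matrix (Unit × Ix N 0) (Unit × Ix N 0) ℂ) +
      star (algebraMap ℂ (Matrix (Unit × Ix N 0) (Unit × Ix N 0) ℂ)
        (Real.sqrt (hF x - 1 / 4) : ℂ)) *
      algebraMap ℂ (Matrix (Unit × Ix N 0) (Unit × Ix N 0) ℂ) (Real.sqrt (hF x - 1 / 4) : ℂ)
  rw [star_algebraMap_real, ← map_mul, ← Complex.ofReal_mul,
    Real.mul_self_sqrt (by linarith [hF_ge x]), ← Algebra.algebraMap_eq_smul_one, ← map_add,
    ← Complex.ofReal_add]
  congr 2
  ring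

theorem hEl_hi : (1 : EqA N D Unit 0) = hEl N D + star (yHi N D) * yHi N D := by
  refine scal_ext N D fun x => ?_
  change (1 : Matrix (Unit × Ix N 0) (Unit × Ix N 0) ℂ) =
    algebraMap ℂ (Matrix (Unit × Ix N 0) (Unit × Ix N 0) ℂ) (hF x : ℂ) +
      star (algebraMap ℂ (Matrix (Unit × Ix N 0) (Unit × Ix N 0) ℂ)
        (Real.sqrt (1 - hF x) : ℂ)) *
      algebraMap ℂ (Matrix (Unit × Ix N 0) (Unit × Ix N 0) ℂ) (Real.sqrt (1 - hF x) : ℂ)
  rw [star_algebraMap_real, ← map_mul, ← Complex.ofReal_mul,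
    Real.mul_self_sqrt (by linarith [hF_le x]), ← map_add, ← Complex.ofReal_add]
  rw [show hF x + (1 - hF x) = 1 by ring, Complex.ofReal_one, map_one]

theorem hEl_star : star (hEl N D) = hEl N D :=
  scal_ext N D fun x => star_algebraMap_real N (hF x)

variable {N D} {pt : ℕ → XX} {A : Type} [CStarAlgebra A] (L : LimA N D pt A)

theorem hA_selfAdjoint : IsSelfAdjoint (L.ι 0 (hEl N D)) := by
  rw [isSelfAdjoint_iff, ← map_star, hEl_star]

theorem hA_lo : L.ι 0 (hEl N D) =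
    ((1 / 4 : ℝ) : ℂ) • (1 : A) + star (L.ι 0 (yLo N D)) * L.ι 0 (yLo N D) := by
  conv_lhs => rw [hEl_lo]
  rw [map_add, map_smul, map_one, map_mul, map_star]

theorem hA_hi : (1 : A) = L.ι 0 (hEl N D) + star (L.ι 0 (yHi N D)) * L.ι 0 (yHi N D) := by
  rw [← map_star, ← map_mul, ← map_add, ← hEl_hi, map_one]

/-- `f ≥ 1/4` -/
theorem fh_hEl_ge (τ : QT A) : ENNReal.ofReal (1 / 4) ≤ fh (L.ι 0 (hEl N D)) τ :=
  fh_ge (hA_selfAdjoint L) (hA_lo L) τ

/-- `f ≤ 1` -/
theorem fh_hEl_le (τ : QT A) : fh (L.ι 0 (hEl N D)) τ ≤ 1 :=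
  fh_le (hA_selfAdjoint L) (hA_hi L) τ

/-- `f` is affine -/
theorem affine_fh_hEl : AffineOnQT (fh (L.ι 0 (hEl N D))) :=
  affine_fh fun τ => le_trans (by norm_num) (qt_ge (hA_selfAdjoint L) (hA_lo L) τ)

end lim

end Pool.Agent.MP_d8b6c2_an.C
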