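import Mathlib
import Pool.Agent.Lib.MP_d8b6c2_an.C.NoRank
import Pool.Agent.Lib.MP_d8b6c2_an.C.Tr1
import Pool.Agent.Lib.MP_d8b6c2_an.C.Tr2
import Pool.Agent.Lib.MP_d8b6c2_an.C.Se
import Pool.Agent.Lib.MP_d8b6c2_an.C.Si
import Pool.Agent.Lib.MP_d8b6c2_an.C.StEx

/-!
# Final assembly: not all ranks occur
-/

namespace Pool.Agent.MP_d8b6c2_an

open Filter Topology
open scoped NNReal ENNReal ComplexOrder

theorem not_all_ranks :
    ∃ (A : Type) (_ : CStarAlgebra A),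
      IsSimpleRing A ∧ TopologicalSpace.SeparableSpace A ∧
      (∀ (n : ℕ) (x y : Matrix (Fin n) (Fin n) A), x * y = 1 → y * x = 1) ∧
      ¬ FiniteDimensional ℂ A ∧
      (∃ (B : Type) (_ : NonUnitalCStarAlgebra B) (_ : PartialOrder B) (_ : StarOrderedRing B),
        Nonempty (Stabilization A B)) ∧
      ∃ f : QT A → ℝ≥0∞, Continuous f ∧ AffineOnQT f ∧ (∀ τ, 0 < f τ) ∧ (∀ τ, f τ ≤ 1) ∧
        ∀ (B : Type) [NonUnitalCStarAlgebra B] [PartialOrder B] [StarOrderedRing B]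
          (st : Stabilization A B) (b : B), 0 ≤ b →
          ∃ τ : QT A, IsTracialState τ.1 ∧ Continuous τ.1 ∧ ¬ IsRankAt st τ.1 b (f τ) := by
  obtain ⟨N, D, M, cap, hnum⟩ := C.exists_nums
  obtain ⟨pt, hpt⟩ := C.exists_pt
  have hN : ∀ i, 0 < N i := fun i => by
    rw [hnum.hN i]
    positivity
  obtain ⟨A, iA, ⟨L⟩⟩ := C.exists_A N D pt hN
  refine ⟨A, iA, C.isSimple L hN hpt, C.separableSpace L, C.stablyFinite L, C.not_finite L,
    C.exists_stabilization A, C.fh (L.ι 0 (C.hEl N D)),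
    C.continuous_fh _, C.affine_fh_hEl L, fun τ => lt_of_lt_of_le ?_ (C.fh_hEl_ge L τ),
    C.fh_hEl_le L, ?_⟩
  · exact ENNReal.ofReal_pos.2 (by norm_num)
  · intro B _ _ _ st b hb
    by_contra hcon
    push Not at hcon
    refine C.no_rank hnum st L b hb ?_
    intro τ hτ hc
    exact hcon ⟨τ, hτ.is2Quasitrace, hτ.one⟩ hτ hc

end Pool.Agent.MP_d8b6c2_an
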