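import Mathlib
import Pool.Agent.Lib.MP_d8b6c2_an.C.Th2

/-!
# Roots of positive elements of `M_K(A_i)`
-/

namespace Pool.Agent.MP_d8b6c2_an.C

open Filter Topology Matrix
open scoped Matrix.Norms.L2Operator ComplexOrder NNReal

theorem spectrum_nonneg_of_posSemidef {n : Type*} [Fintype n] [DecidableEq n] {M : Matrix n n ℂ}
    (hM : M.PosSemidef) {t : ℝ} (ht : t ∈ spectrum ℝ M) : 0 ≤ t := by
  rw [hM.1.spectrum_real_eq_range_eigenvalues] at ht
  obtain ⟨k, rfl⟩ := ht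
  exact hM.eigenvalues_nonneg k

open scoped MatrixOrder in
theorem posSemidef_cfc {n : Type*} [Fintype n] [DecidableEq n] {M : Matrix n n ℂ}
    (f : ℝ → ℝ) (hM : M.PosSemidef) (hf : ∀ t, 0 ≤ t → 0 ≤ f t) :
    (cfc f M).PosSemidef := by
  rw [← Matrix.nonneg_iff_posSemidef]
  exact cfc_nonneg fun t ht => hf t (spectrum_nonneg_of_posSemidef hM ht)

variable {N D : ℕ → ℕ} {pt : ℕ → XX} {A : Type} [CStarAlgebra A] {B : Type}
  [NonUnitalCStarAlgebra B]

theorem PosE.isSelfAdjoint {K i : ℕ} {b : EqA N D (Fin K) i} (hb : PosE b) :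
    IsSelfAdjoint b := by
  refine Subtype.ext (ContinuousMap.ext fun x => ?_)
  exact (hb x).1

/-- real functional calculus at a point -/
theorem cfc_apply_point {K i : ℕ} (b : EqA N D (Fin K) i) (hb : IsSelfAdjoint b) (f : ℝ → ℝ)
    (hf : Continuous f) (x : XX) : (cfc f b).1 x = cfc f (b.1 x) := by
  have hc : Continuous (evx N D (Fin K) i x) := by
    change Continuous fun a : EqA N D (Fin K) i => a.1 x
    exact (continuous_eval_const x).comp continuous_subtype_val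
  have hx : IsSelfAdjoint (evx N D (Fin K) i x b) := hb.map _
  exact StarAlgHomClass.map_cfc (evx N D (Fin K) i x) f b hf.continuousOn hc hb hx

/-- positive elements are squares -/
theorem PosE.exists_sqrt {K i : ℕ} {b : EqA N D (Fin K) i} (hb : PosE b) :
    ∃ d : EqA N D (Fin K) i, PosE d ∧ star d * d = b := by
  have hsa := hb.isSelfAdjoint
  have hd : ∀ x, (cfc Real.sqrt b).1 x = cfc Real.sqrt (b.1 x) :=
    cfc_apply_point b hsa Real.sqrt Real.continuous_sqrt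
  have hpos : PosE (cfc Real.sqrt b) := by
    intro x
    rw [hd]
    exact posSemidef_cfc _ (hb x) fun t _ => Real.sqrt_nonneg t
  refine ⟨cfc Real.sqrt b, hpos, ?_⟩
  rw [hpos.isSelfAdjoint.star_eq]
  refine Subtype.ext (ContinuousMap.ext fun x => ?_)
  change (cfc Real.sqrt b).1 x * (cfc Real.sqrt b).1 x = b.1 x
  have hx : IsSelfAdjoint (b.1 x) := (hb x).1
  rw [hd, ← cfc_mul (R := ℝ) Real.sqrt Real.sqrt (b.1 x)
    Real.continuous_sqrt.continuousOn Real.continuous_sqrt.continuousOn]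
  have h2 : cfc (fun t : ℝ => Real.sqrt t * Real.sqrt t) (b.1 x) = cfc (id : ℝ → ℝ) (b.1 x) := by
    refine cfc_congr fun t ht => ?_
    exact Real.mul_self_sqrt (spectrum_nonneg_of_posSemidef (hb x) ht)
  rw [h2, cfc_id ℝ (b.1 x) hx]

theorem Theta_nonneg [PartialOrder B] [StarOrderedRing B] (st : Stabilization A B)
    (L : LimA N D pt A) {K i : ℕ} {b : EqA N D (Fin K) i} (hb : PosE b) :
    0 ≤ Theta st L K i b := by
  obtain ⟨d, -, rfl⟩ := hb.exists_sqrt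
  rw [map_mul, map_star]
  exact star_mul_self_nonneg _

/-- **powers**: `Θ` commutes with the real powers -/
theorem exists_rpow [PartialOrder B] [StarOrderedRing B] (st : Stabilization A B)
    (L : LimA N D pt A) {K i : ℕ} {b : EqA N D (Fin K) i} (hb : PosE b) (y : ℝ≥0) (hy : 0 < y) :
    ∃ c : EqA N D (Fin K) i, PosE c ∧ (∀ x, c.1 x = cfc (fun t : ℝ => t ^ (y : ℝ)) (b.1 x)) ∧
      Theta st L K i c = (Theta st L K i b) ^ y := by
  have hsa := hb.isSelfAdjoint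
  have hy' : (0 : ℝ) < y := hy
  have hf : Continuous fun t : ℝ => t ^ (y : ℝ) := Real.continuous_rpow_const hy'.le
  have hf0 : (0 : ℝ) ^ (y : ℝ) = 0 := Real.zero_rpow hy'.ne'
  have hd := cfc_apply_point b hsa _ hf
  refine ⟨cfc (fun t : ℝ => t ^ (y : ℝ)) b, ?_, hd, ?_⟩
  · intro x
    rw [hd]
    exact posSemidef_cfc _ (hb x) fun t ht => Real.rpow_nonneg ht _
  · rw [CFC.nnrpow_eq_cfcₙ_real _ y (Theta_nonneg st L hb), ← cfcₙ_eq_cfc hf.continuousOn hf0]
    exact NonUnitalStarAlgHomClass.map_cfcₙ (Theta st L K i) _ b hf.continuousOn hf0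
      (continuous_Theta st L K i) hsa (hsa.map _)

/-- **`(m+1)`-th roots** -/
theorem exists_root [PartialOrder B] [StarOrderedRing B] (st : Stabilization A B)
    (L : LimA N D pt A) {K i : ℕ} {b : EqA N D (Fin K) i} (hb : PosE b) (m : ℕ) :
    ∃ c : EqA N D (Fin K) i, PosE c ∧ (∀ x, (c.1 x) ^ (m + 1) = b.1 x) ∧
      Theta st L K i c = (Theta st L K i b) ^ (((m : ℝ≥0) + 1)⁻¹) := by
  obtain ⟨c, hc, hcx, hT⟩ := exists_rpow st L hb (((m : ℝ≥0) + 1)⁻¹) (by positivity)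
  refine ⟨c, hc, fun x => ?_, hT⟩
  have hx : IsSelfAdjoint (b.1 x) := (hb x).1
  have hf : Continuous fun t : ℝ => t ^ ((((m : ℝ≥0) + 1)⁻¹ : ℝ≥0) : ℝ) :=
    Real.continuous_rpow_const (by positivity)
  rw [hcx, ← cfc_pow (R := ℝ) _ (m + 1) (b.1 x) hf.continuousOn]
  have h2 : cfc (fun t : ℝ => (t ^ ((((m : ℝ≥0) + 1)⁻¹ : ℝ≥0) : ℝ)) ^ (m + 1)) (b.1 x) =
      cfc (id : ℝ → ℝ) (b.1 x) := by
    refine cfc_congr fun t ht => ?_
    have ht0 := spectrum_nonneg_of_posSemidef (hb x) ht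
    have e : ((((m : ℝ≥0) + 1)⁻¹ : ℝ≥0) : ℝ) = ((m + 1 : ℕ) : ℝ)⁻¹ := by push_cast; rfl
    simp only [id]
    rw [e]
    exact Real.rpow_inv_natCast_pow ht0 (Nat.succ_ne_zero m)
  rw [h2, cfc_id ℝ (b.1 x) hx]

/-- convergence of powers -/
theorem tendsto_pow [PartialOrder B] [StarOrderedRing B] {ι : Type*} {l : Filter ι} {F : ι → B}
    {a : B} (hF : ∀ j, 0 ≤ F j) (ha : 0 ≤ a) (h : Tendsto F l (𝓝 a)) (y : ℝ≥0) :
    Tendsto (fun j => F j ^ y) l (𝓝 (a ^ y)) := by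
  have h1 := CFC.continuousOn_nnrpow (A := B) y
  have h2 : Tendsto F l (𝓝[{a : B | 0 ≤ a}] a) :=
    tendsto_nhdsWithin_iff.2 ⟨h, Eventually.of_forall hF⟩
  exact (h1 a ha).tendsto.comp h2

end Pool.Agent.MP_d8b6c2_an.C
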